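import Pool.Agent.Q283.NK.F1

/-! Tuples of divisors: the trivial relations, and the main theorem with the means -/

set_option autoImplicit false
set_option linter.unusedSectionVars false

open scoped Classical
open Finset Filter

namespace Q283.NK

open Module
open Q283.Q3N (fe fe_ne fe_mul fe_cube fe_pow fe_one)
open Q283.Q3 (cq KT mem_KT)
open Q283.Q3B (rr rr_eq)
open Q283.NJ (fe_injB msJ LwJ sp PL mainB)
open Pool.Agent.Y703.CT (Cls Base)
open Q155.NL (Alm cnt cs mem_cs alm_finset alm_mono alm_true alm_and exists_dense)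
open Q283.ND (Dc xe ck Ax cf cf_mul cf_ne cf_free fe_cf Dk Dk_eq mem_Dk dv dv_inj dv_dvd fe_dv)

/-- the cubes -/
theorem cube_of_fe {n : ℕ} (hn : n ≠ 0) (h : ∀ p, fe n p = 0) : ∃ b : ℕ, n = b ^ 3 := by
  refine ⟨∏ p ∈ n.primeFactors, p ^ (n.factorization p / 3), ?_⟩
  have h1 : cf n = 1 := by
    unfold cf
    refine prod_eq_one fun p _ => ?_
    have h2 := h p
    unfold fe at h2
    rw [ZMod.natCast_eq_zero_iff] at h2
    rw [Nat.mod_eq_zero_of_dvd h2, pow_zero]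
  have h2 := cf_mul hn
  rw [h1, one_mul] at h2
  exact h2

/-- the two kinds of relations -/
theorem ind_of {κ ν : Type} {N : κ → ℕ} {a : κ → ν → ZMod 3} (hC : ∀ j, Cls (N j))
    (h0 : ∀ j, a j ≠ 0) (h : ∀ j l, j ≠ l → ¬ (a l = a j ∧ N l = N j) ∧
      ¬ (a l = -a j ∧ ∃ b : ℕ, N j * N l = b ^ 3)) : Ind N a := by
  refine ⟨h0, fun j l hjl s hs hal hfe => ?_⟩
  obtain ⟨h1, h2⟩ := h j l hjl
  have key : ∀ s : ZMod 3, s ≠ 0 → s = 1 ∨ s = -1 := by decide
  rcases key s hs with rfl | rfl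
  · rw [one_smul] at hal hfe
    exact h1 ⟨hal, fe_injB (hC l).1 (hC j).1 hfe⟩
  · rw [neg_one_smul] at hal hfe
    refine h2 ⟨hal, cube_of_fe (mul_ne_zero (hC j).1.1 (hC l).1.1) fun p => ?_⟩
    rw [fe_mul (hC j).1.1 (hC l).1.1, hfe, Pi.neg_apply, add_neg_cancel]

/-- the system of the inverse -/
theorem kt_neg (T : Finset ℕ) (f : ℕ → ZMod 3) : KT T (-f) = KT T f := by
  ext x
  rw [mem_KT, mem_KT]
  refine and_congr (forall_congr' fun p => ?_) (forall_congr' fun p => forall_congr' fun _ => ?_)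
  · rw [Pi.neg_apply, neg_eq_zero]
  · have h1 : ∀ q : T, (-f) p * (-f) q * Pool.Agent.Y703.CX.lam p q * (x q - x p) =
        f p * f q * Pool.Agent.Y703.CX.lam p q * (x q - x p) := by
      intro q
      rw [Pi.neg_apply, Pi.neg_apply, neg_mul_neg]
    rw [Finset.sum_congr rfl fun q _ => h1 q]

/-- the trivial relation -/
theorem rr_inv {n n' b : ℕ} (hC : Cls n) (hC' : Cls n') (h : n * n' = b ^ 3) : rr n = rr n' := by
  have h1 : fe n' = -fe n := by
    funext p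
    have h2 : fe (n * n') p = 0 := by rw [h, fe_cube]
    rw [fe_mul hC.1.1 hC'.1.1] at h2
    rw [Pi.neg_apply]
    exact (neg_eq_of_add_eq_zero_right h2).symm
  have h2 : n'.primeFactors = n.primeFactors := by
    ext p
    rw [← fe_ne hC.1, ← fe_ne hC'.1, h1, Pi.neg_apply, neg_ne_zero]
  have h3 := rr_eq hC' (T := n.primeFactors) h2.subset fun u hu hu' => absurd (h2 ▸ hu) hu'
  rw [h1, kt_neg] at h3
  exact h3

/-- the means over the tuples -/
theorem mean_fo {ν : Type} [Fintype ν] {D : ℕ} (hD : Dc D) {N : ℕ} (hN : N ≠ 0) {b : ν → ZMod 3}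
    (hb : b ≠ 0) {c : ν → ℕ} (hne : (DkK c D).Nonempty) (F : ℕ → ℝ) :
    (∑ d ∈ DkK c D, F (cf (N * fo b d))) / (DkK c D).card =
      (∑ d ∈ Dk (fo b c % 9) D, F (cf (N * d))) / (Dk (fo b c % 9) D).card := by
  have h1 : ((DkK c D).card : ℝ) ≠ 0 := by exact_mod_cast (card_pos.2 hne).ne'
  have h2 : ((Dk (fo b c % 9) D).card : ℝ) ≠ 0 := by
    exact_mod_cast (card_pos.2 (Dk_fo_ne hD hb hne)).ne'
  rw [div_eq_div_iff h1 h2, sum_fo hD hN hb c F, mul_comm]

/-- the number of the tuples -/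
theorem DkK_card {ν : Type} [Fintype ν] {D : ℕ} (hD : Dc D) {c : ν → ℕ}
    (hne : (DkK c D).Nonempty) : 3 ^ (Fintype.card ν * D.primeFactors.card) ≤
      3 ^ Fintype.card ν * (DkK c D).card := by
  obtain ⟨d, hd⟩ := hne
  have h1 : ∀ n, 3 ^ D.primeFactors.card ≤ 3 * (Dk (c n) D).card := fun n =>
    Q283.ND.Dk_card hD ⟨d n, mem_DkK.1 hd n⟩
  have h2 : ∏ _n : ν, 3 ^ D.primeFactors.card ≤ ∏ n : ν, (3 * (Dk (c n) D).card) :=
    prod_le_prod' fun n _ => h1 n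
  rw [prod_const, card_univ, ← pow_mul, prod_mul_distrib, prod_const, card_univ] at h2
  rw [mul_comm (Fintype.card ν)]
  refine h2.trans (le_of_eq ?_)
  unfold DkK
  rw [Fintype.card_piFinset]

/-- **The main theorem with the means.** -/
theorem mainKC : ∃ S : ℕ → Prop, Alm (fun _ => True) S ∧ Alm Dc S ∧
    (∀ (M n : ℕ) (N : Fin M → ℕ) (a : Fin M → Fin n → ZMod 3), (∀ j, Cls (N j)) → Ind N a →
      ∀ ε : ℝ, 0 < ε → ∀ᶠ D in atTop, S D → PK M n N a ε (sp D)) ∧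
    (∀ N : ℕ, Cls N → ∀ ε : ℝ, 0 < ε → ∀ᶠ D in atTop, S D → PL N ε (sp D)) := by
  obtain ⟨S₁, h1, h2, h3⟩ := mainKB
  obtain ⟨S₂, g1, g2, -, g4⟩ := mainB
  refine ⟨fun D => S₁ D ∧ S₂ D, alm_and h1 g1, alm_and h2 g2, fun M n N a hC hN ε hε => ?_,
    fun N hC ε hε => ?_⟩
  · filter_upwards [h3 M n N a hC hN ε hε] with D hD h
    exact hD h.1
  · filter_upwards [g4 N hC ε hε] with D hD h
    exact hD h.2

end Q283.NK
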