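import Pool.Agent.Q283.NJ.A3

/-! Several systems with arbitrary exponents: the joint conditional law -/

set_option autoImplicit false
set_option linter.unusedSectionVars false

open scoped Classical

namespace Q283.NK

open Finset Module
open Q283.ND (ro ro_congr ro_f ro_zero ro_smul Sy mem_Sy Sy_congr mx sp mem_sp rs Kr mem_Kr nm cb nm_eq Fu
  Fu_apply Fx Fx_apply fib nc fcc ncI ro_mx)
open Q283.NJ (Js co_Kr)

section ks
variable {I κ : Type} [Fintype I] [Fintype κ] {J : Finset I}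
  {f : κ → I → ZMod 3} {ks : κ → I} {G : I → I → ZMod 3} {C : Finset I}

/-- several systems with distinguished indices -/
structure Ks (J : Finset I) (f : κ → I → ZMod 3) (ks : κ → I) : Prop where
  ksJ : ∀ k, ks k ∉ J
  fks : ∀ k, f k (ks k) ≠ 0
  ksl : ∀ k l, ks l ≠ ks k → f k (ks l) = 0

/-- the rows of `C` that matter for `g` -/
noncomputable def Cf (C : Finset I) (g : I → ZMod 3) : Finset I := C.filter fun i => g i ≠ 0

theorem mem_Cf {g : I → ZMod 3} {i : I} : i ∈ Cf C g ↔ i ∈ C ∧ g i ≠ 0 := by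
  unfold Cf
  rw [mem_filter]

theorem Cf_sub {g : I → ZMod 3} (hC : C ⊆ J) : Cf C g ⊆ sp J g := by
  intro i hi
  rw [mem_Cf] at hi
  exact mem_sp.2 ⟨hC hi.1, hi.2⟩

theorem Sy_Cf (g : I → ZMod 3) (k : I) (C : Finset I) (L : I → I → ZMod 3) :
    Sy g k C L = Sy g k (Cf C g) L := by
  ext x
  rw [mem_Sy, mem_Sy]
  refine and_congr_right fun _ => and_congr_right fun _ => ⟨fun h i hi hiC => ?_, fun h i hi hiC => ?_⟩
  · by_cases h1 : i ∈ C
    · have h2 : g i = 0 := by
        by_contra h3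
        exact hiC (mem_Cf.2 ⟨h1, h3⟩)
      exact ro_f L x h2
    · exact h i hi h1
  · exact h i hi fun h' => hiC (mem_Cf.1 h').1

theorem Sy_rs (g : I → ZMod 3) (k : I) (C : Finset I) (α β : I → I → ZMod 3) :
    Sy g k ∅ (mx J G (rs C α β)) = Sy g k ∅ (mx J G (rs (Cf C g) α β)) := by
  refine Sy_congr fun i _ hi => ?_
  funext j
  unfold mx rs
  by_cases h : i ∈ C
  · rw [if_pos h, if_pos (mem_Cf.2 ⟨h, hi⟩)]
  · rw [if_neg h, if_neg fun h' => h (mem_Cf.1 h').1]

/-- joint injectivity -/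
def JK (J : Finset I) (f : κ → I → ZMod 3) (ks : κ → I) (G : I → I → ZMod 3)
    (C : Finset I) (α : I → I → ZMod 3) : Prop :=
  ∀ x : κ → I → ZMod 3, (∀ k, x k ∈ Sy (f k) (ks k) C (mx J G α)) →
    (∃ t : κ → ZMod 3, ∀ j ∈ J, ∑ k, f k j * x k j = ∑ k, t k * f k j) → ∀ k, x k = 0

theorem FuK_surj (V : κ → Submodule (ZMod 3) (I → ZMod 3))
    (hV : ∀ x : κ → I → ZMod 3, (∀ k, x k ∈ V k) →
      (∃ t : κ → ZMod 3, ∀ j ∈ J, ∑ k, f k j * x k j = ∑ k, t k * f k j) → ∀ k, x k = 0)
    (g : ∀ k, (Cf C (f k)) → Module.Dual (ZMod 3) (V k)) :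
    ∃ β : I → I → ZMod 3, ∀ k, Fu J (f k) (V k) (Cf C (f k)) β = g k := by
  have h1 : ∀ i : C, ∃ c : I → ZMod 3, ∀ (k : κ) (hk : (i : I) ∈ Cf C (f k)) (x : V k),
      g k ⟨i, hk⟩ x = ∑ j, c j * (if j ∈ J then f k i * f k j * ((x : I → ZMod 3) j -
        (x : I → ZMod 3) i) else 0) := by
    intro i
    obtain ⟨T, hT⟩ : ∃ T : (∀ k, V k) →ₗ[ZMod 3] (I → ZMod 3), ∀ x j, T x j =
        ∑ k, if j ∈ J then f k i * f k j * ((x k : I → ZMod 3) j - (x k : I → ZMod 3) i)
          else 0 := by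
      refine ⟨{ toFun := fun x j =>
                  ∑ k, if j ∈ J then f k i * f k j * ((x k : I → ZMod 3) j - (x k : I → ZMod 3) i)
                    else 0
                map_add' := fun x y => ?_
                map_smul' := fun a x => ?_ }, fun _ _ => rfl⟩
      · funext j
        rw [Pi.add_apply, ← sum_add_distrib]
        refine sum_congr rfl fun k _ => ?_
        split_ifs
        · simp only [Pi.add_apply, Submodule.coe_add]; ring
        · rw [add_zero]
      · funext j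
        rw [RingHom.id_apply, Pi.smul_apply, smul_eq_mul, mul_sum]
        refine sum_congr rfl fun k _ => ?_
        split_ifs
        · simp only [Pi.smul_apply, Submodule.coe_smul, smul_eq_mul]; ring
        · rw [mul_zero]
    obtain ⟨γ, hγ⟩ : ∃ γ : Module.Dual (ZMod 3) (∀ k, V k), ∀ x, γ x =
        ∑ k, if hk : (i : I) ∈ Cf C (f k) then g k ⟨i, hk⟩ (x k) else 0 := by
      refine ⟨∑ k, if hk : (i : I) ∈ Cf C (f k) then (g k ⟨i, hk⟩).comp (LinearMap.proj k) else 0,
        fun x => ?_⟩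
      rw [LinearMap.sum_apply]
      refine sum_congr rfl fun k _ => ?_
      split_ifs
      · rfl
      · rfl
    have hker : ∀ x, T x = 0 → γ x = 0 := by
      intro x hx
      rw [hγ]
      have h2 := hV (fun k => f k i • (x k : I → ZMod 3)) (fun k => (V k).smul_mem _ (x k).2)
        ⟨fun k => f k i * (x k : I → ZMod 3) i, fun j hj => ?_⟩
      · refine sum_eq_zero fun k _ => ?_
        split_ifs with hk
        · have h3 := h2 k
          have h4 : x k = 0 := by
            apply Subtype.ext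
            exact (smul_eq_zero.1 h3).resolve_left (mem_Cf.1 hk).2
          rw [h4, map_zero]
        · rfl
      · have h3 := congrFun hx j
        rw [hT, Pi.zero_apply] at h3
        rw [← sub_eq_zero, ← sum_sub_distrib, ← h3]
        refine sum_congr rfl fun k _ => ?_
        rw [if_pos hj, Pi.smul_apply, smul_eq_mul]
        ring
    have hmem : γ ∈ LinearMap.range T.dualMap := by
      rw [LinearMap.range_dualMap_eq_dualAnnihilator_ker, Submodule.mem_dualAnnihilator]
      intro x hx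
      exact hker x (LinearMap.mem_ker.1 hx)
    obtain ⟨φ, hφ⟩ := hmem
    refine ⟨fun j => φ (Pi.single j 1), fun k hk x => ?_⟩
    have h2 : g k ⟨i, hk⟩ x = γ (Pi.single k x) := by
      rw [hγ, sum_eq_single k]
      · rw [Pi.single_eq_same, dif_pos hk]
      · intro l _ hl
        rw [Pi.single_eq_of_ne hl]
        split_ifs
        · exact map_zero _
        · rfl
      · intro hk
        exact absurd (mem_univ _) hk
    rw [h2, ← hφ]
    show φ (T (Pi.single k x)) = _
    rw [LinearMap.pi_apply_eq_sum_univ φ (T (Pi.single k x))]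
    refine sum_congr rfl fun j _ => ?_
    rw [smul_eq_mul, mul_comm, hT, sum_eq_single k]
    · rw [Pi.single_eq_same]
      congr 2
      funext l
      rw [Pi.single_apply]
      by_cases hl : j = l
      · rw [if_pos hl, if_pos hl.symm]
      · rw [if_neg hl, if_neg (Ne.symm hl)]
    · intro l _ hl
      rw [Pi.single_eq_of_ne hl]
      split_ifs
      · simp
      · rfl
    · intro hk
      exact absurd (mem_univ _) hk
  choose c hc using h1
  refine ⟨fun i j => if h : i ∈ C then c ⟨i, h⟩ j else 0, fun k => ?_⟩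
  funext i
  refine LinearMap.ext fun x => ?_
  have hiC : (i : I) ∈ C := (mem_Cf.1 i.2).1
  rw [Fu_apply, hc ⟨i, hiC⟩ k i.2 x]
  refine sum_congr rfl fun j _ => ?_
  rw [dif_pos hiC]
  split_ifs
  · ring
  · rw [mul_zero]

/-- **The joint conditional law.** -/
theorem condK (h : Ks J f ks) (hC : C ⊆ J) {α : I → I → ZMod 3}
    (hα : ∀ k, finrank (ZMod 3) (Sy (f k) (ks k) C (mx J G α)) = (Cf C (f k)).card)
    (hJK : JK J f ks G C α) (b : κ → ℕ) :
    ((univ.filter fun β : I → I → ZMod 3 => ∀ k,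
      finrank (ZMod 3) (Sy (f k) (ks k) ∅ (mx J G (rs C α β))) = b k).card : ℝ) =
      Fintype.card (I → I → ZMod 3) * ∏ k, cb (Cf C (f k)).card (b k) := by
  obtain ⟨V, hV⟩ : ∃ V : κ → Submodule (ZMod 3) (I → ZMod 3),
    V = fun k => Sy (f k) (ks k) C (mx J G α) := ⟨_, rfl⟩
  have hVk : ∀ k, V k = Sy (f k) (ks k) C (mx J G α) := fun k => by rw [hV]
  have hα' : ∀ k, finrank (ZMod 3) (V k) = (Cf C (f k)).card := fun k => by rw [hVk]; exact hα k
  have hsur : Function.Surjective (AddMonoidHom.pi fun k => Fu J (f k) (V k) (Cf C (f k))) := by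
    intro g
    obtain ⟨β, hβ⟩ := FuK_surj V (fun x hx ht => hJK x (fun k => by
      rw [← hVk]; exact hx k) ht) g
    exact ⟨β, funext hβ⟩
  have hfin : ∀ k, Finite (Module.Dual (ZMod 3) (V k)) := fun k => Module.finite_of_finite (ZMod 3)
  have h2 := fib (AddMonoidHom.pi fun k => Fu J (f k) (V k) (Cf C (f k))) hsur
    (fun g => ∀ k, finrank (ZMod 3) (Kr (Fx J (f k) G (V k) (Cf C (f k)) + g k)) = b k)
  have h3 : Nat.card {g : ∀ k, (Cf C (f k)) → Module.Dual (ZMod 3) (V k) //
      ∀ k, finrank (ZMod 3) (Kr (Fx J (f k) G (V k) (Cf C (f k)) + g k)) = b k} =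
      ∏ k, nm (Cf C (f k)).card (b k) := by
    rw [Nat.card_congr (Equiv.subtypePiEquivPi (p := fun k g =>
      finrank (ZMod 3) (Kr (Fx J (f k) G (V k) (Cf C (f k)) + g)) = b k)), Nat.card_pi]
    refine prod_congr rfl fun k _ => ?_
    rw [← nm_eq (V := V k) (K := Cf C (f k)) (hα' k) (Fintype.card_coe (Cf C (f k))) (b k)]
    exact Nat.card_congr (Equiv.subtypeEquiv
      (Equiv.addLeft (Fx J (f k) G (V k) (Cf C (f k)))) fun g => Iff.rfl)
  have h4 : Nat.card (∀ k, (Cf C (f k)) → Module.Dual (ZMod 3) (V k)) =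
      ∏ k : κ, 3 ^ ((Cf C (f k)).card * (Cf C (f k)).card) := by
    rw [Nat.card_pi]
    refine prod_congr rfl fun k _ => ?_
    rw [Nat.card_fun, Nat.card_eq_fintype_card (α := Cf C (f k)), Fintype.card_coe,
      Module.natCard_eq_pow_finrank (K := ZMod 3), Nat.card_zmod, Subspace.dual_finrank_eq, hα' k,
      ← pow_mul]
  rw [h3, h4, Nat.card_eq_fintype_card (α := I → I → ZMod 3)] at h2
  have hJs : ∀ k, Js J (f k) (fun _ : Unit => f k) (fun _ => ks k) := fun k =>
    ⟨fun _ => h.ksJ k, fun _ => h.fks k, fun _ _ _ => rfl, fun _ _ h' => absurd rfl h'⟩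
  have e1 : (univ.filter fun β : I → I → ZMod 3 => ∀ k,
      finrank (ZMod 3) (Sy (f k) (ks k) ∅ (mx J G (rs C α β))) = b k).card =
      Nat.card {β : I → I → ZMod 3 // ∀ k, finrank (ZMod 3)
        (Kr (Fx J (f k) G (V k) (Cf C (f k)) +
          (AddMonoidHom.pi fun k => Fu J (f k) (V k) (Cf C (f k))) β k)) = b k} := by
    refine (fcc.trans (nc _).symm).trans ?_
    refine Nat.card_congr (Equiv.subtypeEquiv (Equiv.refl _) fun β => ?_)
    rw [Equiv.refl_apply]
    refine forall_congr' fun k => ?_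
    rw [Sy_rs, co_Kr (hJs k) (Cf_sub hC) () (V := V k) (by rw [hVk, Sy_Cf])]
    exact Iff.rfl
  rw [e1]
  unfold cb
  rw [prod_div_distrib, mul_div_assoc']
  have hp : (0 : ℝ) < ∏ k : κ, 3 ^ ((Cf C (f k)).card * (Cf C (f k)).card) :=
    prod_pos fun _ _ => by positivity
  rw [eq_div_iff hp.ne']
  have h5 : ((Nat.card {β : I → I → ZMod 3 // ∀ k, finrank (ZMod 3)
      (Kr (Fx J (f k) G (V k) (Cf C (f k)) +
        (AddMonoidHom.pi fun k => Fu J (f k) (V k) (Cf C (f k))) β k)) = b k} *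
        ∏ k : κ, 3 ^ ((Cf C (f k)).card * (Cf C (f k)).card) : ℕ) : ℝ) =
      (((∏ k, nm (Cf C (f k)).card (b k)) * Fintype.card (I → I → ZMod 3) : ℕ) : ℝ) := by rw [h2]
  push_cast at h5 ⊢
  rw [h5]
  ring

end ks

end Q283.NK
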