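import Pool.Agent.Q283.NK.A1

/-! Systems with different exponents: the degenerate tables -/

set_option autoImplicit false
set_option linter.unusedSectionVars false

open scoped Classical

namespace Q283.NK

open Finset Module
open Q283.ND (ro ro_congr ro_f ro_zero ro_smul Sy mem_Sy Sy_congr mx sp mem_sp fib nc fcc ncI ro_mx)
open Q283.NJ (fx)

section ln
variable {I κ : Type} [Fintype I] [Fintype κ]

/-- independent vectors: all values are possible -/
theorem row_surj {K : Finset κ} {v : κ → I → ZMod 3}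
    (h : ∀ a : κ → ZMod 3, (∀ k, k ∉ K → a k = 0) → (∀ j, ∑ k, a k * v k j = 0) → a = 0)
    (g : κ → ZMod 3) : ∃ c : I → ZMod 3, ∀ k ∈ K, ∑ j, c j * v k j = g k := by
  obtain ⟨T, hT⟩ : ∃ T : (K → ZMod 3) →ₗ[ZMod 3] (I → ZMod 3), ∀ a j, T a j =
      ∑ k : K, a k * v k j := by
    refine ⟨{ toFun := fun a j => ∑ k : K, a k * v k j
              map_add' := fun a b => ?_
              map_smul' := fun r a => ?_ }, fun _ _ => rfl⟩
    · funext j
      rw [Pi.add_apply, ← sum_add_distrib]
      exact sum_congr rfl fun k _ => by rw [Pi.add_apply, add_mul]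
    · funext j
      rw [RingHom.id_apply, Pi.smul_apply, smul_eq_mul, mul_sum]
      exact sum_congr rfl fun k _ => by rw [Pi.smul_apply, smul_eq_mul, mul_assoc]
  have hinj : Function.Injective T := by
    rw [← LinearMap.ker_eq_bot, LinearMap.ker_eq_bot']
    intro a ha
    obtain ⟨a', ha'⟩ : ∃ a' : κ → ZMod 3, a' = fun k => if hk : k ∈ K then a ⟨k, hk⟩ else 0 :=
      ⟨_, rfl⟩
    have h1 := h a' (fun k hk => by rw [ha']; exact dif_neg hk) (fun j => by
      have h2 := congrFun ha j
      rw [hT, Pi.zero_apply] at h2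
      rw [← h2]
      have e1 : ∑ k, a' k * v k j = ∑ k ∈ K, a' k * v k j := by
        symm
        refine sum_subset (subset_univ _) fun k _ hk => ?_
        rw [ha']
        beta_reduce
        rw [dif_neg hk, zero_mul]
      rw [e1, ← sum_coe_sort K]
      refine sum_congr rfl fun k _ => ?_
      rw [ha']
      beta_reduce
      rw [dif_pos k.2])
    funext k
    have h2 := congrFun h1 k
    rw [ha'] at h2
    beta_reduce at h2
    rw [dif_pos k.2] at h2
    exact h2
  obtain ⟨γ, hγ⟩ : ∃ γ : Module.Dual (ZMod 3) (K → ZMod 3), ∀ a, γ a = ∑ k : K, a k * g k := by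
    refine ⟨∑ k : K, (g k) • (LinearMap.proj k), fun a => ?_⟩
    rw [LinearMap.sum_apply]
    refine sum_congr rfl fun k _ => ?_
    rw [LinearMap.smul_apply, smul_eq_mul, mul_comm]
    rfl
  obtain ⟨φ, hφ⟩ := LinearMap.dualMap_surjective_of_injective hinj γ
  refine ⟨fun j => φ (Pi.single j 1), fun k hk => ?_⟩
  have h2 : g k = γ (Pi.single ⟨k, hk⟩ 1) := by
    rw [hγ, sum_eq_single ⟨k, hk⟩]
    · rw [Pi.single_eq_same, one_mul]
    · intro m _ hm
      rw [Pi.single_eq_of_ne hm, zero_mul]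
    · intro hk
      exact absurd (mem_univ _) hk
  rw [h2, ← hφ]
  show _ = φ (T (Pi.single ⟨k, hk⟩ 1))
  rw [LinearMap.pi_apply_eq_sum_univ φ (T (Pi.single ⟨k, hk⟩ 1))]
  refine sum_congr rfl fun j _ => ?_
  rw [smul_eq_mul, hT, sum_eq_single ⟨k, hk⟩]
  · rw [Pi.single_eq_same, one_mul, mul_comm]
    beta_reduce
    congr 2
    funext m
    rw [Pi.single_apply]
    by_cases hm : j = m
    · rw [if_pos hm, if_pos hm.symm]
    · rw [if_neg hm, if_neg (Ne.symm hm)]
  · intro m _ hm
    rw [Pi.single_eq_of_ne hm, zero_mul]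
  · intro hk
    exact absurd (mem_univ _) hk

end ln

section rl
variable {I κ : Type} [Fintype I] [Fintype κ] {J : Finset I}
  {f : κ → I → ZMod 3} {ks : κ → I} {G : I → I → ZMod 3} {C : Finset I}

/-- there is only one relation modulo the exponents -/
def RlK (J : Finset I) (f : κ → I → ZMod 3) (S : Finset κ) (x : κ → I → ZMod 3) : Prop :=
  ∀ a : κ → ZMod 3, (∃ t : κ → ZMod 3, ∀ j ∈ J, ∑ k ∈ S, a k * (f k j * x k j) =
    ∑ k, t k * f k j) → ∀ k ∈ S, ∀ k' ∈ S, a k = a k'

/-- a degenerate table for a set of systems -/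
def BsK (J : Finset I) (f : κ → I → ZMod 3) (ks : κ → I) (G : I → I → ZMod 3)
    (C : Finset I) (S : Finset κ) (α : I → I → ZMod 3) : Prop :=
  ∃ x : κ → I → ZMod 3, (∀ k ∈ S, x k ∈ Sy (f k) (ks k) C (mx J G α)) ∧
    (∀ k, k ∉ S → x k = 0) ∧ (∀ k ∈ S, x k ≠ 0) ∧
    (∃ t : κ → ZMod 3, ∀ j ∈ J, ∑ k, f k j * x k j = ∑ k, t k * f k j) ∧ RlK J f S x

/-- joint injectivity if no set of systems is degenerate -/
theorem jk_of {α : I → I → ZMod 3}
    (hbad : ∀ S : Finset κ, S.Nonempty → ¬ BsK J f ks G C S α) : JK J f ks G C α := by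
  have key : ∀ n : ℕ, ∀ S : Finset κ, S.card = n → ∀ x : κ → I → ZMod 3,
      (∀ k, x k ∈ Sy (f k) (ks k) C (mx J G α)) → (∀ k, k ∈ S ↔ x k ≠ 0) →
      (∃ t : κ → ZMod 3, ∀ j ∈ J, ∑ k, f k j * x k j = ∑ k, t k * f k j) → S = ∅ := by
    intro n
    induction n using Nat.strong_induction_on with
    | _ n ih =>
      intro S hS x h1 h2 h3
      by_contra hne
      obtain ⟨t, h3⟩ := h3
      have hx0 : ∀ k, k ∉ S → x k = 0 := fun k hk => by
        by_contra h'
        exact hk ((h2 k).2 h')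
      have h4 : ¬ RlK J f S x := fun h' =>
        hbad S (nonempty_iff_ne_empty.2 hne) ⟨x, fun k _ => h1 k, hx0, fun k hk => (h2 k).1 hk,
          ⟨t, h3⟩, h'⟩
      unfold RlK at h4
      push Not at h4
      obtain ⟨a, ⟨t', ht'⟩, k, hk, k', hk', hne'⟩ := h4
      obtain ⟨y, hy⟩ : ∃ y : κ → I → ZMod 3, y = fun m => (a m - a k') • x m := ⟨_, rfl⟩
      have hy1 : ∀ m, m ∈ S.filter (fun m => a m ≠ a k') ↔ y m ≠ 0 := by
        intro m
        rw [mem_filter, hy]
        beta_reduce
        rw [smul_ne_zero_iff, sub_ne_zero, h2 m]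
        tauto
      have h5 := ih (S.filter fun m => a m ≠ a k').card (by
        rw [← hS]
        refine card_lt_card ?_
        rw [Finset.ssubset_iff_of_subset (filter_subset _ _)]
        exact ⟨k', hk', fun h' => (mem_filter.1 h').2 rfl⟩) _ rfl y (fun m => by
          rw [hy]
          exact (Sy (f m) (ks m) C (mx J G α)).smul_mem _ (h1 m)) hy1
        ⟨fun m => t' m - a k' * t m, fun j hj => ?_⟩
      · have : k ∈ S.filter fun m => a m ≠ a k' := mem_filter.2 ⟨hk, hne'⟩
        rw [h5] at this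
        exact notMem_empty _ this
      · have h6 : ∑ k ∈ S, a k * (f k j * x k j) = ∑ k, a k * (f k j * x k j) :=
          sum_subset (subset_univ S) fun m _ hm => by
            rw [hx0 m hm, Pi.zero_apply, mul_zero, mul_zero]
        have h7 := ht' j hj
        have h8 := h3 j hj
        rw [h6] at h7
        have h9 : ∑ m, (t' m - a k' * t m) * f m j =
            ∑ m, t' m * f m j - a k' * ∑ m, t m * f m j := by
          rw [mul_sum, ← sum_sub_distrib]
          exact sum_congr rfl fun m _ => by ring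
        rw [h9, ← h7, ← h8, mul_sum, ← sum_sub_distrib]
        refine sum_congr rfl fun m _ => ?_
        rw [hy]
        simp only [Pi.smul_apply, smul_eq_mul]
        ring
  intro x h1 h2 k
  by_contra hk
  have h3 := key _ (univ.filter fun k => x k ≠ 0) rfl x h1 (fun k => by simp) h2
  have : k ∈ univ.filter fun k => x k ≠ 0 := mem_filter.2 ⟨mem_univ _, hk⟩
  rw [h3] at this
  exact notMem_empty _ this

/-- the pairs with independent rows -/
noncomputable def QQ (J C : Finset I) (f : κ → I → ZMod 3) (S : Finset κ) (l : κ) : Finset (I × κ) :=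
  univ.filter fun p => p.1 ∈ J \ C ∧ p.2 ∈ S ∧ f p.2 p.1 ≠ 0 ∧ ¬ (p.2 = l ∧ ∀ m ∈ S, f m p.1 ≠ 0)

/-- the random part of the rows -/
noncomputable def liq (J : Finset I) (f : κ → I → ZMod 3) (Q : Finset (I × κ))
    (x : κ → I → ZMod 3) : (I → I → ZMod 3) →+ (Q → ZMod 3) where
  toFun := fun α p => ∑ j, if j ∈ J then f p.1.2 p.1.1 * f p.1.2 j * α p.1.1 j *
    (x p.1.2 j - x p.1.2 p.1.1) else 0
  map_zero' := by
    funext p
    refine sum_eq_zero fun j _ => ?_
    split_ifs
    · simp
    · rfl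
  map_add' := fun α β => by
    funext p
    show _ = (∑ j, if j ∈ J then f p.1.2 p.1.1 * f p.1.2 j * α p.1.1 j *
        (x p.1.2 j - x p.1.2 p.1.1) else 0) +
      ∑ j, if j ∈ J then f p.1.2 p.1.1 * f p.1.2 j * β p.1.1 j *
        (x p.1.2 j - x p.1.2 p.1.1) else 0
    rw [← sum_add_distrib]
    refine sum_congr rfl fun j _ => ?_
    split_ifs
    · simp only [Pi.add_apply]; ring
    · rw [add_zero]

theorem liq_apply (Q : Finset (I × κ)) (x : κ → I → ZMod 3) (α : I → I → ZMod 3) (p : Q) :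
    liq J f Q x α p = ∑ j, if j ∈ J then f p.1.2 p.1.1 * f p.1.2 j * α p.1.1 j *
      (x p.1.2 j - x p.1.2 p.1.1) else 0 := rfl

theorem liq_surj {S : Finset κ} {l : κ} (hl : l ∈ S) {x : κ → I → ZMod 3} (hx : RlK J f S x) :
    Function.Surjective (liq J f (QQ J C f S l) x) := by
  intro g
  have h1 : ∀ i : I, ∃ c : I → ZMod 3, ∀ k ∈ univ.filter (fun k => (i, k) ∈ QQ J C f S l),
      ∑ j, c j * (if j ∈ J then f k i * f k j * (x k j - x k i) else 0) =
        (fun k => if h : (i, k) ∈ QQ J C f S l then g ⟨(i, k), h⟩ else 0) k := by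
    intro i
    refine row_surj (fun a ha hsum => ?_) _
    have hS : ∀ k, a k ≠ 0 → (i, k) ∈ QQ J C f S l := by
      intro k hk
      by_contra h
      exact hk (ha k fun h' => h (mem_filter.1 h').2)
    have h2 := hx (fun k => a k * f k i) ⟨fun k => a k * f k i * x k i, fun j hj => ?_⟩
    · -- the coefficients are constant
      have h3 : ∃ k ∈ S, a k * f k i = 0 := by
        by_cases hal : a l = 0
        · exact ⟨l, hl, by rw [hal, zero_mul]⟩
        · have h4 := hS l hal
          unfold QQ at h4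
          rw [mem_filter] at h4
          obtain ⟨-, -, -, -, h5⟩ := h4
          rw [not_and] at h5
          have h6 := h5 rfl
          push Not at h6
          obtain ⟨m, hm, hm0⟩ := h6
          exact ⟨m, hm, by rw [hm0, mul_zero]⟩
      obtain ⟨k₀, hk₀, h3⟩ := h3
      funext k
      rw [Pi.zero_apply]
      by_contra hk
      have h4 := hS k hk
      unfold QQ at h4
      rw [mem_filter] at h4
      obtain ⟨-, -, h5, h6, -⟩ := h4
      have h7 := h2 k h5 k₀ hk₀
      beta_reduce at h7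
      rw [h3] at h7
      exact hk ((mul_eq_zero.1 h7).resolve_right h6)
    · have h3 := hsum j
      simp only [if_pos hj] at h3
      have h4 : ∑ k ∈ S, a k * f k i * (f k j * x k j) = ∑ k, a k * f k i * (f k j * x k j) := by
        refine sum_subset (subset_univ S) fun k _ hk => ?_
        have : a k = 0 := by
          by_contra h'
          have h5 := hS k h'
          unfold QQ at h5
          rw [mem_filter] at h5
          exact hk h5.2.2.1
        rw [this]
        ring
      beta_reduce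
      rw [h4, ← sub_eq_zero, ← sum_sub_distrib, ← h3]
      exact sum_congr rfl fun k _ => by ring
  choose c hc using h1
  refine ⟨fun i j => c i j, ?_⟩
  funext p
  obtain ⟨⟨i, k⟩, hp⟩ := p
  rw [liq_apply]
  have h2 := hc i k (mem_filter.2 ⟨mem_univ _, hp⟩)
  beta_reduce at h2
  rw [dif_pos hp] at h2
  rw [← h2]
  refine sum_congr rfl fun j _ => ?_
  split_ifs
  · ring
  · rw [mul_zero]

/-- the tables with zero rows -/
theorem card_rowsQ {S : Finset κ} {l : κ} (hl : l ∈ S) {x : κ → I → ZMod 3} (hx : RlK J f S x) :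
    (univ.filter fun α : I → I → ZMod 3 => ∀ i ∈ J \ C, ∀ k ∈ S,
      ro (f k) (mx J G α) i (x k) = 0).card * 3 ^ (QQ J C f S l).card ≤
      Fintype.card (I → I → ZMod 3) := by
  have h1 := fib (liq J f (QQ J C f S l) x) (liq_surj hl hx) (fun b => ∀ p : QQ J C f S l,
    b p + fx J (f p.1.2) G p.1.1 (x p.1.2) = 0)
  have h2 : Nat.card {b : QQ J C f S l → ZMod 3 // ∀ p : QQ J C f S l,
      b p + fx J (f p.1.2) G p.1.1 (x p.1.2) = 0} = 1 := by
    rw [Nat.card_eq_one_iff_unique]
    refine ⟨⟨?_⟩, ⟨⟨fun p => - fx J (f p.1.2) G p.1.1 (x p.1.2), fun p => by rw [neg_add_cancel]⟩⟩⟩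
    rintro ⟨b, hb⟩ ⟨b', hb'⟩
    apply Subtype.ext
    funext p
    exact (eq_neg_of_add_eq_zero_left (hb p)).trans (eq_neg_of_add_eq_zero_left (hb' p)).symm
  rw [h2, one_mul, Nat.card_fun, Nat.card_zmod, Nat.card_eq_fintype_card (α := ↥(QQ J C f S l)),
    Fintype.card_coe, Nat.card_eq_fintype_card (α := I → I → ZMod 3)] at h1
  rw [← h1]
  refine Nat.mul_le_mul_right _ (le_trans (le_of_eq ncI) ?_)
  refine Nat.card_le_card_of_injective (fun α : {α : I → I → ZMod 3 // ∀ i ∈ J \ C, ∀ k ∈ S,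
      ro (f k) (mx J G α) i (x k) = 0} => (⟨α.1, fun p => ?_⟩ : {α : I → I → ZMod 3 //
      ∀ p : QQ J C f S l, liq J f (QQ J C f S l) x α p +
        fx J (f p.1.2) G p.1.1 (x p.1.2) = 0})) ?_
  · have hp := p.2
    unfold QQ at hp
    rw [mem_filter] at hp
    have h3 := α.2 p.1.1 hp.2.1 p.1.2 hp.2.2.1
    rw [ro_mx (mem_sdiff.1 hp.2.1).1] at h3
    exact h3
  · intro α β hαβ
    exact Subtype.ext (Subtype.mk.inj hαβ)

end rl

end Q283.NK
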