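import Pool.Agent.Q283.NK.A2

/-! Systems with different exponents: the number of the degenerate tables -/

set_option autoImplicit false
set_option linter.unusedSectionVars false

open scoped Classical

namespace Q283.NK

open Finset Module
open Q283.ND (ro ro_congr ro_f ro_zero ro_smul Sy mem_Sy Sy_congr mx sp mem_sp fib nc fcc ncI ro_mx)
open Q283.NJ (fx)

section zt
variable {I κ : Type} [Fintype I] [Fintype κ] {J : Finset I}
  {f : κ → I → ZMod 3} {ks : κ → I} {G : I → I → ZMod 3} {C : Finset I}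

/-- the free entries -/
noncomputable def QF (J C : Finset I) (f : κ → I → ZMod 3) (S : Finset κ) (sel : I → κ) :
    Finset (I × κ) :=
  univ.filter fun p => p.2 ∈ S ∧ (p.1 ∉ J \ C ∨ (f p.2 p.1 ≠ 0 ∧ p.2 ≠ sel p.1))

/-- the tuples with a given relation -/
noncomputable def Zr (J : Finset I) (f : κ → I → ZMod 3) (S : Finset κ) (t : κ → ZMod 3) :
    Finset (κ → I → ZMod 3) :=
  univ.filter fun x => (∀ k, k ∉ S → x k = 0) ∧ (∀ k ∈ S, ∀ i, f k i = 0 → x k i = 0) ∧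
    ∀ j ∈ J, ∑ k, f k j * x k j = ∑ k, t k * f k j

theorem zr_le {S : Finset κ} {sel : I → κ} (t : κ → ZMod 3) :
    (Zr J f S t).card ≤ 3 ^ (QF J C f S sel).card := by
  have h1 : (univ : Finset (QF J C f S sel → ZMod 3)).card = 3 ^ (QF J C f S sel).card := by
    rw [card_univ, Fintype.card_fun, ZMod.card, Fintype.card_coe]
  rw [← h1]
  refine card_le_card_of_injOn (fun x p => x p.1.2 p.1.1) (fun _ _ => mem_coe.2 (mem_univ _)) ?_
  intro x hx y hy hxy
  rw [mem_coe] at hx hy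
  unfold Zr at hx hy
  rw [mem_filter] at hx hy
  obtain ⟨-, x1, x2, x3⟩ := hx
  obtain ⟨-, y1, y2, y3⟩ := hy
  have hag : ∀ i k, (i, k) ∈ QF J C f S sel → x k i = y k i := fun i k h =>
    congrFun hxy ⟨(i, k), h⟩
  funext k i
  by_cases hk : k ∈ S
  swap
  · rw [x1 k hk, y1 k hk]
  by_cases hi : i ∈ J \ C
  swap
  · refine hag i k ?_
    unfold QF
    rw [mem_filter]
    exact ⟨mem_univ _, hk, Or.inl hi⟩
  have hne : ∀ m, m ≠ sel i → x m i = y m i := by
    intro m hm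
    by_cases hmS : m ∈ S
    · by_cases hf : f m i = 0
      · rw [x2 m hmS i hf, y2 m hmS i hf]
      · refine hag i m ?_
        unfold QF
        rw [mem_filter]
        exact ⟨mem_univ _, hmS, Or.inr ⟨hf, hm⟩⟩
    · rw [x1 m hmS, y1 m hmS]
  by_cases hks : k = sel i
  swap
  · exact hne k hks
  by_cases hf : f k i = 0
  · rw [x2 k hk i hf, y2 k hk i hf]
  have h3 := (x3 i (mem_sdiff.1 hi).1).trans (y3 i (mem_sdiff.1 hi).1).symm
  rw [← add_sum_erase univ (fun k => f k i * x k i) (mem_univ k),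
    ← add_sum_erase univ (fun k => f k i * y k i) (mem_univ k)] at h3
  have h4 : ∑ m ∈ univ.erase k, f m i * x m i = ∑ m ∈ univ.erase k, f m i * y m i := by
    refine sum_congr rfl fun m hm => ?_
    rw [hne m]
    rw [← hks]
    exact (mem_erase.1 hm).1
  rw [h4] at h3
  exact mul_left_cancel₀ hf (add_right_cancel h3)

theorem card_prodF (P : I → κ → Prop) :
    (univ.filter fun p : I × κ => P p.1 p.2).card = ∑ i, (univ.filter fun k => P i k).card := by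
  rw [card_filter, Fintype.sum_prod_type]
  exact sum_congr rfl fun i _ => (card_filter _ _).symm

theorem qf_le {S : Finset κ} {l k₁ k₂ : κ} (h₁ : k₁ ∈ S) (h₂ : k₂ ∈ S) {sel : I → κ}
    (hsel : ∀ i, (∃ k ∈ S, f k i ≠ 0) → sel i ∈ S ∧ f (sel i) i ≠ 0) :
    (QF J C f S sel).card + ((J \ C).filter fun i => f k₁ i = 0 ∧ f k₂ i ≠ 0).card ≤
      (QQ J C f S l).card + S.card * (J \ C)ᶜ.card := by
  have c1 : (QF J C f S sel).card = ∑ i, (univ.filter fun k => k ∈ S ∧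
      (i ∉ J \ C ∨ (f k i ≠ 0 ∧ k ≠ sel i))).card := by
    unfold QF
    exact (fcc.trans (card_prodF fun i k => k ∈ S ∧ (i ∉ J \ C ∨ (f k i ≠ 0 ∧ k ≠ sel i)))).trans
      (sum_congr rfl fun i _ => fcc)
  have c2 : (QQ J C f S l).card = ∑ i, (univ.filter fun k => i ∈ J \ C ∧ k ∈ S ∧ f k i ≠ 0 ∧
      ¬ (k = l ∧ ∀ m ∈ S, f m i ≠ 0)).card := by
    unfold QQ
    exact (fcc.trans (card_prodF fun i k => i ∈ J \ C ∧ k ∈ S ∧ f k i ≠ 0 ∧
      ¬ (k = l ∧ ∀ m ∈ S, f m i ≠ 0))).trans (sum_congr rfl fun i _ => fcc)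
  rw [c1, c2]
  have e1 : ((J \ C).filter fun i => f k₁ i = 0 ∧ f k₂ i ≠ 0).card =
      ∑ i, if i ∈ J \ C ∧ f k₁ i = 0 ∧ f k₂ i ≠ 0 then 1 else 0 := by
    rw [← card_filter]
    congr 1
    ext i
    simp only [mem_filter, mem_univ, true_and]
  have e2 : S.card * (J \ C)ᶜ.card = ∑ i, if i ∈ (J \ C)ᶜ then S.card else 0 := by
    rw [← sum_filter, sum_const, smul_eq_mul, mul_comm]
    congr 2
    ext i
    simp
  rw [e1, e2, ← sum_add_distrib, ← sum_add_distrib]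
  refine sum_le_sum fun i _ => ?_
  by_cases hi : i ∈ J \ C
  swap
  · rw [if_pos (mem_compl.2 hi), if_neg (by tauto), add_zero]
    refine le_trans (card_le_card fun k hk => ?_) (Nat.le_add_left _ _)
    exact (mem_filter.1 hk).2.1
  rw [if_neg (fun h => (mem_compl.1 h) hi), add_zero]
  obtain ⟨T, hT⟩ : ∃ T, T = S.filter fun k => f k i ≠ 0 := ⟨_, rfl⟩
  by_cases hTe : ∃ k ∈ S, f k i ≠ 0
  swap
  · have g1 : (univ.filter fun k => k ∈ S ∧ (i ∉ J \ C ∨ (f k i ≠ 0 ∧ k ≠ sel i))) = ∅ := by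
      rw [filter_eq_empty_iff]
      rintro k - ⟨g2, g3⟩
      rcases g3 with g3 | g3
      · exact g3 hi
      · exact hTe ⟨k, g2, g3.1⟩
    rw [g1, card_empty, if_neg (fun h => hTe ⟨k₂, h₂, h.2.2⟩)]
    exact Nat.zero_le _
  obtain ⟨s1, s2⟩ := hsel i hTe
  have hsT : sel i ∈ T := by rw [hT, mem_filter]; exact ⟨s1, s2⟩
  have g1 : (univ.filter fun k => k ∈ S ∧ (i ∉ J \ C ∨ (f k i ≠ 0 ∧ k ≠ sel i))) =
      T.erase (sel i) := by
    ext k
    rw [mem_filter, mem_erase, hT, mem_filter]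
    constructor
    · rintro ⟨-, g2, g3⟩
      rcases g3 with g3 | g3
      · exact absurd hi g3
      · exact ⟨g3.2, g2, g3.1⟩
    · rintro ⟨g2, g3, g4⟩
      exact ⟨mem_univ _, g3, Or.inr ⟨g4, g2⟩⟩
  rw [g1, card_erase_of_mem hsT]
  have hpos : 0 < T.card := card_pos.2 ⟨_, hsT⟩
  by_cases hall : ∀ m ∈ S, f m i ≠ 0
  · rw [if_neg (fun h => hall k₁ h₁ h.2.1), add_zero]
    have g2 : T.erase l ⊆ univ.filter fun k => i ∈ J \ C ∧ k ∈ S ∧ f k i ≠ 0 ∧
        ¬ (k = l ∧ ∀ m ∈ S, f m i ≠ 0) := by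
      intro k hk
      rw [mem_erase, hT, mem_filter] at hk
      rw [mem_filter]
      exact ⟨mem_univ _, hi, hk.2.1, hk.2.2, fun h => hk.1 h.1⟩
    refine le_trans ?_ (card_le_card g2)
    exact pred_card_le_card_erase
  · have g2 : T ⊆ univ.filter fun k => i ∈ J \ C ∧ k ∈ S ∧ f k i ≠ 0 ∧
        ¬ (k = l ∧ ∀ m ∈ S, f m i ≠ 0) := by
      intro k hk
      rw [hT, mem_filter] at hk
      rw [mem_filter]
      exact ⟨mem_univ _, hi, hk.1, hk.2, fun h => hall h.2⟩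
    refine le_trans ?_ (card_le_card g2)
    split_ifs <;> omega

/-- **The degenerate tables are few.** -/
theorem badK_few (h : Ks J f ks) {S : Finset κ} {k₁ k₂ : κ} (h₁ : k₁ ∈ S) (h₂ : k₂ ∈ S) :
    (univ.filter fun α : I → I → ZMod 3 => BsK J f ks G C S α).card *
      3 ^ ((J \ C).filter fun i => f k₁ i = 0 ∧ f k₂ i ≠ 0).card ≤
      Fintype.card (I → I → ZMod 3) * 3 ^ (Fintype.card κ + S.card * (J \ C)ᶜ.card) := by
  obtain ⟨N, hN⟩ : ∃ N, N = Fintype.card (I → I → ZMod 3) := ⟨_, rfl⟩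
  have hex : ∀ i : I, ∃ m : κ, (∃ k ∈ S, f k i ≠ 0) → m ∈ S ∧ f m i ≠ 0 := by
    intro i
    by_cases h' : ∃ k ∈ S, f k i ≠ 0
    · obtain ⟨k, hk, hk2⟩ := h'
      exact ⟨k, fun _ => ⟨hk, hk2⟩⟩
    · exact ⟨k₁, fun h'' => absurd h'' h'⟩
  choose sel hsel using hex
  have hq := qf_le (J := J) (C := C) (l := k₁) h₁ h₂ hsel
  obtain ⟨r, hr⟩ : ∃ r, r = ((J \ C).filter fun i => f k₁ i = 0 ∧ f k₂ i ≠ 0).card := ⟨_, rfl⟩
  obtain ⟨q, hq'⟩ : ∃ q, q = (QQ J C f S k₁).card := ⟨_, rfl⟩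
  obtain ⟨z, hz⟩ : ∃ z, z = (QF J C f S sel).card := ⟨_, rfl⟩
  rw [← hr, ← hq', ← hz] at hq
  have hsub : (univ.filter fun α : I → I → ZMod 3 => BsK J f ks G C S α) ⊆
      ((univ.biUnion fun t : κ → ZMod 3 => Zr J f S t).filter fun x => RlK J f S x).biUnion
        fun x => univ.filter fun α => ∀ i ∈ J \ C, ∀ k ∈ S, ro (f k) (mx J G α) i (x k) = 0 := by
    intro α hα
    rw [mem_filter] at hα
    obtain ⟨-, x, g1, g2, g3, ⟨t, g4⟩, g5⟩ := hα
    rw [mem_biUnion]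
    refine ⟨x, ?_, mem_filter.2 ⟨mem_univ _, fun i hi k hk => ?_⟩⟩
    · rw [mem_filter, mem_biUnion]
      refine ⟨⟨t, mem_univ _, ?_⟩, g5⟩
      unfold Zr
      rw [mem_filter]
      exact ⟨mem_univ _, g2, fun k hk i hi => (mem_Sy.1 (g1 k hk)).1 i hi, g4⟩
    · rw [mem_sdiff] at hi
      exact (mem_Sy.1 (g1 k hk)).2.2 i (fun h' => h.ksJ k (h' ▸ hi.1)) hi.2
  have h3 : (univ.filter fun α : I → I → ZMod 3 => BsK J f ks G C S α).card * 3 ^ q ≤
      3 ^ Fintype.card κ * 3 ^ z * N := by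
    refine (Nat.mul_le_mul_right _ ((card_le_card hsub).trans card_biUnion_le)).trans ?_
    rw [sum_mul]
    have h4 : ∀ x ∈ (univ.biUnion fun t : κ → ZMod 3 => Zr J f S t).filter (fun x => RlK J f S x),
        (univ.filter fun α : I → I → ZMod 3 => ∀ i ∈ J \ C, ∀ k ∈ S,
          ro (f k) (mx J G α) i (x k) = 0).card * 3 ^ q ≤ N := by
      intro x hx
      rw [hN, hq']
      exact card_rowsQ h₁ (mem_filter.1 hx).2
    refine (sum_le_sum h4).trans ?_
    rw [sum_const, smul_eq_mul]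
    refine Nat.mul_le_mul_right _ ((card_filter_le _ _).trans (card_biUnion_le.trans ?_))
    refine (sum_le_sum fun t _ => zr_le (C := C) (sel := sel) t).trans ?_
    rw [sum_const, card_univ, Fintype.card_fun, ZMod.card, smul_eq_mul, ← hz]
  rw [← hr, ← hN]
  have h4 : ((univ.filter fun α : I → I → ZMod 3 => BsK J f ks G C S α).card * 3 ^ r) * 3 ^ q ≤
      (N * 3 ^ (Fintype.card κ + S.card * (J \ C)ᶜ.card)) * 3 ^ q := by
    calc ((univ.filter fun α : I → I → ZMod 3 => BsK J f ks G C S α).card * 3 ^ r) * 3 ^ q =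
        ((univ.filter fun α : I → I → ZMod 3 => BsK J f ks G C S α).card * 3 ^ q) * 3 ^ r := by
          ring
      _ ≤ (3 ^ Fintype.card κ * 3 ^ z * N) * 3 ^ r := Nat.mul_le_mul_right _ h3
      _ = N * 3 ^ Fintype.card κ * 3 ^ (z + r) := by rw [pow_add]; ring
      _ ≤ N * 3 ^ Fintype.card κ * 3 ^ (q + S.card * (J \ C)ᶜ.card) :=
          Nat.mul_le_mul_left _ (Nat.pow_le_pow_right (by norm_num) hq)
      _ = _ := by rw [pow_add, pow_add]; ring
  exact Nat.le_of_mul_le_mul_right h4 (by positivity)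

end zt

end Q283.NK
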