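import Pool.Agent.Q283.NK.A3
import Pool.Agent.Q283.NJ.A4

/-! Systems with different exponents: the tables that are not generic are few -/

set_option autoImplicit false
set_option linter.unusedSectionVars false

open scoped Classical

namespace Q283.NK

open Finset Module
open Q283.ND (ro ro_congr ro_f ro_zero ro_smul Sy mem_Sy Sy_congr mx sp mem_sp fib nc fcc ncI ro_mx
  const_zero sc_eq off mem_off rs sum_rs co one one_ge one_le cb cb_ge cb_le le_Sy)
open Q283.NJ (fx gd Js Bs Rl bad_few fewD oneJ coJ oneJ_ge oneJ_le sum_oneJ)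

theorem sq_one {s : ZMod 3} (h : s ≠ 0) : s * s = 1 := by
  revert h
  revert s
  decide

section fk
variable {I κ : Type} [Fintype I] [Fintype κ] {J : Finset I}
  {f : κ → I → ZMod 3} {ks : κ → I} {G : I → I → ZMod 3} {C : Finset I}

theorem Sy_smul {s : ZMod 3} (hs : s ≠ 0) (g : I → ZMod 3) (k : I) (C : Finset I)
    (L : I → I → ZMod 3) : Sy (fun i => s * g i) k C L = Sy g k C L := by
  ext x
  rw [mem_Sy, mem_Sy]
  have h1 : ∀ i, ro (fun i => s * g i) L i x = ro g L i x := by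
    intro i
    unfold ro
    refine sum_congr rfl fun j _ => ?_
    have := sq_one hs
    linear_combination (g i * g j * L i j * (x j - x i)) * this
  simp only [h1, mul_eq_zero, hs, false_or]

/-- the number of the solutions off the support -/
theorem card_UK (h : Ks J f ks) {k : κ}
    (hcol : ∀ v : I → ZMod 3, (∀ i ∈ J, v i = 0) → (∀ k, v (ks k) = 0) → v ≠ 0 →
      ∃ j ∈ sp J (f k), ∑ u, v u * G u j ≠ 0) :
    (univ.filter fun y => y ∈ Sy (f k) (ks k) (sp J (f k)) (mx J G 0)).card =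
      3 ^ (sp J (f k)).card := by
  rw [sc_eq]
  congr 1
  refine Q283.ND.eq_Sy (fun h' => h.ksJ k (mem_sp.1 h').1) (fun i hi => (mem_sp.1 hi).2)
    fun v h1 h2 => ?_
  have hvJ : ∀ i ∈ J, v i = 0 := by
    intro i hi
    by_cases hfi : f k i = 0
    · exact h1 i (Or.inr (Or.inr hfi))
    · exact h1 i (Or.inl (mem_sp.2 ⟨hi, hfi⟩))
  obtain ⟨j, hj, h3⟩ := hcol v hvJ (fun m => by
    by_cases hm : ks m = ks k
    · exact h1 _ (Or.inr (Or.inl hm))
    · exact h1 _ (Or.inr (Or.inr (h.ksl k m hm)))) h2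
  refine ⟨j, hj, fun h' => h3 ?_⟩
  rw [← h']
  refine sum_congr rfl fun u _ => ?_
  by_cases hu : u ∈ J
  · rw [hvJ u hu, zero_mul, zero_mul]
  · unfold mx
    rw [if_neg (by tauto)]

/-- the tables that are not generic -/
def BdK (J : Finset I) (f : κ → I → ZMod 3) (ks : κ → I) (G : I → I → ZMod 3)
    (C : Finset I) (α : I → I → ZMod 3) : Prop :=
  ¬ ((∀ k, finrank (ZMod 3) (Sy (f k) (ks k) C (mx J G α)) = (Cf C (f k)).card) ∧
    JK J f ks G C α)

/-- the genericity of the exponents -/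
structure GenK (J : Finset I) (f : κ → I → ZMod 3) (ks : κ → I) (G : I → I → ZMod 3)
    (C : Finset I) (L : ℕ) : Prop where
  hW : ∀ w : I → ZMod 3, (∀ i ∈ J, w i = 0) → w ≠ 0 → ∀ k,
    Jᶜ.card + 1 + C.card * Fintype.card κ + L ≤
      ((sp J (f k) \ C).filter fun i => ∑ u, w u * G i u ≠ 0).card
  hV : ∀ v : I → ZMod 3, (∀ i ∈ J, v i = 0) → (∀ k, v (ks k) = 0) → v ≠ 0 → ∀ k,
    Jᶜ.card + 1 + C.card * Fintype.card κ + L + 1 ≤
      ((sp J (f k)).filter fun j => ∑ u, v u * G u j ≠ 0).card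
  H1 : ∀ k k', (∃ s : ZMod 3, s ≠ 0 ∧ ∀ j ∈ J, f k' j = s * f k j) ∨
    Fintype.card κ + Fintype.card κ * (J \ C)ᶜ.card + L ≤
      ((J \ C).filter fun i => f k i = 0 ∧ f k' i ≠ 0).card
  G2 : ∀ (k : κ) (t : κ → ZMod 3), (∀ j ∈ J, f k j = 0 → ∑ l, t l * f l j = 0) →
    ∃ c : ZMod 3, ∀ j ∈ J, ∑ l, t l * f l j = c * f k j
  H4 : ∀ k k', k ≠ k' → ∀ s : ZMod 3, s ≠ 0 → (∀ j ∈ J, f k' j = s * f k j) →
    ∃ u, u ∉ J ∧ f k' u ≠ s * f k u
  hA : ∀ k, (sp J (f k)).Nonempty

theorem bs_single (h : Ks J f ks) {L : ℕ} (hg : GenK J f ks G C L)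
    {k : κ} {α : I → I → ZMod 3} : ¬ BsK J f ks G C {k} α := by
  rintro ⟨x, h1, h2, h3, ⟨t, h4⟩, -⟩
  have hk := mem_singleton_self k
  have hrel : ∀ j ∈ J, f k j * x k j = ∑ l, t l * f l j := by
    intro j hj
    rw [← h4 j hj]
    symm
    refine sum_eq_single k (fun m _ hm => ?_) fun h' => absurd (mem_univ _) h'
    rw [h2 m (by rw [mem_singleton]; exact hm), Pi.zero_apply, mul_zero]
  obtain ⟨c, hc⟩ := hg.G2 k t (fun j hj hf => by rw [← hrel j hj, hf, zero_mul])
  have hx := mem_Sy.1 (h1 k hk)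
  refine h3 k hk (const_zero (C := C) (G := G) (α := α) (t := c) (h.ksJ k) (h.fks k) (fun w g1 g2 => ?_) hx.1 hx.2.1
    (fun i hi => ?_) fun j hj => ?_)
  · have g3 := hg.hW w g1 g2 k
    obtain ⟨i, hi⟩ := card_pos.1 (show 0 < ((sp J (f k) \ C).filter fun i =>
      ∑ u, w u * G i u ≠ 0).card by omega)
    rw [mem_filter] at hi
    exact ⟨i, hi.1, hi.2⟩
  · rw [mem_sdiff] at hi
    exact hx.2.2 i (fun h' => h.ksJ k (h' ▸ (mem_sp.1 hi.1).1)) hi.2
  · rw [mem_sp] at hj
    have h5 := hrel j hj.1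
    rw [hc j hj.1, mul_comm c] at h5
    exact mul_left_cancel₀ hj.2 h5

/-- the sets with proportional exponents -/
theorem bs_prop (h : Ks J f ks) (hC : C ⊆ J) {L : ℕ} (hg : GenK J f ks G C L)
    {S : Finset κ} {l l' : κ} (hll : l ≠ l') (hl : l ∈ S) (hl' : l' ∈ S)
    (hp : ∀ k ∈ S, ∃ s : ZMod 3, s ≠ 0 ∧ ∀ j ∈ J, f k j = s * f l j) :
    (univ.filter fun α : I → I → ZMod 3 => BsK J f ks G C S α).card * 3 ^ L ≤
      Fintype.card (I → I → ZMod 3) := by
  have hσe : ∀ k, ∃ s : ZMod 3, (k ∈ S → s ≠ 0 ∧ ∀ j ∈ J, f k j = s * f l j) ∧ (k = l → s = 1) := by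
    intro k
    by_cases hkl : k = l
    · exact ⟨1, fun _ => ⟨one_ne_zero, fun j _ => by rw [hkl, one_mul]⟩, fun _ => rfl⟩
    by_cases hk : k ∈ S
    · obtain ⟨s, hs⟩ := hp k hk
      exact ⟨s, fun _ => hs, fun h' => absurd h' hkl⟩
    · exact ⟨0, fun h' => absurd h' hk, fun h' => absurd h' hkl⟩
  choose σ hσ hσl using hσe
  have hσ1 : σ l = 1 := hσl l rfl
  obtain ⟨f', hf'⟩ : ∃ f' : κ → I → ZMod 3, f' = fun k => if k ∈ S then (fun i => σ k * f k i) else
    fun i => if i ∈ J then f l i else if i = ks k then 1 else 0 := ⟨_, rfl⟩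
  have hfS : ∀ k ∈ S, f' k = fun i => σ k * f k i := fun k hk => by rw [hf']; exact if_pos hk
  have hfN : ∀ k, k ∉ S → f' k = fun i => if i ∈ J then f l i else if i = ks k then 1 else 0 :=
    fun k hk => by rw [hf']; exact if_neg hk
  have hJs : Js J (f l) f' ks := by
    refine ⟨h.ksJ, fun k => ?_, fun k j hj => ?_, fun k m hm => ?_⟩
    · by_cases hk : k ∈ S
      · rw [hfS k hk]
        exact mul_ne_zero (hσ k hk).1 (h.fks k)
      · rw [hfN k hk]
        beta_reduce
        rw [if_neg (h.ksJ k), if_pos rfl]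
        exact one_ne_zero
    · by_cases hk : k ∈ S
      · rw [hfS k hk]
        beta_reduce
        rw [(hσ k hk).2 j hj, ← mul_assoc, sq_one (hσ k hk).1, one_mul]
      · rw [hfN k hk]
        exact if_pos hj
    · by_cases hk : k ∈ S
      · rw [hfS k hk]
        beta_reduce
        rw [h.ksl k m hm, mul_zero]
      · rw [hfN k hk]
        beta_reduce
        rw [if_neg (h.ksJ m), if_neg hm]
  have hCf : ∀ k ∈ S, Cf C (f k) = Cf C (f l) := by
    intro k hk
    ext i
    rw [mem_Cf, mem_Cf]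
    refine and_congr_right fun hi => ?_
    rw [(hσ k hk).2 i (hC hi)]
    exact not_congr (mul_eq_zero_iff_left (hσ k hk).1)
  -- the degenerate tables
  have hsub : ∀ α, BsK J f ks G C S α → Bs J (f l) f' ks G (Cf C (f l)) S α := by
    rintro α ⟨x, h1, h2, -, ⟨t, h4⟩, h5⟩
    have hsum : ∀ (a : κ → ZMod 3), ∀ j ∈ J, ∑ k ∈ S, a k * (f k j * x k j) =
        f l j * ∑ k ∈ S, a k * (σ k • x k) j := by
      intro a j hj
      rw [mul_sum]
      refine sum_congr rfl fun k hk => ?_
      rw [(hσ k hk).2 j hj, Pi.smul_apply, smul_eq_mul]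
      ring
    have hrel : ∀ j ∈ J, f l j * ∑ k, (σ k • x k) j = ∑ k, t k * f k j := by
      intro j hj
      have e1 := hsum (fun _ => 1) j hj
      simp only [one_mul] at e1
      have e2 : ∑ k, (σ k • x k) j = ∑ k ∈ S, (σ k • x k) j := by
        symm
        refine sum_subset (subset_univ S) fun k _ hk => ?_
        rw [h2 k hk, smul_zero, Pi.zero_apply]
      have e3 : ∑ k, f k j * x k j = ∑ k ∈ S, f k j * x k j := by
        symm
        refine sum_subset (subset_univ S) fun k _ hk => ?_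
        rw [h2 k hk, Pi.zero_apply, mul_zero]
      rw [e2, ← e1, ← e3]
      exact h4 j hj
    obtain ⟨c, hc⟩ := hg.G2 l t fun j hj hf => by rw [← hrel j hj, hf, zero_mul]
    refine ⟨fun k => σ k • x k, fun k hk => ?_, fun k hk => ?_, ⟨c, fun j hj => ?_⟩, ?_⟩
    · rw [hfS k hk, Sy_smul (hσ k hk).1]
      refine Submodule.smul_mem _ _ ?_
      have h6 := h1 k hk
      rw [Sy_Cf, hCf k hk] at h6
      exact h6
    · beta_reduce
      rw [h2 k hk, smul_zero]
    · rw [mem_sp] at hj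
      have h6 := hrel j hj.1
      rw [hc j hj.1, mul_comm c] at h6
      exact mul_left_cancel₀ hj.2 h6
    · intro a ht
      obtain ⟨t', ht'⟩ := ht
      refine h5 a ⟨fun k => if k = l then t' else 0, fun j hj => ?_⟩
      rw [hsum a j hj]
      have e1 : ∑ k, (if k = l then t' else 0) * f k j = t' * f l j := by
        rw [sum_eq_single l]
        · rw [if_pos rfl]
        · intro m _ hm
          rw [if_neg hm, zero_mul]
        · intro h'
          exact absurd (mem_univ _) h'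
      rw [e1]
      by_cases hf : f l j = 0
      · rw [hf, zero_mul, mul_zero]
      · rw [ht' j (mem_sp.2 ⟨hj, hf⟩), mul_comm]
  -- the differences of the exponents
  obtain ⟨w, hwd⟩ : ∃ w : I → ZMod 3, w = fun u => if u ∈ J then 0 else f' l u - f' l' u :=
    ⟨_, rfl⟩
  have hw0 : w ≠ 0 := by
    intro h0
    obtain ⟨u, hu, hne'⟩ := hg.H4 l l' hll (σ l') (hσ l' hl').1 (hσ l' hl').2
    have := congrFun h0 u
    rw [hwd] at this
    beta_reduce at this
    rw [if_neg hu, Pi.zero_apply, hfS l hl, hfS l' hl'] at this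
    beta_reduce at this
    rw [hσ1, one_mul, sub_eq_zero] at this
    apply hne'
    rw [this, ← mul_assoc, sq_one (hσ l' hl').1, one_mul]
  have h3 := hg.hW w (fun i hi => by rw [hwd]; exact if_pos hi) hw0 l
  obtain ⟨B, hB1, hB2⟩ := exists_subset_card_eq h3
  have hdif : ∀ i ∈ B, gd J (f' l) G i ≠ gd J (f' l') G i := by
    intro i hi h0
    have h4 := (mem_filter.1 (hB1 hi)).2
    apply h4
    rw [← sub_eq_zero.2 h0, hwd]
    unfold gd
    rw [← sum_sub_distrib]
    refine sum_congr rfl fun u _ => ?_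
    beta_reduce
    by_cases hu : u ∈ J
    · rw [if_pos hu, if_pos hu, if_pos hu]; ring
    · rw [if_neg hu, if_neg hu, if_neg hu]; ring
  have hcol0 : ∀ v : I → ZMod 3, (∀ i ∈ J, v i = 0) →
      (∀ k, v (ks k) = 0) → v ≠ 0 → ∃ j ∈ sp J (f l) \ B, ∑ u, v u * G u j ≠ 0 := by
    intro v h1 h2 h3
    have h4 := hg.hV v h1 h2 h3 l
    by_contra hc
    push Not at hc
    have h5 : (sp J (f l)).filter (fun j => ∑ u, v u * G u j ≠ 0) ⊆ B := by
      intro j hj
      rw [mem_filter] at hj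
      by_contra hjB
      exact hj.2 (hc j (mem_sdiff.2 ⟨hj.1, hjB⟩))
    have h6 := card_le_card h5
    omega
  have hBsub : B ⊆ sp J (f l) \ Cf C (f l) := by
    intro i hi
    have := (mem_filter.1 (hB1 hi)).1
    rw [mem_sdiff] at this ⊢
    exact ⟨this.1, fun h' => this.2 (mem_Cf.1 h').1⟩
  have h4 := bad_few hJs hll hl hl' (Cf_sub hC) hBsub hcol0 hdif (hg.hA l)
  rw [hB2] at h4
  have h5 : (univ.filter fun α : I → I → ZMod 3 => BsK J f ks G C S α).card ≤
      (univ.filter fun α : I → I → ZMod 3 => Bs J (f l) f' ks G (Cf C (f l)) S α).card := by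
    refine card_le_card fun α hα => ?_
    rw [mem_filter] at hα ⊢
    exact ⟨hα.1, hsub α hα.2⟩
  have hCc : (Cf C (f l)).card * (S.card - 1) ≤ C.card * Fintype.card κ :=
    Nat.mul_le_mul (card_filter_le _ _) ((Nat.sub_le _ _).trans (card_le_univ S))
  have h6 : ((univ.filter fun α : I → I → ZMod 3 => BsK J f ks G C S α).card * 3 ^ L) *
      3 ^ (Jᶜ.card + 1 + C.card * Fintype.card κ) ≤
      Fintype.card (I → I → ZMod 3) * 3 ^ (Jᶜ.card + 1 + C.card * Fintype.card κ) := by
    calc ((univ.filter fun α : I → I → ZMod 3 => BsK J f ks G C S α).card * 3 ^ L) *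
        3 ^ (Jᶜ.card + 1 + C.card * Fintype.card κ) =
        (univ.filter fun α : I → I → ZMod 3 => BsK J f ks G C S α).card *
          3 ^ (Jᶜ.card + 1 + C.card * Fintype.card κ + L) := by
          rw [pow_add 3 (Jᶜ.card + 1 + C.card * Fintype.card κ) L]
          ring
      _ ≤ _ := Nat.mul_le_mul_right _ h5
      _ ≤ _ := h4
      _ ≤ _ := by
          refine Nat.mul_le_mul_left _ ?_
          rw [← pow_add]
          exact Nat.pow_le_pow_right (by norm_num) (by omega)
  exact Nat.le_of_mul_le_mul_right h6 (by positivity)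

/-- **The tables that are not generic are few.** -/
theorem few_K (h : Ks J f ks) (hC : C ⊆ J) {L s : ℕ} (hg : GenK J f ks G C L)
    (hs : ∀ k, s ≤ (Cf C (f k)).card) :
    ∑ α : I → I → ZMod 3, (if BdK J f ks G C α then (1 : ℝ) else 0) ≤
      Fintype.card (I → I → ZMod 3) * (Fintype.card κ * (1 / 3) ^ s +
        2 ^ Fintype.card κ * (1 / 3) ^ L) := by
  obtain ⟨N, hN⟩ : ∃ N : ℝ, N = Fintype.card (I → I → ZMod 3) := ⟨_, rfl⟩
  have hN0 : 0 ≤ N := by rw [hN]; positivity
  have hw : ∀ w : I → ZMod 3, (∀ i ∈ J, w i = 0) → w ≠ 0 → ∀ k,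
      ∃ i ∈ sp J (f k) \ Cf C (f k), ∑ u, w u * G i u ≠ 0 := by
    intro w h1 h2 k
    have h3 := hg.hW w h1 h2 k
    obtain ⟨i, hi⟩ := card_pos.1 (show 0 < ((sp J (f k) \ C).filter fun i =>
      ∑ u, w u * G i u ≠ 0).card by omega)
    rw [mem_filter, mem_sdiff] at hi
    exact ⟨i, mem_sdiff.2 ⟨hi.1.1, fun h' => hi.1.2 (mem_Cf.1 h').1⟩, hi.2⟩
  have hU : ∀ k, (univ.filter fun y => y ∈ Sy (f k) (ks k) (sp J (f k)) (mx J G 0)).card =
      3 ^ (sp J (f k)).card := by
    intro k
    refine card_UK h fun v h1 h2 h3 => ?_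
    have h4 := hg.hV v h1 h2 h3 k
    obtain ⟨i, hi⟩ := card_pos.1 (show 0 < ((sp J (f k)).filter fun j =>
      ∑ u, v u * G u j ≠ 0).card by omega)
    rw [mem_filter] at hi
    exact ⟨i, hi.1, hi.2⟩
  obtain ⟨P1, hP1⟩ : ∃ P1 : κ → Finset (I → I → ZMod 3), P1 = fun k => univ.filter fun α =>
      finrank (ZMod 3) (Sy (f k) (ks k) (Cf C (f k)) (mx J G α)) ≠ (Cf C (f k)).card := ⟨_, rfl⟩
  obtain ⟨P2, hP2⟩ : ∃ P2 : Finset κ → Finset (I → I → ZMod 3), P2 = fun S => univ.filter fun α =>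
      BsK J f ks G C S α := ⟨_, rfl⟩
  have hsub : (univ.filter fun α : I → I → ZMod 3 => BdK J f ks G C α) ⊆
      (univ.biUnion P1) ∪ ((univ.filter fun S : Finset κ => S.Nonempty).biUnion P2) := by
    intro α hα
    rw [mem_filter] at hα
    by_contra hc
    rw [mem_union, not_or, mem_biUnion, mem_biUnion] at hc
    push Not at hc
    obtain ⟨c1, c2⟩ := hc
    apply hα.2
    refine ⟨fun k => ?_, jk_of fun S hS hB => ?_⟩
    · have := c1 k (mem_univ _)
      rw [hP1] at this
      beta_reduce at this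
      rw [mem_filter, not_and, not_not] at this
      rw [Sy_Cf]
      exact this (mem_univ _)
    · have := c2 S (mem_filter.2 ⟨mem_univ _, hS⟩)
      rw [hP2] at this
      beta_reduce at this
      rw [mem_filter, not_and] at this
      exact this (mem_univ _) hB
  have h1 : ∀ k, ((P1 k).card : ℝ) ≤ N * (1 / 3) ^ s := by
    intro k
    rw [hP1, hN]
    refine (fewD (h.ksJ k) (h.fks k) (Cf_sub hC) (fun w g1 g2 => hw w g1 g2 k) (hU k)).trans ?_
    exact mul_le_mul_of_nonneg_left (pow_le_pow_of_le_one (by norm_num) (by norm_num) (hs k))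
      (Nat.cast_nonneg _)
  have h2 : ∀ S ∈ (univ.filter fun S : Finset κ => S.Nonempty), ((P2 S).card : ℝ) ≤
      N * (1 / 3) ^ L := by
    intro S hS
    rw [mem_filter] at hS
    have h5 : (P2 S).card * 3 ^ L ≤ Fintype.card (I → I → ZMod 3) := by
      rw [hP2]
      beta_reduce
      obtain ⟨l, hl⟩ := hS.2
      by_cases hone : S.card = 1
      · obtain ⟨k, hk⟩ := card_eq_one.1 hone
        have : (univ.filter fun α : I → I → ZMod 3 => BsK J f ks G C S α) = ∅ := by
          rw [filter_eq_empty_iff]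
          intro α _ hB
          rw [hk] at hB
          exact bs_single h hg hB
        rw [this, card_empty, zero_mul]
        exact Nat.zero_le _
      have htwo : 1 < S.card := by
        have : 0 < S.card := card_pos.2 ⟨l, hl⟩
        omega
      by_cases hp : ∀ k ∈ S, ∃ s : ZMod 3, s ≠ 0 ∧ ∀ j ∈ J, f k j = s * f l j
      · obtain ⟨l', hl', hll'⟩ := exists_mem_ne htwo l
        exact bs_prop h hC hg (Ne.symm hll') hl hl' hp
      · push Not at hp
        obtain ⟨k, hk, hp⟩ := hp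
        have h6 : Fintype.card κ + Fintype.card κ * (J \ C)ᶜ.card + L ≤
            ((J \ C).filter fun i => f l i = 0 ∧ f k i ≠ 0).card := by
          rcases hg.H1 l k with ⟨s, hs0, hs1⟩ | h6
          · obtain ⟨j, hj, hj2⟩ := hp s hs0
            exact absurd (hs1 j hj) hj2
          · exact h6
        have h7 := badK_few (G := G) (C := C) h hl hk
        have h8 : Fintype.card κ + S.card * (J \ C)ᶜ.card + L ≤
            ((J \ C).filter fun i => f l i = 0 ∧ f k i ≠ 0).card := by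
          refine le_trans ?_ h6
          have := Nat.mul_le_mul_right (J \ C)ᶜ.card (card_le_univ S)
          omega
        have h9 : ((univ.filter fun α : I → I → ZMod 3 => BsK J f ks G C S α).card * 3 ^ L) *
            3 ^ (Fintype.card κ + S.card * (J \ C)ᶜ.card) ≤
            Fintype.card (I → I → ZMod 3) * 3 ^ (Fintype.card κ + S.card * (J \ C)ᶜ.card) := by
          refine le_trans ?_ h7
          rw [mul_assoc, ← pow_add]
          exact Nat.mul_le_mul_left _ (Nat.pow_le_pow_right (by norm_num) (by omega))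
        exact Nat.le_of_mul_le_mul_right h9 (by positivity)
    rw [one_div, inv_pow, ← div_eq_mul_inv, le_div_iff₀ (by positivity), hN]
    exact_mod_cast h5
  have h3 : ((univ.filter fun α : I → I → ZMod 3 => BdK J f ks G C α).card : ℝ) ≤
      ∑ k, ((P1 k).card : ℝ) + ∑ S ∈ univ.filter (fun S : Finset κ => S.Nonempty),
        ((P2 S).card : ℝ) := by
    have h4 := (card_le_card hsub).trans ((card_union_le _ _).trans
      (Nat.add_le_add card_biUnion_le card_biUnion_le))
    exact_mod_cast h4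
  rw [← sum_filter, sum_const, nsmul_eq_mul, mul_one, ← hN]
  refine h3.trans ?_
  have h4 : ∑ k, ((P1 k).card : ℝ) ≤ Fintype.card κ * (N * (1 / 3) ^ s) := by
    refine (sum_le_sum fun k _ => h1 k).trans (le_of_eq ?_)
    rw [sum_const, card_univ, nsmul_eq_mul]
  have h5 : ∑ S ∈ univ.filter (fun S : Finset κ => S.Nonempty), ((P2 S).card : ℝ) ≤
      2 ^ Fintype.card κ * (N * (1 / 3) ^ L) := by
    refine (sum_le_sum h2).trans ?_
    rw [sum_const, nsmul_eq_mul]
    refine mul_le_mul_of_nonneg_right ?_ (by positivity)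
    have h6 : (univ.filter fun S : Finset κ => S.Nonempty).card ≤ 2 ^ Fintype.card κ := by
      refine (card_le_univ _).trans (le_of_eq ?_)
      rw [Fintype.card_finset]
    exact_mod_cast h6
  linarith

/-- **The mean over the tables.** -/
theorem meanK (h : Ks J f ks) (hC : C ⊆ J) {L s : ℕ} (hg : GenK J f ks G C L)
    (hs : ∀ k, s ≤ (Cf C (f k)).card) (b : κ → ℕ) {q : ℝ} (hq0 : 0 ≤ q) (hq1 : q ≤ 1) :
    |∑ α : I → I → ZMod 3, (oneJ b (coJ f ks (mx J G α)) - q)| ≤
      Fintype.card (I → I → ZMod 3) * (|∏ k, cb (Cf C (f k)).card (b k) - q| +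
        (Fintype.card κ * (1 / 3) ^ s + 2 ^ Fintype.card κ * (1 / 3) ^ L)) := by
  obtain ⟨N, hN⟩ : ∃ N : ℝ, N = Fintype.card (I → I → ZMod 3) := ⟨_, rfl⟩
  have hN0 : 0 < N := by
    rw [hN]
    exact_mod_cast Fintype.card_pos
  have h1 : ∀ α : I → I → ZMod 3,
      |∑ β : I → I → ZMod 3, (oneJ b (coJ f ks (mx J G (rs C α β))) - q)| ≤
      N * |∏ k, cb (Cf C (f k)).card (b k) - q| +
      N * (if BdK J f ks G C α then 1 else 0) := by
    intro α
    by_cases hb : BdK J f ks G C α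
    · rw [if_pos hb, mul_one]
      refine le_trans ?_ (le_add_of_nonneg_left (mul_nonneg hN0.le (abs_nonneg _)))
      refine (abs_sum_le_sum_abs _ _).trans ?_
      have h1 : ∀ β ∈ (univ : Finset (I → I → ZMod 3)),
          |oneJ b (coJ f ks (mx J G (rs C α β))) - q| ≤ 1 := by
        intro β _
        have h2 := oneJ_ge b (coJ f ks (mx J G (rs C α β)))
        have h3 := oneJ_le b (coJ f ks (mx J G (rs C α β)))
        rw [abs_le]
        constructor <;> linarith
      refine (sum_le_sum h1).trans (le_of_eq ?_)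
      rw [sum_const, card_univ, nsmul_eq_mul, mul_one, hN]
    · rw [if_neg hb, mul_zero, add_zero]
      unfold BdK at hb
      rw [not_not] at hb
      have h1 := condK h hC hb.1 hb.2 b
      have h2 : ∑ β : I → I → ZMod 3, oneJ b (coJ f ks (mx J G (rs C α β))) =
          N * ∏ k, cb (Cf C (f k)).card (b k) := by
        rw [sum_oneJ, hN, ← h1]
        exact congrArg Nat.cast fcc
      rw [sum_sub_distrib, h2, sum_const, card_univ, nsmul_eq_mul, ← hN, ← mul_sub, abs_mul,
        abs_of_nonneg hN0.le]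
  have h2 := sum_rs C (fun γ : I → I → ZMod 3 => oneJ b (coJ f ks (mx J G γ)) - q)
  have h3 : N * |∑ α : I → I → ZMod 3, (oneJ b (coJ f ks (mx J G α)) - q)| ≤
      N * (N * (|∏ k, cb (Cf C (f k)).card (b k) - q| +
        (Fintype.card κ * (1 / 3) ^ s + 2 ^ Fintype.card κ * (1 / 3) ^ L))) := by
    rw [← abs_of_nonneg hN0.le, ← abs_mul, abs_of_nonneg hN0.le, hN, ← h2]
    refine (abs_sum_le_sum_abs _ _).trans ((sum_le_sum fun α _ => h1 α).trans ?_)
    rw [sum_add_distrib, sum_const, card_univ, nsmul_eq_mul, ← mul_sum, ← hN, ← mul_add]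
    refine mul_le_mul_of_nonneg_left ?_ hN0.le
    rw [mul_add]
    refine add_le_add le_rfl ?_
    have h4 := few_K h hC hg hs
    rw [← hN] at h4
    exact h4
  rw [← hN]
  exact le_of_mul_le_mul_left h3 hN0

end fk

end Q283.NK
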