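import Pool.Agent.Q283.NK.A4
import Pool.Agent.Q283.NJ.B1
import Pool.Agent.Q283.ND.Bt

/-! Tuples of exponents: the degenerate tuples are few -/

set_option autoImplicit false
set_option linter.unusedSectionVars false

open scoped Classical

namespace Q283.NK

open Finset Module
open Q283.ND (u3 off mem_off card_off fcc sum_tr)

section vs
variable {ν : Type} [Fintype ν]

/-- a linear form -/
def dt (a : ν → ZMod 3) : (ν → ZMod 3) →+ ZMod 3 where
  toFun := fun v => ∑ n, a n * v n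
  map_zero' := sum_eq_zero fun n _ => by rw [Pi.zero_apply, mul_zero]
  map_add' := fun x y => by
    rw [← sum_add_distrib]
    exact sum_congr rfl fun n _ => by rw [Pi.add_apply, mul_add]

theorem dt_apply (a v : ν → ZMod 3) : dt a v = ∑ n, a n * v n := rfl

theorem dt_surj {a : ν → ZMod 3} (ha : a ≠ 0) : Function.Surjective (dt a) := by
  obtain ⟨n, hn⟩ := Function.ne_iff.1 ha
  intro x
  refine ⟨Pi.single n ((a n)⁻¹ * x), ?_⟩
  rw [dt_apply, sum_eq_single n]
  · rw [Pi.single_eq_same, ← mul_assoc, mul_inv_cancel₀ hn, one_mul]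
  · intro m _ hm
    rw [Pi.single_eq_of_ne hm, mul_zero]
  · intro h
    exact absurd (mem_univ _) h

/-- two linear forms -/
def dt2 (a a' : ν → ZMod 3) : (ν → ZMod 3) →+ ZMod 3 × ZMod 3 := (dt a).prod (dt a')

theorem dt2_surj {a a' : ν → ZMod 3} (ha : a ≠ 0) (h : ∀ s : ZMod 3, a' ≠ s • a) :
    Function.Surjective (dt2 a a') := by
  rintro ⟨x, y⟩
  obtain ⟨c, hc⟩ := row_surj (I := ν) (κ := Bool) (K := univ) (v := fun b => if b then a' else a)
    (fun t _ ht => by
      have h1 : ∀ j, t false * a j + t true * a' j = 0 := by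
        intro j
        have := ht j
        rw [Fintype.sum_bool] at this
        simp only [if_true, Bool.false_eq_true, if_false] at this
        rw [add_comm]
        exact this
      have ht1 : t true = 0 := by
        by_contra hne
        apply h (- (t true)⁻¹ * t false)
        funext j
        rw [Pi.smul_apply, smul_eq_mul]
        have h2 := h1 j
        have h3 : a' j = (t true)⁻¹ * (t true * a' j) := by
          rw [← mul_assoc, inv_mul_cancel₀ hne, one_mul]
        rw [h3]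
        linear_combination (t true)⁻¹ * h2
      have ht0 : t false = 0 := by
        obtain ⟨n, hn⟩ := Function.ne_iff.1 ha
        have h2 := h1 n
        rw [ht1, zero_mul, add_zero] at h2
        exact (mul_eq_zero.1 h2).resolve_right hn
      funext b
      cases b
      · exact ht0
      · exact ht1) (fun b => if b then y else x)
  refine ⟨c, ?_⟩
  have h1 := hc false (mem_univ _)
  have h2 := hc true (mem_univ _)
  simp only [if_true, Bool.false_eq_true, if_false] at h1 h2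
  refine Prod.ext ?_ ?_
  · show dt a c = x
    rw [dt_apply, ← h1]
    exact sum_congr rfl fun j _ => mul_comm _ _
  · show dt a' c = y
    rw [dt_apply, ← h2]
    exact sum_congr rfl fun j _ => mul_comm _ _

theorem sum_dt {a : ν → ZMod 3} (ha : a ≠ 0) (ψ : ZMod 3 → ℝ) :
    ∑ v, ψ (dt a v) = (∑ x, ψ x) / 3 * Fintype.card (ν → ZMod 3) := by
  have h := sum_tr (dt a) (dt_surj ha) univ univ (fun e => by simp) ψ
  rw [ZMod.card] at h
  push_cast at h
  linarith

theorem sum_dt2 {a a' : ν → ZMod 3} (ha : a ≠ 0) (h' : ∀ s : ZMod 3, a' ≠ s • a)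
    (ψ : ZMod 3 → ZMod 3 → ℝ) : ∑ v, ψ (dt a v) (dt a' v) =
      (∑ x, ∑ y, ψ x y) / 9 * Fintype.card (ν → ZMod 3) := by
  have h := sum_tr (dt2 a a') (dt2_surj ha h') univ univ (fun e => by simp) (fun p => ψ p.1 p.2)
  rw [Fintype.card_prod, ZMod.card, Fintype.sum_prod_type] at h
  push_cast at h
  have e1 : ∑ v, ψ (dt a v) (dt a' v) = ∑ e, ψ (dt2 a a' e).1 (dt2 a a' e).2 := rfl
  rw [e1]
  linarith

/-- the linear forms that vanish with a given one -/
theorem dt_prop {a w : ν → ZMod 3} (ha : a ≠ 0) (h : ∀ v, dt a v = 0 → dt w v = 0) :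
    ∃ c : ZMod 3, ∀ v, dt w v = c * dt a v := by
  obtain ⟨v₀, hv₀⟩ := dt_surj ha 1
  refine ⟨dt w v₀, fun v => ?_⟩
  have hs : ∀ (b : ν → ZMod 3) (r : ZMod 3) (u : ν → ZMod 3), dt b (r • u) = r * dt b u := by
    intro b r u
    rw [dt_apply, dt_apply, mul_sum]
    exact sum_congr rfl fun n _ => by rw [Pi.smul_apply, smul_eq_mul]; ring
  have h1 := h (v - dt a v • v₀) (by rw [map_sub, hs, hv₀, mul_one, sub_self])
  rw [map_sub, hs, sub_eq_zero] at h1
  rw [h1, mul_comm]

end vs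

section cn
variable {I V : Type} [Fintype I] [Fintype V]

/-- sums of products over all functions -/
theorem sum_prodV [Nonempty V] (K : Finset I) (ψ : V → ℝ) :
    ∑ e : I → V, ∏ i ∈ K, ψ (e i) =
      (Fintype.card (I → V) : ℝ) * ((∑ x, ψ x) / Fintype.card V) ^ K.card := by
  have hV : (0 : ℝ) < Fintype.card V := by exact_mod_cast Fintype.card_pos
  have h3 : ∀ e' : I → V, (∏ i ∈ K, ψ (e' i)) = ∏ i, (if i ∈ K then ψ (e' i) else 1) := by
    intro e'
    rw [Finset.prod_ite_mem, Finset.univ_inter]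
  have h2 : ∑ e : I → V, ∏ i, (if i ∈ K then ψ (e i) else 1) =
      ∏ i, ∑ y, (if i ∈ K then ψ y else 1) := by
    rw [Finset.prod_univ_sum, Fintype.piFinset_univ]
  rw [sum_congr rfl fun e' _ => h3 e', h2]
  have h4 : ∀ i, (∑ x, if i ∈ K then ψ x else (1 : ℝ)) =
      Fintype.card V * if i ∈ K then (∑ x, ψ x) / Fintype.card V else 1 := by
    intro i
    split_ifs
    · field_simp
    · rw [sum_const, card_univ, nsmul_eq_mul]
  rw [prod_congr rfl fun i _ => h4 i, prod_mul_distrib, prod_const, card_univ,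
    Finset.prod_ite_mem, Finset.univ_inter, prod_const, Fintype.card_fun]
  push_cast
  rfl

/-- the functions with few indices with a property are few -/
theorem cnt_few [Nonempty V] (Q : V → Prop) [DecidablePred Q] {β ρ : ℝ} (hβ0 : 0 < β) (hβ1 : β ≤ 1)
    (hρ : ∑ v, (if Q v then β else 1) ≤ ρ * Fintype.card V) (K : Finset I) (n : ℕ) :
    ((univ.filter fun e : I → V => (K.filter fun i => Q (e i)).card < n).card : ℝ) * β ^ n ≤
      Fintype.card (I → V) * ρ ^ K.card := by
  have hV : (0 : ℝ) < Fintype.card V := by exact_mod_cast Fintype.card_pos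
  have h1 := sum_prodV K (fun v => if Q v then β else 1)
  have h0 : ∀ v, 0 ≤ (if Q v then β else (1 : ℝ)) := fun v => by
    split_ifs
    · exact hβ0.le
    · norm_num
  have h2 : ∀ e : I → V, (∏ i ∈ K, if Q (e i) then β else (1 : ℝ)) =
      β ^ (K.filter fun i => Q (e i)).card := by
    intro e
    rw [prod_ite, prod_const, prod_const_one, mul_one]
  have h3 : ((univ.filter fun e : I → V => (K.filter fun i => Q (e i)).card < n).card : ℝ) * β ^ n ≤
      ∑ e : I → V, ∏ i ∈ K, (if Q (e i) then β else (1 : ℝ)) := by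
    rw [← nsmul_eq_mul, ← sum_const]
    refine le_trans (sum_le_sum fun e he => ?_) (sum_le_sum_of_subset_of_nonneg (filter_subset _ _)
      fun e _ _ => prod_nonneg fun i _ => h0 _)
    rw [h2]
    exact pow_le_pow_of_le_one hβ0.le hβ1 (mem_filter.1 he).2.le
  refine h3.trans ?_
  rw [h1]
  refine mul_le_mul_of_nonneg_left ?_ (Nat.cast_nonneg _)
  refine pow_le_pow_left₀ (div_nonneg (sum_nonneg fun v _ => h0 v) hV.le) ?_ _
  rw [div_le_iff₀ hV]
  exact hρ

end cn

section bd
variable {I ν : Type} [Fintype I] [Fintype ν] {J : Finset I}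

/-- the value of a form at a tuple of exponents -/
def lin (a : ν → ZMod 3) (e : I → ν → ZMod 3) : I → ZMod 3 := fun i => dt a (e i)

/-- the number of the tuples -/
noncomputable def NV (I ν : Type) [Fintype I] [Fintype ν] : ℝ := (Fintype.card (I → ν → ZMod 3) : ℝ)

theorem NV_pos : 0 < NV I ν := by
  unfold NV
  exact_mod_cast Fintype.card_pos

/-- one form has few nonzero values on some set -/
theorem form_few {a : ν → ZMod 3} (ha : a ≠ 0) (Ok : (I → ZMod 3) → Prop)
    (T : (I → ZMod 3) → I → Prop) {K R c : ℕ} (hK : 4 ≤ K)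
    (hT : ∀ w ∈ off J, Ok w → K * Jᶜ.card + R ≤ (J.filter fun i => T w i).card)
    (B : (I → ν → ZMod 3) → Prop) (hB : ∀ e, B e → ∃ w ∈ off J, Ok w ∧
      (J.filter fun i => T w i ∧ lin a e i ≠ 0).card < Jᶜ.card + c) :
    ((univ.filter B).card : ℝ) ≤ NV I ν * (4 ^ c * (1 / 2) ^ R) := by
  obtain ⟨u, hu⟩ : ∃ u, u = Jᶜ.card := ⟨_, rfl⟩
  rw [← hu] at hT hB
  have hρ : ∑ v : ν → ZMod 3, (if dt a v ≠ 0 then (1 / 4 : ℝ) else 1) ≤
      1 / 2 * Fintype.card (ν → ZMod 3) := by
    have h := sum_dt ha (fun x => if x ≠ 0 then (1 / 4 : ℝ) else 1)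
    rw [u3, if_neg (by decide), if_pos (by decide), if_pos (by decide)] at h
    rw [h]
    norm_num
  have hw : ∀ w ∈ (off J).filter Ok, ((univ.filter fun e : I → ν → ZMod 3 =>
      ((J.filter fun i => T w i).filter fun i => dt a (e i) ≠ 0).card < u + c).card : ℝ) ≤
      NV I ν * (4 ^ (u + c) * (1 / 2) ^ (K * u + R)) := by
    intro w hw
    rw [mem_filter] at hw
    have h1 := cnt_few (I := I) (fun v : ν → ZMod 3 => dt a v ≠ 0) (β := 1 / 4) (by norm_num)
      (by norm_num) hρ (J.filter fun i => T w i) (u + c)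
    have h2 : (1 / 2 : ℝ) ^ (J.filter fun i => T w i).card ≤ (1 / 2) ^ (K * u + R) :=
      pow_le_pow_of_le_one (by norm_num) (by norm_num) (hT w hw.1 hw.2)
    have h3 := h1.trans (mul_le_mul_of_nonneg_left h2 (Nat.cast_nonneg _))
    have h4 : (4 : ℝ) ^ (u + c) * (1 / 4) ^ (u + c) = 1 := by
      rw [← mul_pow]
      norm_num
    have h5 := mul_le_mul_of_nonneg_left h3 (show (0 : ℝ) ≤ 4 ^ (u + c) by positivity)
    unfold NV
    calc _ = 4 ^ (u + c) * ((univ.filter fun e : I → ν → ZMod 3 =>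
          ((J.filter fun i => T w i).filter fun i => dt a (e i) ≠ 0).card < u + c).card *
            (1 / 4 : ℝ) ^ (u + c)) := by
            rw [mul_left_comm, h4, mul_one]
      _ ≤ _ := h5
      _ = _ := by ring
  have hsub : univ.filter B ⊆
      ((off J).filter Ok).biUnion fun w => univ.filter fun e : I → ν → ZMod 3 =>
        ((J.filter fun i => T w i).filter fun i => dt a (e i) ≠ 0).card < u + c := by
    intro e he
    rw [mem_filter] at he
    obtain ⟨w, h1, h2, h3⟩ := hB e he.2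
    rw [mem_biUnion]
    refine ⟨w, mem_filter.2 ⟨h1, h2⟩, mem_filter.2 ⟨mem_univ _, ?_⟩⟩
    rw [filter_filter]
    exact h3
  have h1 : ((univ.filter B).card : ℝ) ≤
      ∑ w ∈ (off J).filter Ok, ((univ.filter fun e : I → ν → ZMod 3 =>
        ((J.filter fun i => T w i).filter fun i => dt a (e i) ≠ 0).card < u + c).card : ℝ) := by
    exact_mod_cast (card_le_card hsub).trans card_biUnion_le
  refine h1.trans ((sum_le_sum hw).trans ?_)
  rw [sum_const, nsmul_eq_mul]
  have h4 : (((off J).filter Ok).card : ℝ) ≤ 3 ^ u := by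
    have h5 := card_filter_le (off J) Ok
    rw [card_off, ← hu] at h5
    exact_mod_cast h5
  have h5 : (3 : ℝ) ^ u * (4 ^ (u + c) * (1 / 2) ^ (K * u + R)) ≤ 4 ^ c * (1 / 2) ^ R := by
    have e1 : (3 : ℝ) ^ u * (4 ^ (u + c) * (1 / 2) ^ (K * u + R)) =
        (3 * 4 * (1 / 2) ^ K) ^ u * (4 ^ c * (1 / 2) ^ R) := by
      rw [pow_add, pow_add, pow_mul, mul_pow, mul_pow]
      ring
    rw [e1]
    refine mul_le_of_le_one_left (by positivity) (pow_le_one₀ (by positivity) ?_)
    have : (1 / 2 : ℝ) ^ K ≤ (1 / 2) ^ 4 := pow_le_pow_of_le_one (by norm_num) (by norm_num) hK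
    have h6 : (1 / 2 : ℝ) ^ 4 = 1 / 16 := by norm_num
    linarith
  have hN := NV_pos (I := I) (ν := ν)
  calc (((off J).filter Ok).card : ℝ) * (NV I ν * (4 ^ (u + c) * (1 / 2) ^ (K * u + R)))
      ≤ 3 ^ u * (NV I ν * (4 ^ (u + c) * (1 / 2) ^ (K * u + R))) :=
        mul_le_mul_of_nonneg_right h4 (by positivity)
    _ = NV I ν * (3 ^ u * (4 ^ (u + c) * (1 / 2) ^ (K * u + R))) := by ring
    _ ≤ _ := mul_le_mul_of_nonneg_left h5 hN.le

/-- two forms are seldom separated -/
theorem sep_few {a a' : ν → ZMod 3} (ha : a ≠ 0) (h' : ∀ s : ZMod 3, a' ≠ s • a) {A K R c : ℕ}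
    (hK : 6 * A ≤ K) (hJ : K * Jᶜ.card + R ≤ J.card) :
    ((univ.filter fun e : I → ν → ZMod 3 =>
      (J.filter fun i => lin a e i = 0 ∧ lin a' e i ≠ 0).card < A * Jᶜ.card + c).card : ℝ) ≤
      NV I ν * (2 ^ c * (8 / 9) ^ R) := by
  obtain ⟨u, hu⟩ : ∃ u, u = Jᶜ.card := ⟨_, rfl⟩
  rw [← hu] at hJ ⊢
  have hρ : ∑ v : ν → ZMod 3, (if dt a v = 0 ∧ dt a' v ≠ 0 then (1 / 2 : ℝ) else 1) ≤
      8 / 9 * Fintype.card (ν → ZMod 3) := by
    have h := sum_dt2 ha h' (fun x y => if x = 0 ∧ y ≠ 0 then (1 / 2 : ℝ) else 1)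
    rw [h]
    have e1 : (∑ x : ZMod 3, ∑ y : ZMod 3, if x = 0 ∧ y ≠ 0 then (1 / 2 : ℝ) else 1) = 8 := by
      rw [u3, u3, u3, u3, if_neg (by decide), if_pos (by decide), if_pos (by decide),
        if_neg (by decide), if_neg (by decide), if_neg (by decide), if_neg (by decide),
        if_neg (by decide), if_neg (by decide)]
      norm_num
    rw [e1]
  have h1 := cnt_few (I := I) (fun v : ν → ZMod 3 => dt a v = 0 ∧ dt a' v ≠ 0) (β := 1 / 2)
    (by norm_num) (by norm_num) hρ J (A * u + c)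
  have h2 : (8 / 9 : ℝ) ^ J.card ≤ (8 / 9) ^ (K * u + R) :=
    pow_le_pow_of_le_one (by norm_num) (by norm_num) hJ
  have h3 := h1.trans (mul_le_mul_of_nonneg_left h2 (Nat.cast_nonneg _))
  have h4 : (2 : ℝ) ^ (A * u + c) * (1 / 2) ^ (A * u + c) = 1 := by
    rw [← mul_pow]
    norm_num
  have h5 := mul_le_mul_of_nonneg_left h3 (show (0 : ℝ) ≤ 2 ^ (A * u + c) by positivity)
  have h6 : (2 : ℝ) ^ (A * u + c) * (8 / 9) ^ (K * u + R) ≤ 2 ^ c * (8 / 9) ^ R := by
    have e1 : (2 : ℝ) ^ (A * u + c) * (8 / 9) ^ (K * u + R) =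
        (2 ^ A * (8 / 9) ^ K) ^ u * (2 ^ c * (8 / 9) ^ R) := by
      rw [pow_add, pow_add, pow_mul, pow_mul, mul_pow]
      ring
    rw [e1]
    refine mul_le_of_le_one_left (by positivity) (pow_le_one₀ (by positivity) ?_)
    have h7 : (8 / 9 : ℝ) ^ K ≤ (8 / 9) ^ (6 * A) :=
      pow_le_pow_of_le_one (by norm_num) (by norm_num) hK
    have h8 : (2 : ℝ) ^ A * (8 / 9) ^ (6 * A) ≤ 1 := by
      rw [pow_mul, ← mul_pow]
      exact pow_le_one₀ (by positivity) (by norm_num)
    exact (mul_le_mul_of_nonneg_left h7 (by positivity)).trans h8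
  have hN := NV_pos (I := I) (ν := ν)
  have h7 : ((univ.filter fun e : I → ν → ZMod 3 =>
      (J.filter fun i => lin a e i = 0 ∧ lin a' e i ≠ 0).card < A * u + c).card : ℝ) =
      ((univ.filter fun e : I → ν → ZMod 3 =>
      (J.filter fun i => dt a (e i) = 0 ∧ dt a' (e i) ≠ 0).card < A * u + c).card : ℝ) := by
    exact congrArg Nat.cast fcc
  rw [h7]
  unfold NV at hN ⊢
  calc _ = 2 ^ (A * u + c) * ((univ.filter fun e : I → ν → ZMod 3 =>
        (J.filter fun i => dt a (e i) = 0 ∧ dt a' (e i) ≠ 0).card < A * u + c).card *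
          (1 / 2 : ℝ) ^ (A * u + c)) := by
          rw [mul_left_comm, h4, mul_one]
    _ ≤ _ := h5
    _ = (Fintype.card (I → ν → ZMod 3) : ℝ) * (2 ^ (A * u + c) * (8 / 9) ^ (K * u + R)) := by ring
    _ ≤ _ := mul_le_mul_of_nonneg_left h6 hN.le

/-- a value is seldom missing -/
theorem val_few : ((univ.filter fun e : I → ν → ZMod 3 => ∃ v, ∀ i ∈ J, e i ≠ v).card : ℝ) ≤
    NV I ν * (2 * Fintype.card (ν → ZMod 3) *
      (1 - 1 / (2 * Fintype.card (ν → ZMod 3))) ^ J.card) := by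
  obtain ⟨W, hW⟩ : ∃ W : ℝ, W = Fintype.card (ν → ZMod 3) := ⟨_, rfl⟩
  have hW1 : 1 ≤ W := by
    rw [hW]
    exact_mod_cast Fintype.card_pos
  rw [← hW]
  have h1 : ∀ v : ν → ZMod 3, ((univ.filter fun e : I → ν → ZMod 3 =>
      ∀ i ∈ J, e i ≠ v).card : ℝ) ≤ NV I ν * (2 * (1 - 1 / (2 * W)) ^ J.card) := by
    intro v
    have hρ : ∑ x : ν → ZMod 3, (if x = v then (1 / 2 : ℝ) else 1) ≤
        (1 - 1 / (2 * W)) * Fintype.card (ν → ZMod 3) := by
      have e1 : ∀ x : ν → ZMod 3, (if x = v then (1 / 2 : ℝ) else 1) =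
          1 - if x = v then (1 / 2 : ℝ) else 0 := by
        intro x
        split_ifs <;> norm_num
      rw [sum_congr rfl fun x _ => e1 x, sum_sub_distrib, sum_const, card_univ, nsmul_eq_mul,
        mul_one, Finset.sum_ite_eq' univ v (fun _ => (1 / 2 : ℝ)), if_pos (mem_univ _), ← hW]
      refine le_of_eq ?_
      field_simp
    have h2 := cnt_few (I := I) (fun x : ν → ZMod 3 => x = v) (β := 1 / 2)
      (ρ := 1 - 1 / (2 * W)) (by norm_num) (by norm_num) hρ J 1
    rw [pow_one] at h2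
    have h3 : (univ.filter fun e : I → ν → ZMod 3 => ∀ i ∈ J, e i ≠ v).card =
        (univ.filter fun e : I → ν → ZMod 3 => (J.filter fun i => e i = v).card < 1).card := by
      congr 1
      ext e
      rw [mem_filter, mem_filter, Nat.lt_one_iff, card_eq_zero, filter_eq_empty_iff]
    rw [h3]
    unfold NV
    have h4 : ((univ.filter fun e : I → ν → ZMod 3 =>
        (J.filter fun i => e i = v).card < 1).card : ℝ) * (1 / 2) ≤
        Fintype.card (I → ν → ZMod 3) * (1 - 1 / (2 * W)) ^ J.card := by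
      convert h2
    linarith
  have hsub : (univ.filter fun e : I → ν → ZMod 3 => ∃ v, ∀ i ∈ J, e i ≠ v) ⊆
      univ.biUnion fun v => univ.filter fun e : I → ν → ZMod 3 => ∀ i ∈ J, e i ≠ v := by
    intro e he
    rw [mem_filter] at he
    obtain ⟨-, v, hv⟩ := he
    rw [mem_biUnion]
    exact ⟨v, mem_univ _, mem_filter.2 ⟨mem_univ _, hv⟩⟩
  have h2 : ((univ.filter fun e : I → ν → ZMod 3 => ∃ v, ∀ i ∈ J, e i ≠ v).card : ℝ) ≤
      ∑ v : ν → ZMod 3, ((univ.filter fun e : I → ν → ZMod 3 => ∀ i ∈ J, e i ≠ v).card : ℝ) := by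
    exact_mod_cast (card_le_card hsub).trans card_biUnion_le
  refine h2.trans ((sum_le_sum fun v _ => h1 v).trans (le_of_eq ?_))
  rw [sum_const, card_univ, nsmul_eq_mul, ← hW]
  ring

end bd

end Q283.NK
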