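import Pool.Agent.Q283.NK.A5

/-! Tuples of exponents: the mean over the tables for almost all tuples -/

set_option autoImplicit false
set_option linter.unusedSectionVars false

open scoped Classical

namespace Q283.NK

open Finset Module
open Q283.ND (u3 off mem_off card_off fcc sp mem_sp mx ef NT NT_pos one cb cb_ge cb_le cb_lim)
open Q283.NJ (oneJ coJ oneJ_ge oneJ_le qJ qJ_ge qJ_le abs_oneJ_sub)
open Q283.Q3 (cq cq_ge cq_le)

section dat
variable {I κ ν : Type} [Fintype I] [Fintype κ] [Fintype ν] {J P : Finset I} {ks : κ → I}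
  {G : I → I → ZMod 3} {a : κ → ν → ZMod 3} {m : κ → I → ZMod 3}

/-- the data of a box -/
structure DatK (J P : Finset I) (ks : κ → I) (G : I → I → ZMod 3) (a : κ → ν → ZMod 3)
    (m : κ → I → ZMod 3) (K R : ℕ) : Prop where
  sub : J ⊆ P
  ksP : ∀ k, ks k ∉ P
  mks : ∀ k, m k (ks k) ≠ 0
  mJ : ∀ k, ∀ i ∈ J, m k i = 0
  ksl : ∀ k l, ks l ≠ ks k → m k (ks l) = 0
  hv : ∀ v ∈ off J, ((∀ k, v (ks k) = 0) ∧ v ≠ 0) → K * Jᶜ.card + R ≤
    (J.filter fun i => ∑ u, v u * G u i ≠ 0).card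
  hw : ∀ w ∈ off J, w ≠ 0 → K * Jᶜ.card + R ≤ (J.filter fun i => ∑ u, w u * G i u ≠ 0).card
  hJ : K * Jᶜ.card + R ≤ J.card
  a0 : ∀ k, a k ≠ 0
  ne : ∀ k l, k ≠ l → ∀ s : ZMod 3, s ≠ 0 → a l = s • a k → m l ≠ s • m k

/-- the exponents of the systems -/
noncomputable def fK (P : Finset I) (a : κ → ν → ZMod 3) (m : κ → I → ZMod 3)
    (e : I → ν → ZMod 3) : κ → I → ZMod 3 := fun k => ef P (m k) (lin (a k) e)

theorem fK_J {K R : ℕ} (h : DatK J P ks G a m K R) (e : I → ν → ZMod 3) (k : κ) {j : I}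
    (hj : j ∈ J) : fK P a m e k j = dt (a k) (e j) := by
  unfold fK ef lin
  rw [if_pos (h.sub hj), h.mJ k j hj, add_zero]

theorem ks_ef {K R : ℕ} (h : DatK J P ks G a m K R) (e : I → ν → ZMod 3) :
    Ks J (fK P a m e) ks where
  ksJ := fun k hk => h.ksP k (h.sub hk)
  fks := fun k => by
    unfold fK ef
    rw [if_neg (h.ksP k), zero_add]
    exact h.mks k
  ksl := fun k l hkl => by
    unfold fK ef
    rw [if_neg (h.ksP l), zero_add]
    exact h.ksl k l hkl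

/-- the degenerate tuples -/
def bE (J : Finset I) (ks : κ → I) (G : I → I → ZMod 3) (a : κ → ν → ZMod 3) (c : ℕ)
    (e : I → ν → ZMod 3) : Prop :=
  (∃ k, ∃ w ∈ off J, w ≠ 0 ∧
    (J.filter fun i => (∑ u, w u * G i u ≠ 0) ∧ lin (a k) e i ≠ 0).card < Jᶜ.card + c) ∨
  (∃ k, ∃ v ∈ off J, ((∀ k, v (ks k) = 0) ∧ v ≠ 0) ∧
    (J.filter fun i => (∑ u, v u * G u i ≠ 0) ∧ lin (a k) e i ≠ 0).card < Jᶜ.card + c) ∨
  (∃ k k', (∀ s : ZMod 3, a k' ≠ s • a k) ∧ (J.filter fun i => lin (a k) e i = 0 ∧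
    lin (a k') e i ≠ 0).card < Fintype.card κ * Jᶜ.card + c) ∨
  (∃ v, ∀ i ∈ J, e i ≠ v)

theorem gen_of {K R : ℕ} (h : DatK J P ks G a m K R) {s L c : ℕ}
    (hc : c = 2 + Fintype.card κ + Fintype.card κ * s * Fintype.card κ + Fintype.card κ * s + L)
    {e : I → ν → ZMod 3} (he : ¬ bE J ks G a c e) :
    ∃ C ⊆ J, GenK J (fK P a m e) ks G C L ∧ ∀ k, s ≤ (Cf C (fK P a m e k)).card := by
  obtain ⟨q, hq⟩ : ∃ q, q = Fintype.card κ := ⟨_, rfl⟩
  obtain ⟨f, hf⟩ : ∃ f, f = fK P a m e := ⟨_, rfl⟩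
  have hfJ : ∀ k, ∀ j ∈ J, f k j = lin (a k) e j := fun k j hj => by
    rw [hf]
    exact fK_J h e k hj
  have hK := ks_ef h e
  rw [← hf] at hK ⊢
  unfold bE at he
  rw [not_or, not_or, not_or] at he
  obtain ⟨e1, e2, e3, e4⟩ := he
  rw [← hq] at hc e3
  have g1 : ∀ k, ∀ w : I → ZMod 3, (∀ i ∈ J, w i = 0) → w ≠ 0 → Jᶜ.card + c ≤
      ((sp J (f k)).filter fun i => ∑ u, w u * G i u ≠ 0).card := by
    intro k w h1 h2
    by_contra hlt
    rw [not_le] at hlt
    refine e1 ⟨k, w, mem_off.2 h1, h2, lt_of_le_of_lt (card_le_card fun i hi => ?_) hlt⟩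
    rw [mem_filter] at hi
    rw [mem_filter, mem_sp, hfJ k i hi.1]
    exact ⟨⟨hi.1, hi.2.2⟩, hi.2.1⟩
  have g2 : ∀ k, ∀ v : I → ZMod 3, (∀ i ∈ J, v i = 0) → (∀ k, v (ks k) = 0) → v ≠ 0 →
      Jᶜ.card + c ≤ ((sp J (f k)).filter fun i => ∑ u, v u * G u i ≠ 0).card := by
    intro k v h1 h2 h3
    by_contra hlt
    rw [not_le] at hlt
    refine e2 ⟨k, v, mem_off.2 h1, ⟨h2, h3⟩, lt_of_le_of_lt (card_le_card fun i hi => ?_) hlt⟩
    rw [mem_filter] at hi
    rw [mem_filter, mem_sp, hfJ k i hi.1]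
    exact ⟨⟨hi.1, hi.2.2⟩, hi.2.1⟩
  have g4 : ∀ v, ∃ i ∈ J, e i = v := by
    intro v
    by_contra hc'
    push Not at hc'
    exact e4 ⟨v, hc'⟩
  -- the rows
  have hbig : ∀ k, s ≤ (sp J (f k)).card := by
    intro k
    have h1 := g1 k (Pi.single (ks k) 1) (fun i hi => Pi.single_eq_of_ne
      (fun h' : i = ks k => hK.ksJ k (h' ▸ hi)) _) (by
        intro h'
        have := congrFun h' (ks k)
        rw [Pi.single_eq_same] at this
        exact one_ne_zero this)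
    have h2 := card_filter_le (sp J (f k)) fun i =>
      ∑ u, (Pi.single (ks k) 1 : I → ZMod 3) u * G i u ≠ 0
    have h3 : 1 ≤ q := by
      rw [hq]
      exact Fintype.card_pos_iff.2 ⟨k⟩
    have h4 : 1 * s ≤ q * s := Nat.mul_le_mul_right _ h3
    omega
  choose Ck hCk1 hCk2 using fun k => exists_subset_card_eq (hbig k)
  obtain ⟨C, hC⟩ : ∃ C, C = univ.biUnion Ck := ⟨_, rfl⟩
  have hCJ : C ⊆ J := by
    rw [hC]
    intro i hi
    rw [mem_biUnion] at hi
    obtain ⟨k, -, hi⟩ := hi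
    exact (mem_sp.1 (hCk1 k hi)).1
  have hCc : C.card ≤ q * s := by
    rw [hC, hq]
    refine card_biUnion_le.trans (le_of_eq ?_)
    rw [sum_congr rfl fun k _ => hCk2 k, sum_const, card_univ, smul_eq_mul]
  have hCc2 : C.card * q ≤ q * s * q := Nat.mul_le_mul_right _ hCc
  have hsd : ∀ T : Finset I, T.card ≤ (T \ C).card + C.card := fun T => by
    have := le_card_sdiff C T
    omega
  refine ⟨C, hCJ, ⟨fun w h1 h2 k => ?_, fun v h1 h2 h3 k => ?_, fun k k' => ?_, fun k t ht => ?_,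
    fun k k' hkk s' hs' hprop => ?_, fun k => ?_⟩, fun k => ?_⟩
  · have h3 := g1 k w h1 h2
    have h4 := hsd ((sp J (f k)).filter fun i => ∑ u, w u * G i u ≠ 0)
    have h5 : ((sp J (f k)).filter fun i => ∑ u, w u * G i u ≠ 0) \ C =
        (sp J (f k) \ C).filter fun i => ∑ u, w u * G i u ≠ 0 := by
      ext i
      simp only [mem_sdiff, mem_filter]
      tauto
    rw [h5] at h4
    rw [← hq]
    omega
  · have h4 := g2 k v h1 h2 h3
    rw [← hq]
    omega
  · by_cases hs : ∃ s : ZMod 3, a k' = s • a k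
    · left
      obtain ⟨s, hs⟩ := hs
      refine ⟨s, ?_, fun j hj => ?_⟩
      · rintro rfl
        rw [zero_smul] at hs
        exact h.a0 k' hs
      · rw [hfJ k' j hj, hfJ k j hj]
        unfold lin
        rw [hs, dt_apply, dt_apply, mul_sum]
        exact sum_congr rfl fun n _ => by rw [Pi.smul_apply, smul_eq_mul]; ring
    · right
      push Not at hs
      have h3 : q * Jᶜ.card + c ≤ (J.filter fun i => f k i = 0 ∧ f k' i ≠ 0).card := by
        by_contra hlt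
        rw [not_le] at hlt
        refine e3 ⟨k, k', hs, lt_of_le_of_lt (card_le_card fun i hi => ?_) hlt⟩
        rw [mem_filter] at hi
        rw [mem_filter, hfJ k i hi.1, hfJ k' i hi.1]
        exact hi
      have h4 := hsd (J.filter fun i => f k i = 0 ∧ f k' i ≠ 0)
      have h5 : (J.filter fun i => f k i = 0 ∧ f k' i ≠ 0) \ C =
          (J \ C).filter fun i => f k i = 0 ∧ f k' i ≠ 0 := by
        ext i
        simp only [mem_sdiff, mem_filter]
        tauto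
      rw [h5] at h4
      have h6 : (J \ C)ᶜ.card = Jᶜ.card + C.card := by
        have h7 : (J \ C)ᶜ = Jᶜ ∪ C := by
          ext i
          simp only [mem_compl, mem_sdiff, mem_union]
          tauto
        rw [h7, card_union_of_disjoint]
        rw [Finset.disjoint_left]
        intro i h1 h2
        exact (mem_compl.1 h1) (hCJ h2)
      rw [h6, ← hq, mul_add]
      have h8 : q * C.card ≤ q * s * q := by
        rw [mul_comm]
        exact hCc2
      omega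
  · obtain ⟨w, hw⟩ : ∃ w : ν → ZMod 3, w = fun n => ∑ l, t l * a l n := ⟨_, rfl⟩
    have hdw : ∀ v, dt w v = ∑ l, t l * dt (a l) v := by
      intro v
      rw [dt_apply, hw]
      simp_rw [dt_apply, sum_mul, mul_sum]
      rw [sum_comm]
      exact sum_congr rfl fun l _ => sum_congr rfl fun n _ => by ring
    obtain ⟨c', hc'⟩ := dt_prop (w := w) (h.a0 k) fun v hv => by
      obtain ⟨j, hj, hjv⟩ := g4 v
      have h1 := ht j hj (by rw [hfJ k j hj]; unfold lin; rw [hjv]; exact hv)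
      rw [hdw, ← h1]
      refine sum_congr rfl fun l _ => ?_
      rw [hfJ l j hj]
      unfold lin
      rw [hjv]
    refine ⟨c', fun j hj => ?_⟩
    have h1 := hc' (e j)
    rw [hdw] at h1
    rw [hfJ k j hj]
    unfold lin
    rw [← h1]
    refine sum_congr rfl fun l _ => ?_
    rw [hfJ l j hj]
    rfl
  · have hav : a k' = s' • a k := by
      funext n
      obtain ⟨j, hj, hjv⟩ := g4 (Pi.single n 1)
      have h1 := hprop j hj
      rw [hfJ k j hj, hfJ k' j hj] at h1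
      unfold lin at h1
      rw [hjv, dt_apply, dt_apply] at h1
      have h2 : ∀ b : ν → ZMod 3, ∑ i, b i * (Pi.single n 1 : ν → ZMod 3) i = b n := by
        intro b
        rw [sum_eq_single n]
        · rw [Pi.single_eq_same, mul_one]
        · intro i _ hi
          rw [Pi.single_eq_of_ne hi, mul_zero]
        · intro h'
          exact absurd (mem_univ _) h'
      rw [h2, h2] at h1
      exact h1
    obtain ⟨u, hu⟩ := Function.ne_iff.1 (h.ne k k' hkk s' hs' hav)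
    rw [Pi.smul_apply, smul_eq_mul] at hu
    have huJ : u ∉ J := by
      intro hu'
      rw [h.mJ k u hu', h.mJ k' u hu', mul_zero] at hu
      exact hu rfl
    refine ⟨u, huJ, fun h0 => hu ?_⟩
    rw [hf] at h0
    unfold fK ef lin at h0
    rw [hav] at h0
    have h2 : dt (s' • a k) (e u) = s' * dt (a k) (e u) := by
      rw [dt_apply, dt_apply, mul_sum]
      exact sum_congr rfl fun n _ => by rw [Pi.smul_apply, smul_eq_mul]; ring
    rw [h2] at h0
    split_ifs at h0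
    · linear_combination h0
    · linear_combination h0
  · obtain ⟨v, hv⟩ := dt_surj (h.a0 k) 1
    obtain ⟨j, hj, hjv⟩ := g4 v
    refine ⟨j, mem_sp.2 ⟨hj, ?_⟩⟩
    rw [hfJ k j hj]
    unfold lin
    rw [hjv, hv]
    exact one_ne_zero
  · rw [← hCk2 k]
    refine card_le_card fun i hi => mem_Cf.2 ⟨?_, (mem_sp.1 (hCk1 k hi)).2⟩
    rw [hC, mem_biUnion]
    exact ⟨k, mem_univ _, hi⟩

theorem prod_sub_le (x y : κ → ℝ) (hx0 : ∀ k, 0 ≤ x k) (hx1 : ∀ k, x k ≤ 1) (hy0 : ∀ k, 0 ≤ y k)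
    (hy1 : ∀ k, y k ≤ 1) (S : Finset κ) : |∏ k ∈ S, x k - ∏ k ∈ S, y k| ≤ ∑ k ∈ S, |x k - y k| := by
  induction S using Finset.induction_on with
  | empty => simp
  | insert k S hk ih =>
    rw [prod_insert hk, prod_insert hk, sum_insert hk]
    have h1 : x k * ∏ k ∈ S, x k - y k * ∏ k ∈ S, y k =
        x k * (∏ k ∈ S, x k - ∏ k ∈ S, y k) + (x k - y k) * ∏ k ∈ S, y k := by ring
    rw [h1]
    refine (abs_add_le _ _).trans ?_
    rw [abs_mul, abs_mul, abs_of_nonneg (hx0 k), add_comm |x k - y k|]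
    refine add_le_add ?_ ?_
    · exact (mul_le_of_le_one_left (abs_nonneg _) (hx1 k)).trans ih
    · refine mul_le_of_le_one_right (abs_nonneg _) ?_
      rw [abs_of_nonneg (prod_nonneg fun k _ => hy0 k)]
      exact prod_le_one (fun k _ => hy0 k) fun k _ => hy1 k

/-- the limit of the laws -/
theorem cb_limK (b : κ → ℕ) (ε : ℝ) (hε : 0 < ε) : ∃ s₀ : ℕ, ∀ σ : κ → ℕ, (∀ k, s₀ ≤ σ k) →
    |∏ k, cb (σ k) (b k) - qJ b| ≤ ε := by
  choose s hs using fun k => cb_lim (b k) (ε / (Fintype.card κ + 1)) (by positivity)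
  refine ⟨univ.sup s, fun σ hσ => ?_⟩
  unfold qJ
  refine (prod_sub_le _ _ (fun k => cb_ge _ _) (fun k => cb_le _ _) (fun k => cq_ge _)
    (fun k => cq_le _) univ).trans ?_
  refine (sum_le_sum fun k _ => hs k (σ k) ((le_sup (f := s) (mem_univ k)).trans (hσ k))).trans ?_
  rw [sum_const, card_univ, nsmul_eq_mul, mul_div_assoc', div_le_iff₀ (by positivity)]
  nlinarith

/-- **The degenerate tuples are few.** -/
theorem bE_few {K R : ℕ} (h : DatK J P ks G a m K R) (hK : 6 * Fintype.card κ + 4 ≤ K) (c : ℕ) :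
    ((univ.filter fun e : I → ν → ZMod 3 => bE J ks G a c e).card : ℝ) ≤
      NV I ν * (2 * Fintype.card κ * (4 ^ c * (1 / 2) ^ R) +
        Fintype.card κ ^ 2 * (2 ^ c * (8 / 9) ^ R) +
        2 * Fintype.card (ν → ZMod 3) * (1 - 1 / (2 * Fintype.card (ν → ZMod 3))) ^ R) := by
  obtain ⟨A1, hA1⟩ : ∃ A1 : κ → Finset (I → ν → ZMod 3), A1 = fun k => univ.filter fun e =>
    ∃ w ∈ off J, w ≠ 0 ∧ (J.filter fun i => (∑ u, w u * G i u ≠ 0) ∧
      lin (a k) e i ≠ 0).card < Jᶜ.card + c := ⟨_, rfl⟩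
  obtain ⟨A2, hA2⟩ : ∃ A2 : κ → Finset (I → ν → ZMod 3), A2 = fun k => univ.filter fun e =>
    ∃ v ∈ off J, ((∀ k, v (ks k) = 0) ∧ v ≠ 0) ∧ (J.filter fun i => (∑ u, v u * G u i ≠ 0) ∧
      lin (a k) e i ≠ 0).card < Jᶜ.card + c := ⟨_, rfl⟩
  obtain ⟨A3, hA3⟩ : ∃ A3 : κ × κ → Finset (I → ν → ZMod 3), A3 = fun p => univ.filter fun e =>
    (∀ s : ZMod 3, a p.2 ≠ s • a p.1) ∧ (J.filter fun i => lin (a p.1) e i = 0 ∧
      lin (a p.2) e i ≠ 0).card < Fintype.card κ * Jᶜ.card + c := ⟨_, rfl⟩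
  obtain ⟨A4, hA4⟩ : ∃ A4 : Finset (I → ν → ZMod 3), A4 = univ.filter fun e =>
    ∃ v, ∀ i ∈ J, e i ≠ v := ⟨_, rfl⟩
  have hN := NV_pos (I := I) (ν := ν)
  have hsub : (univ.filter fun e : I → ν → ZMod 3 => bE J ks G a c e) ⊆
      ((univ.biUnion A1 ∪ univ.biUnion A2) ∪ univ.biUnion A3) ∪ A4 := by
    intro e he
    rw [mem_filter] at he
    simp only [mem_union, mem_biUnion]
    rcases he.2 with ⟨k, h1⟩ | ⟨k, h1⟩ | ⟨k, k', h1⟩ | h1
    · exact Or.inl (Or.inl (Or.inl ⟨k, mem_univ _, by rw [hA1]; exact mem_filter.2 ⟨mem_univ _, h1⟩⟩))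
    · exact Or.inl (Or.inl (Or.inr ⟨k, mem_univ _, by rw [hA2]; exact mem_filter.2 ⟨mem_univ _, h1⟩⟩))
    · exact Or.inl (Or.inr ⟨(k, k'), mem_univ _, by rw [hA3]; exact mem_filter.2 ⟨mem_univ _, h1⟩⟩)
    · exact Or.inr (by rw [hA4]; exact mem_filter.2 ⟨mem_univ _, h1⟩)
  have b1 : ∀ k, ((A1 k).card : ℝ) ≤ NV I ν * (4 ^ c * (1 / 2) ^ R) := by
    intro k
    rw [hA1]
    refine le_trans (le_of_eq (congrArg Nat.cast fcc)) (form_few (J := J) (h.a0 k)
      (fun w => w ≠ 0) (fun w i => ∑ u, w u * G i u ≠ 0) (K := K) (R := R) (c := c) (by omega)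
      (fun w h1 h2 => (h.hw w h1 h2).trans (le_of_eq fcc)) _ fun e he => ?_)
    obtain ⟨w, h1, h2, h3⟩ := he
    exact ⟨w, h1, h2, lt_of_le_of_lt (le_of_eq fcc) h3⟩
  have b2 : ∀ k, ((A2 k).card : ℝ) ≤ NV I ν * (4 ^ c * (1 / 2) ^ R) := by
    intro k
    rw [hA2]
    refine le_trans (le_of_eq (congrArg Nat.cast fcc)) (form_few (J := J) (h.a0 k)
      (fun v => (∀ k, v (ks k) = 0) ∧ v ≠ 0)
      (fun v i => ∑ u, v u * G u i ≠ 0) (K := K) (R := R) (c := c) (by omega)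
      (fun v h1 h2 => (h.hv v h1 h2).trans (le_of_eq fcc)) _ fun e he => ?_)
    obtain ⟨w, h1, h2, h3⟩ := he
    exact ⟨w, h1, h2, lt_of_le_of_lt (le_of_eq fcc) h3⟩
  have b3 : ∀ p, ((A3 p).card : ℝ) ≤ NV I ν * (2 ^ c * (8 / 9) ^ R) := by
    intro p
    rw [hA3]
    beta_reduce
    by_cases hp : ∀ s : ZMod 3, a p.2 ≠ s • a p.1
    · refine le_trans ?_ (sep_few (I := I) (J := J) (h.a0 p.1) hp (A := Fintype.card κ) (K := K)
        (R := R) (c := c) (by omega) h.hJ)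
      refine Nat.cast_le.2 (card_le_card fun e he => ?_)
      rw [mem_filter] at he ⊢
      exact ⟨he.1, he.2.2⟩
    · have : (univ.filter fun e : I → ν → ZMod 3 => (∀ s : ZMod 3, a p.2 ≠ s • a p.1) ∧
          (J.filter fun i => lin (a p.1) e i = 0 ∧
          lin (a p.2) e i ≠ 0).card < Fintype.card κ * Jᶜ.card + c) = ∅ := by
        rw [filter_eq_empty_iff]
        intro e _ h1
        exact hp h1.1
      rw [this, card_empty, Nat.cast_zero]
      positivity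
  have b4 : (A4.card : ℝ) ≤ NV I ν * (2 * Fintype.card (ν → ZMod 3) *
      (1 - 1 / (2 * Fintype.card (ν → ZMod 3))) ^ R) := by
    rw [hA4]
    refine (val_few (I := I) (ν := ν) (J := J)).trans ?_
    have hW1 : (1 : ℝ) ≤ Fintype.card (ν → ZMod 3) := by exact_mod_cast Fintype.card_pos
    generalize (Fintype.card (ν → ZMod 3) : ℝ) = W at hW1 ⊢
    have h1 : 1 / (2 * W) ≤ 1 := by
      rw [div_le_one (by positivity)]
      linarith
    have h2 : 0 ≤ 1 / (2 * W) := by positivity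
    have h3 : R ≤ J.card := by
      have := h.hJ
      omega
    have h4 : (1 - 1 / (2 * W)) ^ J.card ≤ (1 - 1 / (2 * W)) ^ R :=
      pow_le_pow_of_le_one (by linarith) (by linarith) h3
    exact mul_le_mul_of_nonneg_left (mul_le_mul_of_nonneg_left h4 (by positivity)) hN.le
  have h1 := card_le_card hsub
  have h2 : (((((univ.biUnion A1 ∪ univ.biUnion A2) ∪ univ.biUnion A3) ∪ A4).card : ℕ) : ℝ) ≤
      ((∑ k, ((A1 k).card : ℝ) + ∑ k, ((A2 k).card : ℝ)) + ∑ p, ((A3 p).card : ℝ)) + A4.card := by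
    have h3 := (card_union_le (((univ.biUnion A1 ∪ univ.biUnion A2) ∪ univ.biUnion A3)) A4).trans
      (Nat.add_le_add_right ((card_union_le (univ.biUnion A1 ∪ univ.biUnion A2)
      (univ.biUnion A3)).trans
      (Nat.add_le_add ((card_union_le (univ.biUnion A1) (univ.biUnion A2)).trans
      (Nat.add_le_add card_biUnion_le card_biUnion_le)) card_biUnion_le)) A4.card)
    exact_mod_cast h3
  have h3 : ((univ.filter fun e : I → ν → ZMod 3 => bE J ks G a c e).card : ℝ) ≤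
      ((((univ.biUnion A1 ∪ univ.biUnion A2) ∪ univ.biUnion A3) ∪ A4).card : ℝ) := by
    exact_mod_cast h1
  refine (h3.trans h2).trans ?_
  have s1 : ∑ k, ((A1 k).card : ℝ) ≤ Fintype.card κ * (NV I ν * (4 ^ c * (1 / 2) ^ R)) := by
    refine (sum_le_sum fun k _ => b1 k).trans (le_of_eq ?_)
    rw [sum_const, card_univ, nsmul_eq_mul]
  have s2 : ∑ k, ((A2 k).card : ℝ) ≤ Fintype.card κ * (NV I ν * (4 ^ c * (1 / 2) ^ R)) := by
    refine (sum_le_sum fun k _ => b2 k).trans (le_of_eq ?_)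
    rw [sum_const, card_univ, nsmul_eq_mul]
  have s3 : ∑ p, ((A3 p).card : ℝ) ≤ Fintype.card κ ^ 2 * (NV I ν * (2 ^ c * (8 / 9) ^ R)) := by
    refine (sum_le_sum fun p _ => b3 p).trans (le_of_eq ?_)
    rw [sum_const, card_univ, nsmul_eq_mul, Fintype.card_prod]
    push_cast
    ring
  linarith

end dat

/-- **The mean over the tables, for almost all tuples of exponents.** -/
theorem firstK (κ ν : Type) [Fintype κ] [Fintype ν] (b : κ → ℕ) (δ : ℝ) (hδ : 0 < δ) :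
    ∃ R₀ : ℕ, ∀ R : ℕ, R₀ ≤ R →
    ∀ (I : Type) [Fintype I] (J P : Finset I) (ks : κ → I) (G : I → I → ZMod 3)
      (a : κ → ν → ZMod 3) (m : κ → I → ZMod 3) (K : ℕ), 6 * Fintype.card κ + 4 ≤ K →
      DatK J P ks G a m K R →
    ∑ e : I → ν → ZMod 3, |∑ α : I → I → ZMod 3,
      (oneJ b (coJ (fK P a m e) ks (mx J G α)) - qJ b)| ≤ NT I * (δ * NV I ν) := by
  obtain ⟨W, hW⟩ : ∃ W : ℝ, W = Fintype.card (ν → ZMod 3) := ⟨_, rfl⟩
  have hW1 : 1 ≤ W := by
    rw [hW]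
    exact_mod_cast Fintype.card_pos
  obtain ⟨s₁, hs₁⟩ := cb_limK b (δ / 8) (by linarith)
  obtain ⟨s₂, hs₂⟩ := exists_pow_lt_of_lt_one
    (show (0 : ℝ) < δ / 8 / (Fintype.card κ + 1) by positivity) (show (1 / 3 : ℝ) < 1 by norm_num)
  obtain ⟨L, hL⟩ := exists_pow_lt_of_lt_one
    (show (0 : ℝ) < δ / 8 / 2 ^ Fintype.card κ by positivity) (show (1 / 3 : ℝ) < 1 by norm_num)
  obtain ⟨s, hs₀⟩ : ∃ s, s = max s₁ s₂ := ⟨_, rfl⟩
  obtain ⟨c, hc⟩ : ∃ c, c = 2 + Fintype.card κ + Fintype.card κ * s * Fintype.card κ +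
    Fintype.card κ * s + L := ⟨_, rfl⟩
  obtain ⟨R₁, hR₁⟩ := exists_pow_lt_of_lt_one
    (show (0 : ℝ) < δ / 8 / (2 * Fintype.card κ * 4 ^ c + 1) by positivity)
    (show (1 / 2 : ℝ) < 1 by norm_num)
  obtain ⟨R₂, hR₂⟩ := exists_pow_lt_of_lt_one
    (show (0 : ℝ) < δ / 8 / (Fintype.card κ ^ 2 * 2 ^ c + 1) by positivity)
    (show (8 / 9 : ℝ) < 1 by norm_num)
  have hθ0 : 0 ≤ 1 - 1 / (2 * W) := by
    have : 1 / (2 * W) ≤ 1 := by
      rw [div_le_one (by positivity)]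
      linarith
    linarith
  have hθ1 : 1 - 1 / (2 * W) < 1 := by
    have : 0 < 1 / (2 * W) := by positivity
    linarith
  obtain ⟨R₃, hR₃⟩ := exists_pow_lt_of_lt_one
    (show (0 : ℝ) < δ / 8 / (2 * W) by positivity) hθ1
  refine ⟨max R₁ (max R₂ R₃), fun R hR I _ J P ks G a m K hK h => ?_⟩
  have hN := NT_pos I
  have hV := NV_pos (I := I) (ν := ν)
  have hs : (Fintype.card κ : ℝ) * (1 / 3) ^ s + 2 ^ Fintype.card κ * (1 / 3) ^ L ≤ δ / 4 := by
    have h2 : (1 / 3 : ℝ) ^ s ≤ (1 / 3) ^ s₂ := pow_le_pow_of_le_one (by norm_num) (by norm_num)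
      ((le_max_right _ _).trans hs₀.ge)
    have h3 : (Fintype.card κ : ℝ) * (1 / 3) ^ s ≤ δ / 8 := by
      have h4 := h2.trans hs₂.le
      rw [le_div_iff₀ (by positivity)] at h4
      have h5 : (0 : ℝ) < (1 / 3) ^ s := by positivity
      nlinarith
    have h4 : 2 ^ Fintype.card κ * (1 / 3 : ℝ) ^ L ≤ δ / 8 := by
      have h5 := hL.le
      rw [le_div_iff₀ (by positivity)] at h5
      linarith
    linarith
  -- the good tuples
  have hgood : ∀ e : I → ν → ZMod 3, ¬ bE J ks G a c e → |∑ α : I → I → ZMod 3,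
      (oneJ b (coJ (fK P a m e) ks (mx J G α)) - qJ b)| ≤ NT I * (δ / 2) := by
    intro e he
    obtain ⟨C, hCJ, hg, hCs⟩ := gen_of h hc he
    refine (meanK (ks_ef h e) hCJ hg hCs b (qJ_ge b) (qJ_le b)).trans ?_
    unfold NT
    refine mul_le_mul_of_nonneg_left ?_ (Nat.cast_nonneg _)
    have h1 := hs₁ (fun k => (Cf C (fK P a m e k)).card)
      (fun k => ((le_max_left _ _).trans hs₀.ge).trans (hCs k))
    linarith
  have htriv : ∀ e : I → ν → ZMod 3, |∑ α : I → I → ZMod 3,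
      (oneJ b (coJ (fK P a m e) ks (mx J G α)) - qJ b)| ≤ NT I := by
    intro e
    refine (abs_sum_le_sum_abs _ _).trans ((sum_le_sum fun α _ => abs_oneJ_sub b _).trans ?_)
    rw [sum_const, card_univ, nsmul_eq_mul, mul_one]
    exact le_rfl
  have hall : ∀ e : I → ν → ZMod 3, |∑ α : I → I → ZMod 3,
      (oneJ b (coJ (fK P a m e) ks (mx J G α)) - qJ b)| ≤ NT I * (δ / 2) +
        (if bE J ks G a c e then NT I else 0) := by
    intro e
    by_cases he : bE J ks G a c e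
    · rw [if_pos he]
      have := htriv e
      have h2 : 0 ≤ NT I * (δ / 2) := by positivity
      linarith
    · rw [if_neg he, add_zero]
      exact hgood e he
  refine (sum_le_sum fun e _ => hall e).trans ?_
  rw [sum_add_distrib, sum_const, card_univ, nsmul_eq_mul, ← sum_filter, sum_const, nsmul_eq_mul]
  have h1 := bE_few h hK c
  rw [← hW] at h1
  have g1 : 2 * (Fintype.card κ : ℝ) * (4 ^ c * (1 / 2) ^ R) ≤ δ / 8 := by
    have h2 : (1 / 2 : ℝ) ^ R ≤ δ / 8 / (2 * Fintype.card κ * 4 ^ c + 1) :=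
      (pow_le_pow_of_le_one (by norm_num) (by norm_num) ((le_max_left _ _).trans hR)).trans hR₁.le
    rw [le_div_iff₀ (by positivity)] at h2
    have h3 : (0 : ℝ) < (1 / 2) ^ R := by positivity
    nlinarith
  have g2 : (Fintype.card κ : ℝ) ^ 2 * (2 ^ c * (8 / 9) ^ R) ≤ δ / 8 := by
    have h2 : (8 / 9 : ℝ) ^ R ≤ δ / 8 / (Fintype.card κ ^ 2 * 2 ^ c + 1) :=
      (pow_le_pow_of_le_one (by norm_num) (by norm_num)
        (((le_max_left _ _).trans (le_max_right _ _)).trans hR)).trans hR₂.le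
    rw [le_div_iff₀ (by positivity)] at h2
    have h3 : (0 : ℝ) < (8 / 9) ^ R := by positivity
    nlinarith
  have g3 : 2 * W * (1 - 1 / (2 * W)) ^ R ≤ δ / 8 := by
    have h2 : (1 - 1 / (2 * W)) ^ R ≤ δ / 8 / (2 * W) :=
      (pow_le_pow_of_le_one hθ0 hθ1.le
        (((le_max_right _ _).trans (le_max_right _ _)).trans hR)).trans hR₃.le
    rw [le_div_iff₀ (by positivity)] at h2
    linarith
  have h2 : ((univ.filter fun e : I → ν → ZMod 3 => bE J ks G a c e).card : ℝ) ≤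
      NV I ν * (δ / 2) := by
    refine h1.trans (mul_le_mul_of_nonneg_left ?_ hV.le)
    linarith
  have h3 := mul_le_mul_of_nonneg_right h2 hN.le
  have h4 : (Fintype.card (I → ν → ZMod 3) : ℝ) = NV I ν := rfl
  rw [h4]
  nlinarith

end Q283.NK
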