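import Pool.Agent.Q283.NK.A6
import Pool.Agent.Q283.NJ.B2
import Pool.Agent.Q283.NJ.D1

/-! Tuples of exponents: the second moment and the local theorem -/

set_option autoImplicit false
set_option linter.unusedSectionVars false

open scoped Classical

namespace Q283.NK

open Finset Module
open Q283.ND (off mem_off fcc ncI mx ef NT NT_pos NT_eq card_cpl markov nc)
open Q283.NJ (oneJ coJ oneJ_ge oneJ_le qJ qJ_ge qJ_le abs_oneJ_sub GoodJ GoodJ.mono)
open Q283.Q3 (cq cq_ge cq_le)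

section dbl
variable {I κ ν : Type} [Fintype I] [Fintype κ] [Fintype ν] {J P : Finset I} {ks : κ → I}
  {G : I → I → ZMod 3} {a : κ → ν → ZMod 3} {m : κ → I → ZMod 3}

/-- the doubled forms -/
def a2 (a : κ → ν → ZMod 3) : κ ⊕ κ → ν ⊕ ν → ZMod 3 :=
  Sum.elim (fun k => Sum.elim (a k) 0) (fun k => Sum.elim 0 (a k))

theorem dat_dbl {K R : ℕ} (h : DatK J P ks G a m K R) :
    DatK J P (Sum.elim ks ks) G (a2 a) (Sum.elim m m) K R where
  sub := h.sub
  ksP := by rintro (k | k) <;> exact h.ksP k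
  mks := by rintro (k | k) <;> exact h.mks k
  mJ := by rintro (k | k) <;> exact h.mJ k
  ksl := by rintro (k | k) (l | l) <;> exact h.ksl k l
  hv := fun v h1 h2 => h.hv v h1 ⟨fun k => h2.1 (Sum.inl k), h2.2⟩
  hw := h.hw
  hJ := h.hJ
  a0 := by
    rintro (k | k) h0
    · exact h.a0 k (funext fun n => congrFun h0 (Sum.inl n))
    · exact h.a0 k (funext fun n => congrFun h0 (Sum.inr n))
  ne := by
    rintro (k | k) (l | l) hkl s hs h0
    · exact h.ne k l (fun h' => hkl (congrArg Sum.inl h')) s hs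
        (funext fun n => congrFun h0 (Sum.inl n))
    · exfalso
      apply h.a0 l
      funext n
      have h1 := congrFun h0 (Sum.inr n)
      show (a2 a) (Sum.inr l) (Sum.inr n) = 0
      rw [h1]
      show s * (0 : ν → ZMod 3) n = 0
      rw [Pi.zero_apply, mul_zero]
    · exfalso
      apply h.a0 l
      funext n
      have h1 := congrFun h0 (Sum.inl n)
      show (a2 a) (Sum.inl l) (Sum.inl n) = 0
      rw [h1]
      show s * (0 : ν → ZMod 3) n = 0
      rw [Pi.zero_apply, mul_zero]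
    · exact h.ne k l (fun h' => hkl (congrArg Sum.inr h')) s hs
        (funext fun n => congrFun h0 (Sum.inr n))

/-- pairs of tuples -/
def eqd (I ν : Type) : (I → ν ⊕ ν → ZMod 3) ≃ (I → ν → ZMod 3) × (I → ν → ZMod 3) where
  toFun e := (fun i n => e i (Sum.inl n), fun i n => e i (Sum.inr n))
  invFun p := fun i => Sum.elim (p.1 i) (p.2 i)
  left_inv := fun e => by
    funext i n
    rcases n with n | n <;> rfl
  right_inv := fun p => rfl

theorem NV_eq : NV I ν = Nat.card (I → ν → ZMod 3) := by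
  unfold NV
  rw [Nat.card_eq_fintype_card]

theorem NV_dbl : NV I (ν ⊕ ν) = NV I ν ^ 2 := by
  rw [NV_eq, NV_eq, Nat.card_congr (eqd I ν), Nat.card_prod]
  push_cast
  ring

/-- sums over tuples, for a change of variables -/
theorem sum_gen {E : Type} [Fintype E] (φ : (I → ν → ZMod 3) ≃ E)
    (f : (I → ν → ZMod 3) → ℝ) (g : E → ℝ) (h : ∀ e, f e = g (φ e)) :
    ∑ e, f e = ∑ x, g x := Fintype.sum_equiv φ _ _ h

theorem dt_inl (b : ν → ZMod 3) (v : ν ⊕ ν → ZMod 3) :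
    dt (Sum.elim b 0) v = dt b fun n => v (Sum.inl n) := by
  rw [dt_apply, dt_apply, Fintype.sum_sum_type]
  simp

theorem dt_inr (b : ν → ZMod 3) (v : ν ⊕ ν → ZMod 3) :
    dt (Sum.elim 0 b) v = dt b fun n => v (Sum.inr n) := by
  rw [dt_apply, dt_apply, Fintype.sum_sum_type]
  simp

theorem fK_inl (e : I → ν ⊕ ν → ZMod 3) (k : κ) :
    fK P (a2 a) (Sum.elim m m) e (Sum.inl k) = fK P a m (eqd I ν e).1 k := by
  show ef P (m k) (lin (Sum.elim (a k) 0) e) = ef P (m k) (lin (a k) (eqd I ν e).1)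
  congr 1
  funext i
  exact dt_inl _ _

theorem fK_inr (e : I → ν ⊕ ν → ZMod 3) (k : κ) :
    fK P (a2 a) (Sum.elim m m) e (Sum.inr k) = fK P a m (eqd I ν e).2 k := by
  show ef P (m k) (lin (Sum.elim 0 (a k)) e) = ef P (m k) (lin (a k) (eqd I ν e).2)
  congr 1
  funext i
  exact dt_inr _ _

theorem oneJ_dbl (b : κ → ℕ) (e : I → ν ⊕ ν → ZMod 3) (L : I → I → ZMod 3) :
    oneJ (Sum.elim b b) (coJ (fK P (a2 a) (Sum.elim m m) e) (Sum.elim ks ks) L) =
      oneJ b (coJ (fK P a m (eqd I ν e).1) ks L) * oneJ b (coJ (fK P a m (eqd I ν e).2) ks L) := by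
  unfold oneJ
  rw [Fintype.prod_sum_type]
  congr 1
  · refine prod_congr rfl fun k _ => ?_
    show Q283.ND.one (b k) (Q283.ND.co (fK P (a2 a) (Sum.elim m m) e (Sum.inl k)) (ks k) L) =
      Q283.ND.one (b k) (Q283.ND.co (fK P a m (eqd I ν e).1 k) (ks k) L)
    rw [fK_inl]
  · refine prod_congr rfl fun k _ => ?_
    show Q283.ND.one (b k) (Q283.ND.co (fK P (a2 a) (Sum.elim m m) e (Sum.inr k)) (ks k) L) =
      Q283.ND.one (b k) (Q283.ND.co (fK P a m (eqd I ν e).2 k) (ks k) L)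
    rw [fK_inr]

theorem qJ_dbl (b : κ → ℕ) : qJ (Sum.elim b b) = qJ b * qJ b := by
  unfold qJ
  rw [Fintype.prod_sum_type]
  rfl

end dbl

/-- **The second moment.** -/
theorem secondK (κ ν : Type) [Fintype κ] [Fintype ν] (b : κ → ℕ) (δ : ℝ) (hδ : 0 < δ) :
    ∃ R₀ : ℕ, ∀ R : ℕ, R₀ ≤ R →
    ∀ (I : Type) [Fintype I] (J P : Finset I) (ks : κ → I) (G : I → I → ZMod 3)
      (a : κ → ν → ZMod 3) (m : κ → I → ZMod 3) (K : ℕ) (A : Finset (I → ν → ZMod 3)),
      12 * Fintype.card κ + 4 ≤ K → DatK J P ks G a m K R →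
    ∑ α : I → I → ZMod 3, (∑ e ∈ A, (oneJ b (coJ (fK P a m e) ks (mx J G α)) - qJ b)) ^ 2 ≤
      NT I * (δ * NV I ν ^ 2) := by
  obtain ⟨R₁, hR₁⟩ := firstK (κ ⊕ κ) (ν ⊕ ν) (Sum.elim b b) (δ / 3) (by linarith)
  obtain ⟨R₂, hR₂⟩ := firstK κ ν b (δ / 3) (by linarith)
  refine ⟨max R₁ R₂, fun R hR I _ J P ks G a m K A hK h => ?_⟩
  have hN := NT_pos I
  have hV := NV_pos (I := I) (ν := ν)
  have hcc : Fintype.card (κ ⊕ κ) = Fintype.card κ + Fintype.card κ := Fintype.card_sum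
  have h1 := hR₁ R ((le_max_left _ _).trans hR) I J P (Sum.elim ks ks) G (a2 a) (Sum.elim m m) K
    (by rw [hcc]; omega) (dat_dbl h)
  have h2 := hR₂ R ((le_max_right _ _).trans hR) I J P ks G a m K (by omega) h
  rw [NV_dbl] at h1
  obtain ⟨x, hx⟩ : ∃ x : (I → ν → ZMod 3) → (I → I → ZMod 3) → ℝ, x = fun e α =>
    oneJ b (coJ (fK P a m e) ks (mx J G α)) - qJ b := ⟨_, rfl⟩
  have e1 : ∑ α : I → I → ZMod 3, (∑ e ∈ A,
      (oneJ b (coJ (fK P a m e) ks (mx J G α)) - qJ b)) ^ 2 =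
      ∑ e ∈ A, ∑ e' ∈ A, ∑ α, x e α * x e' α := by
    have h3 : ∀ α : I → I → ZMod 3, (∑ e ∈ A,
        (oneJ b (coJ (fK P a m e) ks (mx J G α)) - qJ b)) ^ 2 =
        ∑ e ∈ A, ∑ e' ∈ A, x e α * x e' α := by
      intro α
      rw [pow_two, sum_mul_sum, hx]
    rw [sum_congr rfl fun α _ => h3 α, sum_comm]
    refine sum_congr rfl fun e _ => ?_
    rw [sum_comm]
  have hq0 := qJ_ge b
  have hq1 := qJ_le b
  have h3 : ∀ e e' : I → ν → ZMod 3, ∑ α, x e α * x e' α ≤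
      |∑ α : I → I → ZMod 3, (oneJ b (coJ (fK P a m e) ks (mx J G α)) *
        oneJ b (coJ (fK P a m e') ks (mx J G α)) - qJ b * qJ b)| +
      (|∑ α, x e α| + |∑ α, x e' α|) := by
    intro e e'
    have h4 : ∑ α, x e α * x e' α = ∑ α : I → I → ZMod 3,
        (oneJ b (coJ (fK P a m e) ks (mx J G α)) *
        oneJ b (coJ (fK P a m e') ks (mx J G α)) - qJ b * qJ b) - qJ b * ∑ α, x e α -
        qJ b * ∑ α, x e' α := by
      rw [mul_sum, mul_sum, ← sum_sub_distrib, ← sum_sub_distrib]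
      refine sum_congr rfl fun α _ => ?_
      rw [hx]
      ring
    rw [h4]
    have h5 : -(qJ b * ∑ α, x e α) ≤ |∑ α, x e α| := by
      refine (neg_le_abs _).trans ?_
      rw [abs_mul, abs_of_nonneg hq0]
      exact mul_le_of_le_one_left (abs_nonneg _) hq1
    have h6 : -(qJ b * ∑ α, x e' α) ≤ |∑ α, x e' α| := by
      refine (neg_le_abs _).trans ?_
      rw [abs_mul, abs_of_nonneg hq0]
      exact mul_le_of_le_one_left (abs_nonneg _) hq1
    have h7 := le_abs_self (∑ α : I → I → ZMod 3,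
        (oneJ b (coJ (fK P a m e) ks (mx J G α)) *
        oneJ b (coJ (fK P a m e') ks (mx J G α)) - qJ b * qJ b))
    linarith
  have h4 : ∑ e ∈ A, ∑ e' ∈ A, ∑ α, x e α * x e' α ≤ ∑ e, ∑ e',
      (|∑ α : I → I → ZMod 3, (oneJ b (coJ (fK P a m e) ks (mx J G α)) *
        oneJ b (coJ (fK P a m e') ks (mx J G α)) - qJ b * qJ b)| +
      (|∑ α, x e α| + |∑ α, x e' α|)) := by
    have h5 : ∀ e e' : I → ν → ZMod 3, 0 ≤
      (|∑ α : I → I → ZMod 3, (oneJ b (coJ (fK P a m e) ks (mx J G α)) *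
        oneJ b (coJ (fK P a m e') ks (mx J G α)) - qJ b * qJ b)| +
      (|∑ α, x e α| + |∑ α, x e' α|)) := fun e e' => by positivity
    refine le_trans (sum_le_sum fun e _ => ?_) (sum_le_sum_of_subset_of_nonneg (subset_univ A)
      fun e _ _ => sum_nonneg fun e' _ => h5 e e')
    exact le_trans (sum_le_sum fun e' _ => h3 e e')
      (sum_le_sum_of_subset_of_nonneg (subset_univ A) fun e' _ _ => h5 e e')
  rw [e1]
  refine h4.trans ?_
  have e2 : ∑ e : I → ν → ZMod 3, ∑ e' : I → ν → ZMod 3,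
      |∑ α : I → I → ZMod 3, (oneJ b (coJ (fK P a m e) ks (mx J G α)) *
        oneJ b (coJ (fK P a m e') ks (mx J G α)) - qJ b * qJ b)| ≤
      NT I * (δ / 3 * NV I ν ^ 2) := by
    refine le_trans (le_of_eq ?_) h1
    rw [← Fintype.sum_prod_type (f := fun p : (I → ν → ZMod 3) × (I → ν → ZMod 3) =>
      |∑ α : I → I → ZMod 3, (oneJ b (coJ (fK P a m p.1) ks (mx J G α)) *
        oneJ b (coJ (fK P a m p.2) ks (mx J G α)) - qJ b * qJ b)|)]
    symm
    refine sum_gen (eqd I ν) _ _ fun e => ?_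
    congr 1
    refine sum_congr rfl fun α _ => ?_
    rw [oneJ_dbl, qJ_dbl]
  have e3 : ∑ e : I → ν → ZMod 3, |∑ α, x e α| ≤ NT I * (δ / 3 * NV I ν) := by
    rw [hx]
    exact h2
  simp_rw [sum_add_distrib]
  have e4 : ∑ e : I → ν → ZMod 3, ∑ _e' : I → ν → ZMod 3, |∑ α, x e α| =
      NV I ν * ∑ e : I → ν → ZMod 3, |∑ α, x e α| := by
    rw [mul_sum]
    refine sum_congr rfl fun e _ => ?_
    rw [sum_const, card_univ, nsmul_eq_mul]
    rfl
  have e5 : ∑ _e : I → ν → ZMod 3, ∑ e' : I → ν → ZMod 3, |∑ α, x e' α| =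
      NV I ν * ∑ e : I → ν → ZMod 3, |∑ α, x e α| := by
    rw [sum_const, card_univ, nsmul_eq_mul]
    rfl
  rw [e4, e5]
  have e6 := mul_le_mul_of_nonneg_left e3 hV.le
  nlinarith

/-- **The local theorem.** -/
theorem locK (κ ν : Type) [Fintype κ] [Fintype ν] (B : ℕ) (ε : ℝ) (hε : 0 < ε) :
    ∃ R₀ : ℕ, ∀ R : ℕ, R₀ ≤ R →
    ∀ (I : Type) [Fintype I] (J P : Finset I) (ks : κ → I) (G : I → I → ZMod 3)
      (a : κ → ν → ZMod 3) (m : κ → I → ZMod 3) (K : ℕ) (A : Finset (I → ν → ZMod 3)),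
      12 * Fintype.card κ + 4 ≤ K → DatK J P ks G a m K R →
      NV I ν ≤ 3 ^ Fintype.card ν * A.card →
    ((univ.filter fun α : I → I → ZMod 3 =>
      ¬ GoodJ B ε A (fun e => coJ (fK P a m e) ks (mx J G α))).card : ℝ) ≤ ε * NT I := by
  obtain ⟨T, hT⟩ : ∃ T : ℝ, T = 3 ^ Fintype.card ν := ⟨_, rfl⟩
  have hT0 : 0 < T := by rw [hT]; positivity
  rw [← hT]
  obtain ⟨Q, hQ⟩ : ∃ Q : Finset (κ → ℕ), Q = Fintype.piFinset fun _ => range B := ⟨_, rfl⟩
  obtain ⟨δ, hδ⟩ : ∃ δ : ℝ, δ = ε * ε ^ 2 / (T ^ 2 * (Q.card + 1)) := ⟨_, rfl⟩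
  have hδ0 : 0 < δ := by rw [hδ]; positivity
  choose R₁ hR₁ using fun b => secondK κ ν b δ hδ0
  refine ⟨Q.sup R₁, fun R hR I _ J P ks G a' m K A hK h hA => ?_⟩
  have hN := NT_pos I
  have hE := NV_pos (I := I) (ν := ν)
  have hA0 : (0 : ℝ) < A.card := by
    by_contra hc
    have : (A.card : ℝ) = 0 := le_antisymm (not_lt.1 hc) (Nat.cast_nonneg _)
    rw [this, mul_zero] at hA
    linarith
  obtain ⟨a, ha⟩ : ∃ a : ℝ, a = A.card := ⟨_, rfl⟩
  rw [← ha] at hA hA0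
  obtain ⟨S, hS⟩ : ∃ S : (κ → ℕ) → (I → I → ZMod 3) → ℝ, S = fun b α =>
    ∑ e ∈ A, (oneJ b (coJ (fK P a' m e) ks (mx J G α)) - qJ b) := ⟨_, rfl⟩
  have h1 : (univ.filter fun α : I → I → ZMod 3 =>
      ¬ GoodJ B ε A (fun e => coJ (fK P a' m e) ks (mx J G α))) ⊆
      Q.biUnion fun b => univ.filter fun α => ε * a < |S b α| := by
    intro α hα
    rw [mem_filter] at hα
    have h2 := hα.2
    unfold GoodJ at h2
    push Not at h2
    obtain ⟨b, hb, h3⟩ := h2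
    rw [mem_biUnion]
    refine ⟨b, ?_, mem_filter.2 ⟨mem_univ _, ?_⟩⟩
    · rw [hQ, Fintype.mem_piFinset]
      exact fun k => mem_range.2 (hb k)
    · rw [ha, hS]
      exact h3
  have h2 : ∀ b ∈ Q, ((univ.filter fun α => ε * a < |S b α|).card : ℝ) ≤
      ε / (Q.card + 1) * NT I := by
    intro b hb
    have h3 := hR₁ b R ((le_sup (f := R₁) hb).trans hR) I J P ks G a' m K A hK h
    have h4 := markov (F := fun α => (S b α) ^ 2) (fun α => sq_nonneg _)
      (t := (ε * a) ^ 2) (X := NT I * (δ * NV I ν ^ 2)) (by rw [hS]; exact h3)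
      (fun α => ε * a < |S b α|) (fun α hα => by
        rw [← sq_abs (S b α)]
        exact pow_le_pow_left₀ (by positivity) hα.le 2)
    have h5 : NV I ν ^ 2 ≤ T ^ 2 * a ^ 2 := by
      rw [← mul_pow]
      exact pow_le_pow_left₀ hE.le hA 2
    have h6 : NT I * (δ * NV I ν ^ 2) ≤ (ε / (Q.card + 1) * NT I) * (ε * a) ^ 2 := by
      calc NT I * (δ * NV I ν ^ 2) ≤ NT I * (δ * (T ^ 2 * a ^ 2)) := by gcongr
        _ = (ε / (Q.card + 1) * NT I) * (ε * a) ^ 2 := by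
          rw [hδ]
          field_simp
    have h7 : (0 : ℝ) < (ε * a) ^ 2 := by positivity
    exact le_of_mul_le_mul_right (h4.trans h6) h7
  have h3 : ((univ.filter fun α : I → I → ZMod 3 =>
      ¬ GoodJ B ε A (fun e => coJ (fK P a' m e) ks (mx J G α))).card : ℝ) ≤
      ∑ b ∈ Q, ((univ.filter fun α => ε * a < |S b α|).card : ℝ) := by
    have h4 := (card_le_card h1).trans card_biUnion_le
    exact_mod_cast h4
  refine h3.trans ((sum_le_sum h2).trans ?_)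
  rw [sum_const, nsmul_eq_mul]
  have h4 : (Q.card : ℝ) * (ε / (Q.card + 1) * NT I) =
      (Q.card / (Q.card + 1)) * (ε * NT I) := by
    field_simp
  rw [h4]
  refine mul_le_of_le_one_left (by positivity) ?_
  rw [div_le_one (by positivity)]
  linarith

/-- the local theorem without decidability -/
theorem locK' (κ ν : Type) [Fintype κ] [Fintype ν] (B : ℕ) (ε : ℝ) (hε : 0 < ε) :
    ∃ R₀ : ℕ, ∀ R : ℕ, R₀ ≤ R →
    ∀ (I : Type) [Fintype I] (J P : Finset I) (ks : κ → I) (G : I → I → ZMod 3)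
      (a : κ → ν → ZMod 3) (m : κ → I → ZMod 3) (K : ℕ) (A : Finset (I → ν → ZMod 3)),
      12 * Fintype.card κ + 4 ≤ K → DatK J P ks G a m K R →
      (3 : ℝ) ^ (Fintype.card I * Fintype.card ν) ≤ 3 ^ Fintype.card ν * A.card →
    (Nat.card {α : I → I → ZMod 3 //
      ¬ GoodJ B ε A (fun e => coJ (fK P a m e) ks (mx J G α))} : ℝ) ≤
      ε * Nat.card (I → I → ZMod 3) := by
  obtain ⟨R₀, h⟩ := locK κ ν B ε hε
  refine ⟨R₀, fun R hR I _ J P ks G a m K A hK hD hA => ?_⟩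
  have h1 := h R hR I J P ks G a m K A hK hD (by
    refine le_trans (le_of_eq ?_) hA
    unfold NV
    rw [Fintype.card_fun, Fintype.card_fun, ZMod.card, ← pow_mul, mul_comm]
    push_cast
    rfl)
  rw [NT_eq, ncI] at h1
  exact h1

/-- the data, without decidability -/
theorem mkDatK {κ ν I : Type} [Fintype κ] [Fintype ν] [Fintype I] {J P : Finset I} {ks : κ → I}
    {G : I → I → ZMod 3} {a : κ → ν → ZMod 3} {m : κ → I → ZMod 3} {K R u : ℕ}
    (hu : u + J.card = Fintype.card I) (hu1 : 1 ≤ u)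
    (sub : J ⊆ P) (ksP : ∀ k, ks k ∉ P)
    (mks : ∀ k, m k (ks k) ≠ 0) (mJ : ∀ k, ∀ i ∈ J, m k i = 0)
    (ksl : ∀ k l, ks l ≠ ks k → m k (ks l) = 0)
    (hv : ∀ v : I → ZMod 3, (∀ i ∈ J, v i = 0) → (∀ k, v (ks k) = 0) → v ≠ 0 →
      K * u + R ≤ Nat.card {i // i ∈ J ∧ ∑ x, v x * G x i ≠ 0})
    (hw : ∀ w : I → ZMod 3, (∀ i ∈ J, w i = 0) → w ≠ 0 →
      K * u + R ≤ Nat.card {i // i ∈ J ∧ ∑ x, w x * G i x ≠ 0})
    (a0 : ∀ k, a k ≠ 0)
    (ne : ∀ k l, k ≠ l → ∀ s : ZMod 3, s ≠ 0 → a l = s • a k → m l ≠ s • m k) :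
    DatK J P ks G a m K R := by
  have h1 : Jᶜ.card = u := by
    have := card_cpl J
    omega
  have h2 : ∀ T : I → Prop, Nat.card {i // i ∈ J ∧ T i} = (J.filter T).card := by
    intro T
    rw [nc]
    congr 1
    ext i
    simp
  refine ⟨sub, ksP, mks, mJ, ksl, fun v h3 h4 => ?_, fun w h3 h4 => ?_, ?_, a0, ne⟩
  · rw [h1]
    exact ((hv v (mem_off.1 h3) h4.1 h4.2).trans (le_of_eq (h2 _))).trans (le_of_eq fcc)
  · rw [h1]
    exact ((hw w (mem_off.1 h3) h4).trans (le_of_eq (h2 _))).trans (le_of_eq fcc)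
  · rw [h1]
    obtain ⟨i, hi⟩ := card_pos.1 (show 0 < Jᶜ.card by omega)
    rw [mem_compl] at hi
    have h3 := hw (Pi.single i 1) (fun j hj => Pi.single_eq_of_ne
      (fun h' : j = i => hi (h' ▸ hj)) _) (by
      intro h'
      have := congrFun h' i
      rw [Pi.single_eq_same] at this
      exact one_ne_zero this)
    rw [h2] at h3
    exact h3.trans (le_of_eq_of_le fcc (card_filter_le J _))

end Q283.NK
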