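import Pool.Agent.Q283.NK.B1
import Pool.Agent.Q283.NK.C1
import Pool.Agent.Q283.NJ.D2

/-! Tuples of exponents: the law over the tuples of exponents in a box of primes -/

set_option autoImplicit false
set_option linter.unusedSectionVars false

open scoped Classical

namespace Q283.NK

open Finset Module
open Q283.Q3 (cq cq_ge cq_le KT mem_KT NdM LN ndM_iff phi phi_bij mod3')
open Q283.ND (mx sp mem_sp fcc nc ncI off mem_off one ef co ro Sy mem_Sy Sy_diag xe ck Ax mod9_iff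
  third Jx mem_Jx inl_Jx inr_Jx card_Jx card_cJx Px inl_Px inr_Px Gx mm vx lf rpx rpx_surj co_lf fib
  rho rho_surj exE mem_P prod_P sub_sum inj_count mem_prs)
open Q283.NJ (oneJ coJ qJ GoodJ GoodJ.mono good_trJ kt_coJ)
open Pool.Agent.Y703.CX (lam HB S_EQ prs)
open Pool.Agent.Y911.CX (lb HB_sub)

/-- the tuples of exponents with given residue classes of the products modulo `9` -/
noncomputable def AxK {ν : Type} [Fintype ν] (k : ν → ℕ) (S : Finset ℕ) : Finset (S → ν → ZMod 3) :=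
  univ.filter fun e => ∀ n, (∏ p : S, (p : ℕ) ^ (e p n).val) % 9 = k n

section all
variable {κ ν : Type} [Fintype κ] [Fintype ν]

/-- the property of a set of primes -/
def TSK (k : ν → ℕ) (W : Finset ℕ) (a : κ → ν → ZMod 3) (m : κ → ℕ → ZMod 3) (B : ℕ) (ε : ℝ)
    (S : Finset ℕ) : Prop :=
  GoodJ B ε (AxK k S) (fun e j => ck S W (m j) (lin (a j) e))

/-- the data of the bases -/
structure BeK (W : Finset ℕ) (a : κ → ν → ZMod 3) (m : κ → ℕ → ZMod 3) (r : κ → ℕ) : Prop where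
  pr : ∀ u ∈ W, u.Prime ∧ u ≠ 3
  rW : ∀ k, r k ∈ W
  r2 : ∀ k, r k % 3 = 2
  ot : ∀ u ∈ W, (∀ k, u ≠ r k) → u % 3 = 1
  mr : ∀ k, m k (r k) ≠ 0
  mW : ∀ k u, u ∉ W → m k u = 0
  ml : ∀ k l, r l ≠ r k → m k (r l) = 0
  a0 : ∀ k, a k ≠ 0
  ne : ∀ k l, k ≠ l → ∀ s : ZMod 3, s ≠ 0 → a l = s • a k → m l ≠ s • m k

section box
variable {ι : Type} [Fintype ι] {U : Finset ℕ}

/-- the share of the bad tables -/
theorem share_leK (B : ℕ) (ε δ : ℝ) (ks : κ → ↥U ⊕ ι) (P : Finset (↥U ⊕ ι)) (a : κ → ν → ZMod 3)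
    (m : κ → ↥U ⊕ ι → ZMod 3)
    (G : ↥U ⊕ ι → ↥U ⊕ ι → ZMod 3) (A : Finset (↥U ⊕ ι → ν → ZMod 3))
    (h : (Nat.card {α : ↥U ⊕ ι → ↥U ⊕ ι → ZMod 3 //
      ¬ GoodJ B ε A (fun e => coJ (fK P a m e) ks (mx (Jx U ι) G α))} : ℝ) ≤
      δ * Nat.card (↥U ⊕ ι → ↥U ⊕ ι → ZMod 3)) :
    ((univ.filter fun g : prs (univ : Finset ι) → ZMod 3 =>
      ¬ GoodJ B ε A (fun e => coJ (fK P a m e) ks (mx (Jx U ι) G (lf U g)))).card : ℝ) /
        3 ^ (prs (univ : Finset ι)).card ≤ δ := by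
  have h1 := fib (rpx U ι) rpx_surj (fun g =>
    ¬ GoodJ B ε A (fun e => coJ (fK P a m e) ks (mx (Jx U ι) G (lf U g))))
  have h2 : Nat.card {α : ↥U ⊕ ι → ↥U ⊕ ι → ZMod 3 //
      ¬ GoodJ B ε A (fun e => coJ (fK P a m e) ks (mx (Jx U ι) G (lf U (rpx U ι α))))} =
      Nat.card {α : ↥U ⊕ ι → ↥U ⊕ ι → ZMod 3 //
      ¬ GoodJ B ε A (fun e => coJ (fK P a m e) ks (mx (Jx U ι) G α))} := by
    have h0 : ∀ α : ↥U ⊕ ι → ↥U ⊕ ι → ZMod 3,
        (fun e => coJ (fK P a m e) ks (mx (Jx U ι) G (lf U (rpx U ι α)))) =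
        fun e => coJ (fK P a m e) ks (mx (Jx U ι) G α) := by
      intro α
      funext e k
      exact co_lf _ _ _ _
    exact Nat.card_congr (Equiv.subtypeEquivRight fun α => by rw [h0 α])
  have hpc : Nat.card (prs (univ : Finset ι) → ZMod 3) = 3 ^ (prs (univ : Finset ι)).card := by
    rw [Nat.card_fun, Nat.card_zmod, Nat.card_eq_fintype_card (α := ↥(prs (univ : Finset ι))),
      Fintype.card_coe]
  have h3 : (univ.filter fun g : prs (univ : Finset ι) → ZMod 3 =>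
      ¬ GoodJ B ε A (fun e => coJ (fK P a m e) ks (mx (Jx U ι) G (lf U g)))).card =
      Nat.card {g : prs (univ : Finset ι) → ZMod 3 //
      ¬ GoodJ B ε A (fun e => coJ (fK P a m e) ks (mx (Jx U ι) G (lf U g)))} := ncI
  rw [h2, hpc, ← h3] at h1
  have hN : (0 : ℝ) < Nat.card (↥U ⊕ ι → ↥U ⊕ ι → ZMod 3) := by
    exact_mod_cast Nat.card_pos
  have h3p : (0 : ℝ) < 3 ^ (prs (univ : Finset ι)).card := by positivity
  rw [div_le_iff₀ h3p]
  have h4 := mul_le_mul_of_nonneg_right h h3p.le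
  have h5 : (Nat.card {α : ↥U ⊕ ι → ↥U ⊕ ι → ZMod 3 //
      ¬ GoodJ B ε A (fun e => coJ (fK P a m e) ks (mx (Jx U ι) G α))} : ℝ) *
        3 ^ (prs (univ : Finset ι)).card =
      ((univ.filter fun g : prs (univ : Finset ι) → ZMod 3 =>
      ¬ GoodJ B ε A (fun e => coJ (fK P a m e) ks (mx (Jx U ι) G (lf U g)))).card : ℝ) *
        Nat.card (↥U ⊕ ι → ↥U ⊕ ι → ZMod 3) := by
    exact_mod_cast h1
  rw [h5] at h4
  have h6 : ((univ.filter fun g : prs (univ : Finset ι) → ZMod 3 =>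
      ¬ GoodJ B ε A (fun e => coJ (fK P a m e) ks (mx (Jx U ι) G (lf U g)))).card : ℝ) *
        Nat.card (↥U ⊕ ι → ↥U ⊕ ι → ZMod 3) ≤
      (δ * 3 ^ (prs (univ : Finset ι)).card) * Nat.card (↥U ⊕ ι → ↥U ⊕ ι → ZMod 3) := by
    linarith
  exact le_of_mul_le_mul_right h6 hN

end box

section lk
variable {ι : Type} [Fintype ι] {S W : Finset ℕ} {p : ι → ℕ}

theorem mod_iffK {a : κ → ν → ZMod 3} {m : κ → ℕ → ZMod 3} {r : κ → ℕ} (hb : BeK W a m r)
    (hS : ∀ u ∈ S, u % 3 = 1) (j : κ)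
    {u : ℕ} (hu : u ∈ S ∪ W) (h : m j u ≠ 0 ∨ u ∈ S) : u % 3 = 1 ↔ u ≠ r j := by
  constructor
  · rintro h1 rfl
    have := hb.r2 j
    omega
  · intro h1
    by_cases huS : u ∈ S
    · exact hS u huS
    · have huW : u ∈ W := (mem_union.1 hu).resolve_left huS
      refine hb.ot u huW fun l hl => ?_
      have h2 : m j u ≠ 0 := h.resolve_right huS
      by_cases h3 : r l = r j
      · exact h1 (hl.trans h3)
      · exact h2 (by rw [hl]; exact hb.ml j l h3)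

/-- the restriction of the tuples of exponents to the primes of the set -/
noncomputable def rhoK (ν : Type) (S W : Finset ℕ) (p : ι → ℕ)
    (E : ↥(S ∪ W) ⊕ ι ≃ ↥((S ∪ univ.image p) ∪ W)) :
    (↥(S ∪ W) ⊕ ι → ν → ZMod 3) →+ (↥(S ∪ univ.image p) → ν → ZMod 3) where
  toFun := fun e d => e (E.symm ⟨d, mem_union_left _ d.2⟩)
  map_zero' := rfl
  map_add' := fun _ _ => rfl

theorem rhoK_surj (E : ↥(S ∪ W) ⊕ ι ≃ ↥((S ∪ univ.image p) ∪ W)) :
    Function.Surjective (rhoK ν S W p E) := by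
  intro g
  choose f hf using fun n => rho_surj E fun d => g d n
  refine ⟨fun i n => f n i, ?_⟩
  funext d n
  exact congrFun (hf n) d

theorem rhoK_apply (E : ↥(S ∪ W) ⊕ ι ≃ ↥((S ∪ univ.image p) ∪ W))
    (e : ↥(S ∪ W) ⊕ ι → ν → ZMod 3) (d : ↥(S ∪ univ.image p)) (n : ν) :
    rhoK ν S W p E e d n = rho S W p E (fun i => e i n) d := rfl

theorem lin_rho (E : ↥(S ∪ W) ⊕ ι ≃ ↥((S ∪ univ.image p) ∪ W))
    (b : ν → ZMod 3) (e : ↥(S ∪ W) ⊕ ι → ν → ZMod 3) :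
    lin b (rhoK ν S W p E e) = rho S W p E (lin b e) := rfl

/-- **The link.** -/
theorem ts_iffK (hp : Function.Injective p) (hd : ∀ i, p i ∉ S ∪ W) {k : ν → ℕ}
    (hk9 : ∀ n, k n < 9) {a : κ → ν → ZMod 3}
    {m : κ → ℕ → ZMod 3} {r : κ → ℕ} (hb : BeK W a m r) (hS : ∀ u ∈ S, u % 3 = 1)
    (hp1 : ∀ i, p i % 3 = 1)
    {κ9 : ι → ℕ} (hκ : ∀ k, p k % 9 = κ9 k) (B : ℕ) (ε : ℝ)
    (A : Finset (↥(S ∪ W) ⊕ ι → ν → ZMod 3))
    (hA : ∀ e, e ∈ A ↔ ∀ n, (∏ i ∈ Px (S ∪ W) S ι, vx (S ∪ W) κ9 i ^ (e i n).val) % 9 = k n) :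
    TSK k W a m B ε (S ∪ univ.image p) ↔
      GoodJ B ε A (fun e => coJ (fK (Px (S ∪ W) S ι) a (fun j => mm (S ∪ W) ι (m j)) e)
        (fun j => Sum.inl ⟨r j, mem_union_right _ (hb.rW j)⟩)
        (mx (Jx (S ∪ W) ι) (Gx (S ∪ W) (fun u v => lam u v)
          (fun k => (fun u => lam u (p k), fun u => lam (p k) u)))
          (lf (S ∪ W) fun e => lam (p e.1.1) (p e.1.2)))) := by
  obtain ⟨E, hE1, hE2⟩ := exE hp hd
  unfold TSK
  have hρA : ∀ e, e ∈ A ↔ rhoK ν S W p E e ∈ AxK k (S ∪ univ.image p) := by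
    intro e
    rw [hA]
    unfold AxK
    rw [mem_filter, and_iff_right (mem_univ _)]
    refine forall_congr' fun n => ?_
    rw [mod9_iff (hk9 n), mod9_iff (hk9 n)]
    have h1 := prod_P hd E hE1 hE2 hκ (fun i => e i n)
    rw [← h1]
    exact Iff.rfl
  rw [← good_trJ (rhoK ν S W p E) (rhoK_surj E) _ A hρA]
  have hxe : ∀ (j : κ) (e : ↥(S ∪ W) ⊕ ι → ZMod 3) (i : ↥(S ∪ W) ⊕ ι),
      xe (S ∪ univ.image p) (m j) (rho S W p E e) (E i) =
      ef (Px (S ∪ W) S ι) (mm (S ∪ W) ι (m j)) e i := by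
    intro j e i
    unfold xe ef
    congr 1
    · by_cases h : (E i : ℕ) ∈ S ∪ univ.image p
      · rw [dif_pos h, if_pos ((mem_P hd E hE1 hE2 i).1 h)]
        show e (E.symm ⟨(E i : ℕ), _⟩) = e i
        congr 1
        rw [Equiv.symm_apply_eq]
      · rw [dif_neg h, if_neg fun h' => h ((mem_P hd E hE1 hE2 i).2 h')]
    · rcases i with u | k
      · rw [hE1]
        rfl
      · rw [hE2]
        exact hb.mW j _ fun h => hd k (mem_union_right _ h)
  have hk : ∀ (j : κ) (e : ↥(S ∪ W) ⊕ ι → ZMod 3) (i : ↥(S ∪ W) ⊕ ι),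
      xe (S ∪ univ.image p) (m j) (rho S W p E e) (E i) ≠ 0 → ((E i : ℕ) % 3 = 1 ↔
      i ≠ Sum.inl ⟨r j, mem_union_right _ (hb.rW j)⟩) := by
    intro j e i hi
    rw [hxe] at hi
    rcases i with u | k
    · have h1 : m j u ≠ 0 ∨ (u : ℕ) ∈ S := by
        by_contra hc
        push Not at hc
        apply hi
        unfold ef
        rw [if_neg (by rw [inl_Px]; exact hc.2), zero_add]
        exact hc.1
      rw [hE1, mod_iffK hb hS j u.2 h1]
      constructor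
      · intro h h'
        exact h (congrArg Subtype.val (Sum.inl_injective h'))
      · intro h h'
        exact h (congrArg Sum.inl (Subtype.ext h'))
    · rw [hE2]
      exact ⟨fun _ => by simp, fun _ => hp1 k⟩
  have hkey : ∀ (j : κ) (e : ↥(S ∪ W) ⊕ ι → ZMod 3),
      ck (S ∪ univ.image p) W (m j) (rho S W p E e) =
      co (ef (Px (S ∪ W) S ι) (mm (S ∪ W) ι (m j)) e) (Sum.inl ⟨r j, mem_union_right _ (hb.rW j)⟩)
        (mx (Jx (S ∪ W) ι) (Gx (S ∪ W) (fun u v => lam u v)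
          (fun k => (fun u => lam u (p k), fun u => lam (p k) u)))
          (lf (S ∪ W) fun e => lam (p e.1.1) (p e.1.2))) := by
    intro j e
    have h1 := kt_coJ E (xe (S ∪ univ.image p) (m j) (rho S W p E e)) (hk j e) (by
      rw [hxe]
      unfold ef
      have hrS : r j ∉ S := fun h => by
        have := hS (r j) h
        have := hb.r2 j
        omega
      rw [if_neg (by rw [inl_Px]; exact hrS), zero_add]
      exact hb.mr j)
    unfold ck
    rw [h1, Nat.add_sub_cancel]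
    simp only [hxe]
    unfold co
    rw [Sy_diag]
    intro i j hij
    rcases i with u | k <;> rcases j with v | l
    · rw [hE1, hE1]
      unfold mx
      rw [if_neg fun h => inl_Jx u h.1]
      rfl
    · rw [hE1, hE2]
      unfold mx
      rw [if_neg fun h => inl_Jx u h.1]
      rfl
    · rw [hE2, hE1]
      unfold mx
      rw [if_neg fun h => inl_Jx v h.2]
      rfl
    · rw [hE2, hE2]
      unfold mx
      rw [if_pos ⟨inr_Jx k, inr_Jx l⟩]
      show lam (p k) (p l) = Pool.Agent.Y703.CX.ext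
        (fun e : prs (univ : Finset ι) => lam (p e.1.1) (p e.1.2)) k l
      unfold Pool.Agent.Y703.CX.ext
      rw [dif_pos (mem_prs.2 ⟨mem_univ _, fun h => hij (congrArg Sum.inr (Eq.symm h))⟩)]
  have hkey' : ∀ (e : ↥(S ∪ W) ⊕ ι → ν → ZMod 3),
      (fun j => ck (S ∪ univ.image p) W (m j) (lin (a j) (rhoK ν S W p E e))) =
      coJ (fK (Px (S ∪ W) S ι) a (fun j => mm (S ∪ W) ι (m j)) e)
        (fun j => Sum.inl ⟨r j, mem_union_right _ (hb.rW j)⟩)
        (mx (Jx (S ∪ W) ι) (Gx (S ∪ W) (fun u v => lam u v)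
          (fun k => (fun u => lam u (p k), fun u => lam (p k) u)))
          (lf (S ∪ W) fun e => lam (p e.1.1) (p e.1.2))) := by
    intro e
    funext j
    rw [lin_rho, hkey]
    rfl
  exact Iff.of_eq (congrArg (GoodJ B ε A) (funext hkey'))

end lk

end all

end Q283.NK
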