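import Pool.Agent.Q283.NK.D4
import Pool.Agent.Q283.NJ.E1

/-! Tuples of exponents: almost all numbers `D` with all prime factors `≡ 1` modulo `3` -/

set_option autoImplicit false
set_option linter.unusedSectionVars false

open scoped Classical
open Finset Filter

namespace Q283.NK

open Module
open Q283.Q3N (fe fe_ne fe_mul fe_cube fe_pow fe_one)
open Q283.Q3 (mod3' KT mem_KT)
open Q283.Q3B (rr)
open Q283.NJ (oneJ qJ GoodJ WN mem_WN fe_injB kt_sub ck_sub)
open Pool.Agent.Y703.CX (SS Cl eL X_pos rpow_eL ev_eL lam)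
open Pool.Agent.Y703.CT (Cls Base)
open Q155.NL (Alm cnt cs mem_cs alm_finset alm_mono alm_true)
open Q283.ND (Dc DS_eq prod_mod3 ins_mem card_aux low_D xe ck Ax cf cf_mul cf_ne cf_free fe_cf Dk
  Dk_eq dv dv_inj dv_dvd fe_dv ck_rr)

section all
variable {κ ν : Type} [Fintype κ] [Fintype ν]

/-- the property of a number -/
def TDK (k : ν → ℕ) (N : κ → ℕ) (a : κ → ν → ZMod 3) (B : ℕ) (ε : ℝ) (D : ℕ) : Prop :=
  TSK k (WN N) a (fun j => fe (N j)) B ε D.primeFactors

/-- the independent families -/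
def Ind (N : κ → ℕ) (a : κ → ν → ZMod 3) : Prop :=
  (∀ j, a j ≠ 0) ∧ ∀ j l, j ≠ l → ∀ s : ZMod 3, s ≠ 0 → a l = s • a j → fe (N l) ≠ s • fe (N j)

/-- the data of the bases -/
theorem beK_of {N : κ → ℕ} {a : κ → ν → ZMod 3} (hC : ∀ j, Cls (N j)) (hN : Ind N a) :
    ∃ r, BeK (WN N) a (fun j => fe (N j)) r := by
  choose r hr hr2 hrN hru using fun j => (hC j).2.2.2
  have hb : ∀ j, Base (N j) := fun j => (hC j).1
  refine ⟨r, ⟨fun u hu => ?_, fun k => ?_, hr2, fun u hu hne => ?_, fun k => ?_, fun k u hu => ?_,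
    fun k l hkl => ?_, hN.1, hN.2⟩⟩
  · obtain ⟨j, hj⟩ := mem_WN.1 hu
    refine ⟨Nat.prime_of_mem_primeFactors hj, ?_⟩
    rintro rfl
    exact (hb j).2.1 (Nat.dvd_of_mem_primeFactors hj)
  · exact mem_WN.2 ⟨k, Nat.mem_primeFactors.2 ⟨hr k, hrN k, (hb k).1⟩⟩
  · obtain ⟨j, hj⟩ := mem_WN.1 hu
    exact hru j u (Nat.prime_of_mem_primeFactors hj) (Nat.dvd_of_mem_primeFactors hj) (hne j)
  · exact (fe_ne (hb k)).2 (Nat.mem_primeFactors.2 ⟨hr k, hrN k, (hb k).1⟩)
  · by_contra h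
    exact hu (mem_WN.2 ⟨k, (fe_ne (hb k)).1 h⟩)
  · by_contra h
    have h1 := (fe_ne (hb k)).1 h
    have h2 := hru k (r l) (hr l) (Nat.dvd_of_mem_primeFactors h1) hkl
    have h3 := hr2 l
    omega

/-- **Almost all numbers have the property.** -/
theorem alm_TDK [Nonempty κ] {k : ν → ℕ} (hk : ∀ n, k n < 9) {N : κ → ℕ} {a : κ → ν → ZMod 3}
    (hC : ∀ j, Cls (N j)) (hN : Ind N a) (B : ℕ) (ε : ℝ) (hε : 0 < ε) :
    Alm Dc (TDK k N a B ε) := by
  obtain ⟨r, hb⟩ := beK_of hC hN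
  obtain ⟨c, X₀, hc, hlow⟩ := low_D
  intro δ hδ
  obtain ⟨η, hη⟩ : ∃ η : ℝ, η = δ / (2 + 7 / c) := ⟨_, rfl⟩
  have hη0 : 0 < η := by rw [hη]; positivity
  have h2 := asyK hk hb 2 (by norm_num) B ε hε η hη0
  have h5 := asyK hk hb 5 (by norm_num) B ε hε η hη0
  have t2 : Tendsto (fun X : ℕ => 2 * X) atTop atTop := tendsto_id.const_mul_atTop' (by norm_num)
  have t5 : Tendsto (fun X : ℕ => 5 * X) atTop atTop := tendsto_id.const_mul_atTop' (by norm_num)
  filter_upwards [t2.eventually h2, t5.eventually h5, ev_eL 1, eventually_ge_atTop X₀,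
    eventually_ge_atTop 3] with X g2 g5 hl hX0 hX3
  have hl0 : 0 < eL X := by linarith
  have hXp : (0 : ℝ) < X := by exact_mod_cast (by omega : 0 < X)
  have hlo := hlow X hX0
  rw [rpow_eL hl0, DS_eq] at hlo
  have hlX : 0 < Real.log X := Real.log_pos (by exact_mod_cast (by omega : 1 < X))
  -- the error terms
  have herr : ∀ q : ℕ, 1 ≤ q → Real.exp (-(eL (q * X)) / 2) ≤ Real.exp (-(1 / 2) * eL X) := by
    intro q hq
    apply Real.exp_le_exp.2
    have h1 : eL X ≤ eL (q * X) := by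
      unfold eL
      refine Real.log_le_log hlX (Real.log_le_log hXp ?_)
      exact_mod_cast Nat.le_mul_of_pos_left X (by omega)
    linarith
  have hbound : ∀ q : ℕ, q.Prime → q % 3 = 2 →
      (((SS (q * X)).filter fun S => q ∈ S ∧
        ¬ TSK k (WN N) a (fun j => fe (N j)) B ε (S.erase q)).card : ℝ) ≤
      η * (((SS (q * X)).filter fun S => q ∈ S).card : ℝ) +
        η * (((q * X : ℕ) : ℝ) * Real.exp (-(eL (q * X)) / 2)) →
      (((SS (q * X)).filter fun S => q ∈ S ∧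
        ¬ TSK k (WN N) a (fun j => fe (N j)) B ε (S.erase q)).card : ℝ) ≤
      η * (cnt Dc X : ℝ) + η * (q / c) * (cnt Dc X : ℝ) := by
    intro q ha ha2 h
    have h1 : (((SS (q * X)).filter fun S => q ∈ S).card : ℝ) ≤ (cnt Dc X : ℝ) := by
      exact_mod_cast card_aux ha ha2
    have h3 := herr q ha.one_lt.le
    have h4 : (((q * X : ℕ) : ℝ) * Real.exp (-(eL (q * X)) / 2)) ≤ (q / c) * (cnt Dc X : ℝ) := by
      calc (((q * X : ℕ) : ℝ) * Real.exp (-(eL (q * X)) / 2)) ≤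
            ((q * X : ℕ) : ℝ) * Real.exp (-(1 / 2) * eL X) :=
            mul_le_mul_of_nonneg_left h3 (Nat.cast_nonneg _)
        _ = (q / c) * (c * X * Real.exp (-(1 / 2) * eL X)) := by
            push_cast
            field_simp
        _ ≤ _ := mul_le_mul_of_nonneg_left hlo (by positivity)
    have h6 := mul_le_mul_of_nonneg_left h1 hη0.le
    have h7 := mul_le_mul_of_nonneg_left h4 hη0.le
    linarith
  have b2 := hbound 2 Nat.prime_two (by norm_num) g2
  have b5 := hbound 5 Nat.prime_five (by norm_num) g5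
  -- the exceptional numbers
  have hcard : cnt (fun D => Dc D ∧ ¬ TDK k N a B ε D) X ≤
      ((SS (2 * X)).filter fun S => 2 ∈ S ∧
        ¬ TSK k (WN N) a (fun j => fe (N j)) B ε (S.erase 2)).card +
      ((SS (5 * X)).filter fun S => 5 ∈ S ∧
        ¬ TSK k (WN N) a (fun j => fe (N j)) B ε (S.erase 5)).card := by
    have hinj : ∀ q : ℕ, q.Prime → q % 3 = 2 → ((cs (fun D => Dc D ∧ ¬ TDK k N a B ε D) X).filter
        fun D => q * D % 9 ≠ 1 ∧ q * D % 9 ≠ 8).card ≤
        ((SS (q * X)).filter fun S => q ∈ S ∧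
        ¬ TSK k (WN N) a (fun j => fe (N j)) B ε (S.erase q)).card := by
      intro q ha ha2
      refine card_le_card_of_injOn (fun D => insert q D.primeFactors) ?_ ?_
      · intro D hD
        rw [mem_coe, mem_filter, mem_cs] at hD
        obtain ⟨⟨⟨-, hX⟩, hDc, hT⟩, h1, h8⟩ := hD
        obtain ⟨k1, k2⟩ := ins_mem hDc hX ha ha2 h1 h8
        rw [mem_coe, mem_filter]
        refine ⟨k1, mem_insert_self _ _, ?_⟩
        rw [k2]
        exact hT
      · intro D hD D' hD' h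
        rw [mem_coe, mem_filter, mem_cs] at hD hD'
        obtain ⟨-, k2⟩ := ins_mem hD.1.2.1 hD.1.1.2 ha ha2 hD.2.1 hD.2.2
        obtain ⟨-, k2'⟩ := ins_mem hD'.1.2.1 hD'.1.1.2 ha ha2 hD'.2.1 hD'.2.2
        have e1 : D.primeFactors = D'.primeFactors := by
          rw [← k2, ← k2']
          exact congrArg (fun T : Finset ℕ => T.erase q) h
        rw [← Nat.prod_primeFactors_of_squarefree hD.1.2.1.1,
          ← Nat.prod_primeFactors_of_squarefree hD'.1.2.1.1, e1]
    refine le_trans ?_ (Nat.add_le_add (hinj 2 Nat.prime_two (by norm_num))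
      (hinj 5 Nat.prime_five (by norm_num)))
    refine le_trans (card_le_card ?_) (card_union_le _ _)
    intro D hD
    rw [mem_union, mem_filter, mem_filter]
    have hD3 := prod_mod3 (mem_cs.1 hD).2.1
    by_cases h4 : D % 9 = 4
    · right
      exact ⟨hD, by omega, by omega⟩
    · left
      exact ⟨hD, by omega, by omega⟩
  have hcard' : (cnt (fun D => Dc D ∧ ¬ TDK k N a B ε D) X : ℝ) ≤
      (((SS (2 * X)).filter fun S => 2 ∈ S ∧
        ¬ TSK k (WN N) a (fun j => fe (N j)) B ε (S.erase 2)).card : ℝ) +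
      (((SS (5 * X)).filter fun S => 5 ∈ S ∧
        ¬ TSK k (WN N) a (fun j => fe (N j)) B ε (S.erase 5)).card : ℝ) := by exact_mod_cast hcard
  have hfin : η * (cnt Dc X : ℝ) + η * (2 / c) * (cnt Dc X : ℝ) +
      (η * (cnt Dc X : ℝ) + η * (5 / c) * (cnt Dc X : ℝ)) = δ * (cnt Dc X : ℝ) := by
    rw [hη]
    field_simp
    ring
  push_cast at b2 b5
  linarith

end all

end Q283.NK
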