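import Pool.Agent.Q283.NK.D5
import Pool.Agent.Q283.NJ.G2

/-! Tuples of exponents: the joint law over the tuples of divisors of `D²` -/

set_option autoImplicit false
set_option linter.unusedSectionVars false

open scoped Classical
open Finset Filter

namespace Q283.NK

open Module
open Q283.Q3N (fe fe_ne fe_mul fe_cube fe_pow fe_one)
open Q283.Q3 (cq cq_ge cq_le sum_cq)
open Q283.Q3B (rr)
open Q283.NJ (oneJ qJ GoodJ WN mem_WN fe_injB kt_sub ck_sub msJ LwJ lwJ_of_good Ac alm_sp sp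
  sp_split alm_nsplit LwJ.mono Dk_large)
open Pool.Agent.Y703.CT (Cls Base)
open Q155.NL (Alm cnt cs mem_cs alm_finset alm_mono alm_true alm_and exists_dense)
open Q283.ND (Dc xe ck Ax cf cf_mul cf_ne cf_free fe_cf Dk Dk_eq mem_Dk dv dv_inj dv_dvd fe_dv ck_rr)

/-- numbers with the same cube-free part -/
theorem cf_congr {x y : ℕ} (hx : x ≠ 0) (hy : y ≠ 0) (h : ∀ p, fe x p = fe y p) :
    cf x = cf y := by
  have hle : ∀ {x : ℕ}, x ≠ 0 → ∀ p, (cf x).factorization p ≤ 2 := by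
    intro x hx p
    by_contra h3
    by_cases hp : p.Prime
    · exact cf_free x p hp ((pow_dvd_pow p (by omega)).trans (Nat.ordProj_dvd (cf x) p))
    · rw [Nat.factorization_eq_zero_of_not_prime _ hp] at h3
      omega
  refine Nat.eq_of_factorization_eq (cf_ne hx) (cf_ne hy) fun p => ?_
  have h1 : fe (cf x) p = fe (cf y) p := by rw [fe_cf hx, fe_cf hy, h]
  unfold fe at h1
  have h2 := hle hx p
  have h3 := hle hy p
  generalize (cf x).factorization p = u at *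
  generalize (cf y).factorization p = v at *
  interval_cases u <;> interval_cases v <;> first | rfl | exact absurd h1 (by decide)

/-- powers modulo nine -/
theorem pow9 {p : ℕ} (hp : p % 3 = 1) {m n : ℕ} (h : (m : ZMod 3) = n) :
    (p : ZMod 9) ^ m = (p : ZMod 9) ^ n := by
  have h1 : (p : ZMod 9) = 1 ∨ (p : ZMod 9) = 4 ∨ (p : ZMod 9) = 7 := by
    have h2 : p % 9 = 1 ∨ p % 9 = 4 ∨ p % 9 = 7 := by omega
    have h3 : (p : ZMod 9) = ((p % 9 : ℕ) : ZMod 9) := (ZMod.natCast_mod p 9).symm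
    rcases h2 with h2 | h2 | h2 <;> rw [h3, h2]
    · exact Or.inl Nat.cast_one
    · exact Or.inr (Or.inl rfl)
    · exact Or.inr (Or.inr rfl)
  have hc : (p : ZMod 9) ^ 3 = 1 := by
    rcases h1 with h1 | h1 | h1 <;> rw [h1] <;> decide
  have key : ∀ m : ℕ, (p : ZMod 9) ^ m = (p : ZMod 9) ^ (m % 3) := by
    intro m
    conv_lhs => rw [← Nat.div_add_mod m 3, pow_add, pow_mul, hc, one_pow, one_mul]
  rw [key m, key n]
  rw [ZMod.natCast_eq_natCast_iff] at h
  unfold Nat.ModEq at h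
  rw [h]

section all
variable {κ ν : Type} [Fintype κ] [Fintype ν]

/-- the tuples of divisors in residue classes -/
noncomputable def DkK (k : ν → ℕ) (D : ℕ) : Finset (ν → ℕ) := Fintype.piFinset fun n => Dk (k n) D

/-- a form in the exponents, as a number -/
def fo (b : ν → ZMod 3) (d : ν → ℕ) : ℕ := ∏ n, d n ^ (b n).val

theorem fe_fo {b : ν → ZMod 3} {d : ν → ℕ} (hd : ∀ n, d n ≠ 0) (p : ℕ) :
    fe (fo b d) p = ∑ n, b n * fe (d n) p :=
  Q283.ND.fe_prod' univ d (fun n _ => hd n) b p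

theorem fo_ne {b : ν → ZMod 3} {d : ν → ℕ} (hd : ∀ n, d n ≠ 0) : fo b d ≠ 0 :=
  prod_ne_zero_iff.2 fun n _ => pow_ne_zero _ (hd n)

/-- the forms modulo nine -/
theorem dv_fo {S : Finset ℕ} (hS : ∀ p ∈ S, p % 3 = 1) (b : ν → ZMod 3) (e : S → ν → ZMod 3) :
    ((dv (lin b e) : ℕ) : ZMod 9) = ((fo b (fun n => dv fun p => e p n) : ℕ) : ZMod 9) := by
  unfold dv fo
  push_cast
  simp_rw [← prod_pow]
  rw [Finset.prod_comm]
  refine prod_congr rfl fun p _ => ?_
  simp_rw [← pow_mul]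
  rw [prod_pow_eq_pow_sum]
  refine pow9 (hS p p.2) ?_
  rw [ZMod.natCast_zmod_val]
  push_cast
  unfold lin
  rw [dt_apply]
  refine sum_congr rfl fun n _ => ?_
  rw [ZMod.natCast_zmod_val, ZMod.natCast_zmod_val, mul_comm]

/-- **The coranks of a family over the tuples of divisors.** -/
theorem good_divK {k : ν → ℕ} {D B : ℕ} {N : κ → ℕ} {a : κ → ν → ZMod 3} {ε : ℝ}
    (hC : ∀ j, Cls (N j))
    (hD : Dc D) (h1 : ∀ j, N j * fo (a j) k % 9 ≠ 1) (h8 : ∀ j, N j * fo (a j) k % 9 ≠ 8)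
    (h : TDK k N a B ε D) :
    GoodJ B ε (DkK k D) fun d j => rr (cf (N j * fo (a j) d)) := by
  have hS : ∀ p ∈ D.primeFactors, p.Prime := fun p hp => Nat.prime_of_mem_primeFactors hp
  have hS1 : ∀ p ∈ D.primeFactors, p % 3 = 1 := fun p hp =>
    hD.2 p (hS p hp) (Nat.dvd_of_mem_primeFactors hp)
  have hd0 : ∀ e : D.primeFactors → ZMod 3, dv e ≠ 0 := fun e h' =>
    pow_ne_zero 2 hD.1.ne_zero (zero_dvd_iff.1 (h' ▸ dv_dvd hD.1 e))
  have hmod : ∀ e ∈ AxK k D.primeFactors, ∀ j,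
      N j * dv (lin (a j) e) % 9 = N j * fo (a j) k % 9 := by
    intro e he j
    unfold AxK at he
    rw [mem_filter] at he
    have h2 : ((N j * dv (lin (a j) e) : ℕ) : ZMod 9) = ((N j * fo (a j) k : ℕ) : ZMod 9) := by
      push_cast
      rw [dv_fo hS1]
      congr 1
      unfold fo
      push_cast
      refine prod_congr rfl fun n _ => ?_
      congr 1
      have h3 : dv (fun p => e p n) % 9 = k n := he.2 n
      rw [← h3, ZMod.natCast_mod]
    rw [ZMod.natCast_eq_natCast_iff] at h2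
    exact h2
  have hck : ∀ e ∈ AxK k D.primeFactors,
      (fun j => ck D.primeFactors (WN N) (fe (N j)) (lin (a j) e)) =
      fun j => rr (cf (N j * fo (a j) (fun n => dv fun p => e p n))) := by
    intro e he
    funext j
    have h2 := hmod e he j
    rw [ck_sub (W' := (N j).primeFactors) (fun u hu => mem_WN.2 ⟨j, hu⟩) (fun u hu => ?_)]
    · rw [ck_rr (hC j) hD (lin (a j) e) (by rw [h2]; exact h1 j) (by rw [h2]; exact h8 j)]
      congr 1
      refine cf_congr (mul_ne_zero (hC j).1.1 (hd0 _))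
        (mul_ne_zero (hC j).1.1 (fo_ne fun n => hd0 _)) fun p => ?_
      rw [fe_mul (hC j).1.1 (hd0 _), fe_mul (hC j).1.1 (fo_ne fun n => hd0 _), fe_dv hS,
        fe_fo fun n => hd0 _]
      congr 1
      simp_rw [fe_dv hS]
      by_cases hp : p ∈ D.primeFactors
      · rw [dif_pos hp]
        unfold lin
        rw [dt_apply]
        exact sum_congr rfl fun n _ => by rw [dif_pos hp]
      · rw [dif_neg hp]
        symm
        exact sum_eq_zero fun n _ => by rw [dif_neg hp, mul_zero]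
    · by_contra h3
      exact hu ((fe_ne (hC j).1).1 h3)
  have hinj : Function.Injective fun (e : D.primeFactors → ν → ZMod 3) (n : ν) =>
      dv (fun p => e p n) := by
    intro e e' h'
    funext p n
    exact congrFun (dv_inj (congrFun h' n)) p
  have him : DkK k D = (AxK k D.primeFactors).image fun e n => dv (fun p => e p n) := by
    ext d
    unfold DkK
    rw [Fintype.mem_piFinset, mem_image]
    constructor
    · intro h2
      choose f hf1 hf2 using fun n => mem_image.1 (by rw [← Dk_eq hD.1]; exact h2 n)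
      refine ⟨fun p n => f n p, ?_, funext hf2⟩
      unfold AxK
      rw [mem_filter]
      refine ⟨mem_univ _, fun n => ?_⟩
      have h3 := hf1 n
      unfold Ax at h3
      rw [mem_filter] at h3
      exact h3.2
    · rintro ⟨e, he, rfl⟩ n
      unfold AxK at he
      rw [mem_filter] at he
      rw [Dk_eq hD.1, mem_image]
      refine ⟨fun p => e p n, ?_, rfl⟩
      unfold Ax
      rw [mem_filter]
      exact ⟨mem_univ _, he.2 n⟩
  have hcard : (DkK k D).card = (AxK k D.primeFactors).card := by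
    rw [him, card_image_of_injective _ hinj]
  have hsum : ∀ f : (κ → ℕ) → ℝ, ∑ d ∈ DkK k D, f (fun j => rr (cf (N j * fo (a j) d))) =
      ∑ e ∈ AxK k D.primeFactors,
        f (fun j => ck D.primeFactors (WN N) (fe (N j)) (lin (a j) e)) := by
    intro f
    rw [him, sum_image fun _ _ _ _ h' => hinj h']
    exact sum_congr rfl fun e he => by rw [hck e he]
  intro b hb
  have h2 := h b hb
  rw [hcard, hsum fun r => oneJ b r - qJ b]
  exact h2

theorem mem_DkK {k : ν → ℕ} {D : ℕ} {d : ν → ℕ} : d ∈ DkK k D ↔ ∀ n, d n ∈ Dk (k n) D := by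
  unfold DkK
  rw [Fintype.mem_piFinset]

theorem DkK_large {k : ν → ℕ} {t : ℕ} {i : ν} (hk : ¬ k i < 9) : DkK k t = ∅ := by
  refine eq_empty_of_forall_notMem fun d hd => ?_
  have h1 := mem_DkK.1 hd i
  rw [Dk_large hk] at h1
  exact notMem_empty _ h1

/-- the law of the empty family -/
theorem goodJ_empty [IsEmpty κ] {E : Type} (B : ℕ) {ε : ℝ} (hε : 0 ≤ ε) (A : Finset E)
    (g : E → κ → ℕ) : GoodJ B ε A g := by
  intro b _
  have h1 : ∀ e ∈ A, oneJ b (g e) - qJ b = 0 := by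
    intro e _
    unfold oneJ qJ
    rw [univ_eq_empty, prod_empty, prod_empty, sub_self]
  rw [sum_eq_zero h1, abs_zero]
  exact mul_nonneg hε (Nat.cast_nonneg _)

end all

/-- the joint law over the tuples at a number -/
def PK (M n : ℕ) (N : Fin M → ℕ) (a : Fin M → Fin n → ZMod 3) (ε : ℝ) (t : ℕ) : Prop :=
  ∀ k : Fin n → ℕ, (∀ j, N j * fo (a j) k % 9 ≠ 1) → (∀ j, N j * fo (a j) k % 9 ≠ 8) →
    LwJ ε (DkK k t) fun d j => rr (cf (N j * fo (a j) d))

theorem alm_PK {M n : ℕ} {N : Fin M → ℕ} {a : Fin M → Fin n → ZMod 3} (hC : ∀ j, Cls (N j))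
    (hN : Ind N a) {ε : ℝ} (hε : 0 < ε) : Alm Dc (PK M n N a ε) := by
  obtain ⟨B, q, hg⟩ := lwJ_of_good M ε hε
  by_cases hM : Nonempty (Fin M)
  · refine alm_mono (alm_finset (Fintype.piFinset fun _ : Fin n => range 9) fun k hk =>
      alm_TDK (k := k) (fun i => mem_range.1 (Fintype.mem_piFinset.1 hk i)) hC hN B
        (1 / ((q : ℝ) + 1)) (by positivity)) fun t ht h k h1 h8 => ?_
    refine hg _ _ _ ?_
    by_cases hk : ∀ i, k i < 9
    · exact good_divK hC ht h1 h8 (h k (Fintype.mem_piFinset.2 fun i => mem_range.2 (hk i)))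
    · push Not at hk
      obtain ⟨i, hi⟩ := hk
      rw [DkK_large (i := i) (by omega)]
      intro b _
      simp
  · refine alm_mono (alm_true Dc) fun t ht _ k h1 h8 => hg _ _ _ ?_
    have : IsEmpty (Fin M) := not_nonempty_iff.1 hM
    exact goodJ_empty B (by positivity) _ _

/-- **Almost all split numbers.** -/
theorem mainK : ∃ S : ℕ → Prop, Alm Dc S ∧
    ∀ (M n : ℕ) (N : Fin M → ℕ) (a : Fin M → Fin n → ZMod 3), (∀ j, Cls (N j)) → Ind N a →
      ∀ ε : ℝ, 0 < ε → ∀ᶠ D in atTop, Dc D → S D → PK M n N a ε D := by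
  obtain ⟨φ, hφ⟩ := exists_surjective_nat
    ((Σ p : ℕ × ℕ, (Fin p.1 → ℕ) × (Fin p.1 → Fin p.2 → ZMod 3)) × ℕ)
  obtain ⟨S, hS, h⟩ := exists_dense (C := Dc) (T := fun j D =>
    (∀ i, Cls ((φ j).1.2.1 i)) → Ind (φ j).1.2.1 (φ j).1.2.2 →
      PK (φ j).1.1.1 (φ j).1.1.2 (φ j).1.2.1 (φ j).1.2.2 (1 / (((φ j).2 : ℝ) + 1)) D) fun j => by
    by_cases hC : (∀ i, Cls ((φ j).1.2.1 i)) ∧ Ind (φ j).1.2.1 (φ j).1.2.2
    · exact alm_mono (alm_PK hC.1 hC.2 (by positivity)) fun D _ hD _ _ => hD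
    · exact alm_mono (alm_true _) fun D _ _ h1 h2 => absurd ⟨h1, h2⟩ hC
  refine ⟨S, hS, fun M n N a hC hN ε hε => ?_⟩
  obtain ⟨q, hq⟩ := exists_nat_one_div_lt hε
  obtain ⟨j, hj⟩ := hφ ⟨⟨(M, n), (N, a)⟩, q⟩
  filter_upwards [h j] with D hD hDc hSD k h1 h8
  rw [hj] at hD
  exact LwJ.mono (hD hSD hC hN k h1 h8) hq.le

/-- **Almost all numbers and almost all split numbers.** -/
theorem mainKB : ∃ S : ℕ → Prop, Alm (fun _ => True) S ∧ Alm Dc S ∧
    ∀ (M n : ℕ) (N : Fin M → ℕ) (a : Fin M → Fin n → ZMod 3), (∀ j, Cls (N j)) → Ind N a →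
      ∀ ε : ℝ, 0 < ε → ∀ᶠ D in atTop, S D → PK M n N a ε (sp D) := by
  obtain ⟨S₂, hS₂, hJ₂⟩ := mainK
  obtain ⟨φ, hφ⟩ := exists_surjective_nat
    ((Σ p : ℕ × ℕ, (Fin p.1 → ℕ) × (Fin p.1 → Fin p.2 → ZMod 3)) × ℕ)
  obtain ⟨S₁, hS₁, h⟩ := exists_dense (C := fun _ => True) (T := fun j D =>
    (∀ i, Cls ((φ j).1.2.1 i)) → Ind (φ j).1.2.1 (φ j).1.2.2 →
      PK (φ j).1.1.1 (φ j).1.1.2 (φ j).1.2.1 (φ j).1.2.2 (1 / (((φ j).2 : ℝ) + 1)) (sp D))
      fun j => by
    by_cases hC : (∀ i, Cls ((φ j).1.2.1 i)) ∧ Ind (φ j).1.2.1 (φ j).1.2.2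
    · exact alm_mono (alm_sp (alm_PK hC.1 hC.2 (by positivity))) fun D _ hD _ _ => hD
    · exact alm_mono (alm_true _) fun D _ _ h1 h2 => absurd ⟨h1, h2⟩ hC
  refine ⟨fun D => (Dc D ∧ S₂ D) ∨ (¬ Dc D ∧ S₁ D), ?_, ?_, fun M n N a hC hN ε hε => ?_⟩
  · exact alm_mono (alm_and hS₁ alm_nsplit) fun D _ h => Or.inr ⟨h.2, h.1⟩
  · exact alm_mono hS₂ fun D hD h => Or.inl ⟨hD, h⟩
  · obtain ⟨q, hq⟩ := exists_nat_one_div_lt hε
    obtain ⟨j, hj⟩ := hφ ⟨⟨(M, n), (N, a)⟩, q⟩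
    filter_upwards [h j, hJ₂ M n N a hC hN ε hε] with D h1 h2 h3
    rcases h3 with ⟨hD, h3⟩ | ⟨-, h3⟩
    · rw [sp_split hD]
      exact h2 hD h3
    · rw [hj] at h1
      intro k g1 g8
      exact LwJ.mono (h1 h3 hC hN k g1 g8) hq.le

end Q283.NK
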