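import Pool.Agent.Q283.NK.E1

/-! Tuples of divisors: the value of one form is equidistributed -/

set_option autoImplicit false
set_option linter.unusedSectionVars false

open scoped Classical
open Finset Filter

namespace Q283.NK

open Q283.Q3N (fe fe_ne fe_mul fe_cube fe_pow fe_one)
open Q283.ND (Dc xe ck Ax cf cf_mul cf_ne cf_free fe_cf Dk Dk_eq mem_Dk dv dv_inj dv_dvd fe_dv)

/-- one coordinate of a box -/
theorem piSum {ν X : Type} [Fintype ν] (A : ν → Finset X) (i : ν) (G : X → ℝ) :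
    (∑ f ∈ Fintype.piFinset A, G (f i)) * (A i).card =
      (Fintype.piFinset A).card * ∑ x ∈ A i, G x := by
  have h1 := prod_univ_sum A (fun n x => if n = i then G x else (1 : ℝ))
  have h2 : ∀ f : ν → X, ∏ n, (if n = i then G (f n) else (1 : ℝ)) = G (f i) := by
    intro f
    rw [prod_ite_eq' univ i, if_pos (mem_univ i)]
  rw [sum_congr rfl fun f _ => h2 f] at h1
  rw [← h1, Fintype.card_piFinset]
  push_cast
  rw [← mul_prod_erase univ (fun n => ∑ x ∈ A n, if n = i then G x else (1 : ℝ)) (mem_univ i),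
    ← mul_prod_erase univ (fun n => ((A n).card : ℝ)) (mem_univ i)]
  have h3 : ∏ n ∈ univ.erase i, (∑ x ∈ A n, if n = i then G x else (1 : ℝ)) =
      ∏ n ∈ univ.erase i, ((A n).card : ℝ) := by
    refine prod_congr rfl fun n hn => ?_
    simp only [if_neg (mem_erase.1 hn).1]
    rw [sum_const, nsmul_eq_mul, mul_one]
  have h4 : ∑ x ∈ A i, (if i = i then G x else (1 : ℝ)) = ∑ x ∈ A i, G x :=
    sum_congr rfl fun x _ => if_pos rfl
  rw [h3, h4]
  ring

section all
variable {ν : Type} [Fintype ν] {S : Finset ℕ}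

/-- the value of a form -/
noncomputable def lc (b : ν → ZMod 3) (f : ν → S → ZMod 3) : S → ZMod 3 := fun p => ∑ n, b n * f n p

/-- the change of variables -/
noncomputable def chg (b : ν → ZMod 3) (i : ν) (hi : b i ≠ 0) :
    (ν → S → ZMod 3) ≃ (ν → S → ZMod 3) where
  toFun f := Function.update f i (lc b f)
  invFun g := Function.update g i fun p => (b i)⁻¹ * (g i p - ∑ n ∈ univ.erase i, b n * g n p)
  left_inv := fun f => by
    funext n p
    beta_reduce
    by_cases hn : n = i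
    · subst hn
      rw [Function.update_self, Function.update_self]
      have h1 : ∑ m ∈ univ.erase n, b m * (Function.update f n (lc b f)) m p =
          ∑ m ∈ univ.erase n, b m * f m p := by
        refine sum_congr rfl fun m hm => ?_
        rw [Function.update_of_ne (mem_erase.1 hm).1]
      rw [h1]
      unfold lc
      rw [← add_sum_erase univ (fun m => b m * f m p) (mem_univ n), add_sub_cancel_right,
        ← mul_assoc, inv_mul_cancel₀ hi, one_mul]
    · rw [Function.update_of_ne hn, Function.update_of_ne hn]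
  right_inv := fun g => by
    funext n p
    beta_reduce
    by_cases hn : n = i
    · subst hn
      rw [Function.update_self]
      unfold lc
      rw [← add_sum_erase univ (fun m => b m * _) (mem_univ n), Function.update_self]
      have h1 : ∑ m ∈ univ.erase n, b m * (Function.update g n fun p =>
          (b n)⁻¹ * (g n p - ∑ m ∈ univ.erase n, b m * g m p)) m p =
          ∑ m ∈ univ.erase n, b m * g m p := by
        refine sum_congr rfl fun m hm => ?_
        rw [Function.update_of_ne (mem_erase.1 hm).1]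
      rw [h1, ← mul_assoc, mul_inv_cancel₀ hi, one_mul, sub_add_cancel]
    · rw [Function.update_of_ne hn, Function.update_of_ne hn]

theorem dv_unit (hS : ∀ p ∈ S, p % 3 = 1) (e : S → ZMod 3) :
    ((dv e : ℕ) : ZMod 9) = 1 ∨ ((dv e : ℕ) : ZMod 9) = 4 ∨ ((dv e : ℕ) : ZMod 9) = 7 := by
  unfold dv
  push_cast
  have hcl : ∀ x y : ZMod 9, (x = 1 ∨ x = 4 ∨ x = 7) → (y = 1 ∨ y = 4 ∨ y = 7) →
      (x * y = 1 ∨ x * y = 4 ∨ x * y = 7) := by decide
  have hpw : ∀ y : ZMod 9, (y = 1 ∨ y = 4 ∨ y = 7) → ∀ c : ZMod 3,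
      (y ^ c.val = 1 ∨ y ^ c.val = 4 ∨ y ^ c.val = 7) := by decide
  refine prod_induction (fun i : S => ((i : ℕ) : ZMod 9) ^ (e i).val)
    (fun x => x = 1 ∨ x = 4 ∨ x = 7) (fun x y => hcl x y) (Or.inl rfl) fun i _ => ?_
  refine hpw _ ?_ _
  have h2 := hS i i.2
  have h3 : (i : ℕ) % 9 = 1 ∨ (i : ℕ) % 9 = 4 ∨ (i : ℕ) % 9 = 7 := by omega
  have h4 : ((i : ℕ) : ZMod 9) = (((i : ℕ) % 9 : ℕ) : ZMod 9) := (ZMod.natCast_mod _ 9).symm
  rcases h3 with h3 | h3 | h3 <;> rw [h4, h3]
  · exact Or.inl Nat.cast_one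
  · exact Or.inr (Or.inl rfl)
  · exact Or.inr (Or.inr rfl)

theorem mem_Ax {k : ℕ} {e : S → ZMod 3} : e ∈ Ax k S ↔ dv e % 9 = k := by
  unfold Ax
  rw [mem_filter, and_iff_right (mem_univ _)]
  exact Iff.rfl

/-- the forms modulo nine, again -/
theorem dv_lc (hS : ∀ p ∈ S, p % 3 = 1) (b : ν → ZMod 3) (f : ν → S → ZMod 3) :
    ((dv (lc b f) : ℕ) : ZMod 9) = ((fo b (fun n => dv (f n)) : ℕ) : ZMod 9) :=
  dv_fo hS b (fun p n => f n p)

theorem fo9 {b : ν → ZMod 3} {c : ν → ℕ} {f : ν → S → ZMod 3} (h : ∀ n, dv (f n) % 9 = c n) :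
    ((fo b (fun n => dv (f n)) : ℕ) : ZMod 9) = ((fo b c : ℕ) : ZMod 9) := by
  unfold fo
  push_cast
  refine prod_congr rfl fun n _ => ?_
  rw [← h n, ZMod.natCast_mod]

/-- the change of variables on the boxes -/
theorem chg_mem (hS : ∀ p ∈ S, p % 3 = 1) {b : ν → ZMod 3} {i : ν} (hi : b i ≠ 0) {c : ν → ℕ}
    (hne : (Fintype.piFinset fun n => Ax (c n) S).Nonempty) (f : ν → S → ZMod 3) :
    f ∈ (Fintype.piFinset fun n => Ax (c n) S) ↔ chg b i hi f ∈
      Fintype.piFinset fun n => Ax ((Function.update c i (fo b c % 9)) n) S := by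
  obtain ⟨g, hg⟩ := hne
  rw [Fintype.mem_piFinset] at hg
  simp only [mem_Ax] at hg
  rw [Fintype.mem_piFinset, Fintype.mem_piFinset]
  simp only [mem_Ax]
  constructor
  · intro h n
    show dv ((Function.update f i (lc b f)) n) % 9 = _
    by_cases hn : n = i
    · subst hn
      rw [Function.update_self, Function.update_self]
      have h1 := (dv_lc hS b f).trans (fo9 h)
      rw [ZMod.natCast_eq_natCast_iff] at h1
      exact h1
    · rw [Function.update_of_ne hn, Function.update_of_ne hn]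
      exact h n
  · intro h
    have h0 : ∀ n, n ≠ i → dv (f n) % 9 = c n := by
      intro n hn
      have h1 : dv ((Function.update f i (lc b f)) n) % 9 = _ := h n
      rw [Function.update_of_ne hn, Function.update_of_ne hn] at h1
      exact h1
    have h1 : dv (lc b f) % 9 = fo b c % 9 := by
      have h2 : dv ((Function.update f i (lc b f)) i) % 9 = _ := h i
      rw [Function.update_self, Function.update_self] at h2
      exact h2
    have h2 : ((dv (lc b f) : ℕ) : ZMod 9) = ((fo b c : ℕ) : ZMod 9) := by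
      rw [ZMod.natCast_eq_natCast_iff]
      exact h1
    rw [dv_lc hS] at h2
    unfold fo at h2
    push_cast at h2
    rw [← mul_prod_erase univ (fun n => ((dv (f n) : ℕ) : ZMod 9) ^ (b n).val) (mem_univ i),
      ← mul_prod_erase univ (fun n => ((c n : ℕ) : ZMod 9) ^ (b n).val) (mem_univ i)] at h2
    have h3 : ∏ n ∈ univ.erase i, ((dv (f n) : ℕ) : ZMod 9) ^ (b n).val =
        ∏ n ∈ univ.erase i, ((c n : ℕ) : ZMod 9) ^ (b n).val := by
      refine prod_congr rfl fun n hn => ?_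
      rw [← h0 n (mem_erase.1 hn).1, ZMod.natCast_mod]
    have hcu : ∀ n, ((c n : ℕ) : ZMod 9) = 1 ∨ ((c n : ℕ) : ZMod 9) = 4 ∨
        ((c n : ℕ) : ZMod 9) = 7 := by
      intro n
      rw [← hg n, ZMod.natCast_mod]
      exact dv_unit hS (g n)
    have hP : ∏ n ∈ univ.erase i, ((c n : ℕ) : ZMod 9) ^ (b n).val = 1 ∨
        ∏ n ∈ univ.erase i, ((c n : ℕ) : ZMod 9) ^ (b n).val = 4 ∨
        ∏ n ∈ univ.erase i, ((c n : ℕ) : ZMod 9) ^ (b n).val = 7 := by
      have hcl : ∀ x y : ZMod 9, (x = 1 ∨ x = 4 ∨ x = 7) → (y = 1 ∨ y = 4 ∨ y = 7) →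
          (x * y = 1 ∨ x * y = 4 ∨ x * y = 7) := by decide
      have hpw : ∀ y : ZMod 9, (y = 1 ∨ y = 4 ∨ y = 7) → ∀ c : ZMod 3,
          (y ^ c.val = 1 ∨ y ^ c.val = 4 ∨ y ^ c.val = 7) := by decide
      exact prod_induction (fun n => ((c n : ℕ) : ZMod 9) ^ (b n).val)
        (fun x => x = 1 ∨ x = 4 ∨ x = 7) (fun x y => hcl x y) (Or.inl rfl) fun n _ =>
          hpw _ (hcu n) _
    rw [h3] at h2
    have key : ∀ x y P : ZMod 9, (x = 1 ∨ x = 4 ∨ x = 7) → (y = 1 ∨ y = 4 ∨ y = 7) →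
        (P = 1 ∨ P = 4 ∨ P = 7) → ∀ t : ZMod 3, t ≠ 0 → x ^ t.val * P = y ^ t.val * P → x = y := by
      decide
    have h4 := key _ _ _ (dv_unit hS (f i)) (hcu i) hP (b i) hi h2
    intro n
    by_cases hn : n = i
    · subst hn
      rw [ZMod.natCast_eq_natCast_iff] at h4
      rw [h4, ← hg n, Nat.mod_mod]
    · exact h0 n hn

/-- **The values of one form.** -/
theorem sum_lc (hS : ∀ p ∈ S, p % 3 = 1) {b : ν → ZMod 3} {i : ν} (hi : b i ≠ 0) (c : ν → ℕ)
    (G : (S → ZMod 3) → ℝ) :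
    (∑ f ∈ Fintype.piFinset fun n => Ax (c n) S, G (lc b f)) * (Ax (fo b c % 9) S).card =
      (Fintype.piFinset fun n => Ax (c n) S).card * ∑ x ∈ Ax (fo b c % 9) S, G x := by
  rcases (Fintype.piFinset fun n => Ax (c n) S).eq_empty_or_nonempty with he | hne
  · rw [he, sum_empty, card_empty, Nat.cast_zero, zero_mul, zero_mul]
  have h1 : ∑ f ∈ (Fintype.piFinset fun n => Ax (c n) S), G (lc b f) =
      ∑ g ∈ Fintype.piFinset fun n => Ax ((Function.update c i (fo b c % 9)) n) S, G (g i) := by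
    refine sum_nbij (chg b i hi) (fun f hf => (chg_mem hS hi hne f).1 hf)
      (fun f _ g _ h => (chg b i hi).injective h) (fun g hg => ?_) fun f _ => ?_
    · refine ⟨(chg b i hi).symm g, ?_, (chg b i hi).apply_symm_apply g⟩
      rw [mem_coe, chg_mem hS hi hne, (chg b i hi).apply_symm_apply]
      exact hg
    · show G (lc b f) = G ((Function.update f i (lc b f)) i)
      rw [Function.update_self]
  have h2 : (Fintype.piFinset fun n => Ax (c n) S).card =
      (Fintype.piFinset fun n => Ax ((Function.update c i (fo b c % 9)) n) S).card := by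
    refine card_nbij (chg b i hi) (fun f hf => (chg_mem hS hi hne f).1 hf)
      (fun f _ g _ h => (chg b i hi).injective h) (fun g hg => ?_)
    refine ⟨(chg b i hi).symm g, ?_, (chg b i hi).apply_symm_apply g⟩
    rw [mem_coe, chg_mem hS hi hne, (chg b i hi).apply_symm_apply]
    exact hg
  have h3 := piSum (fun n => Ax ((Function.update c i (fo b c % 9)) n) S) i G
  rw [Function.update_self] at h3
  rw [h1, h2]
  exact h3

end all

section dd
variable {ν : Type} [Fintype ν]

/-- **The values of one form in the tuples of divisors.** -/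
theorem sum_fo {D : ℕ} (hD : Dc D) {N : ℕ} (hN : N ≠ 0) {b : ν → ZMod 3} (hb : b ≠ 0) (c : ν → ℕ)
    (F : ℕ → ℝ) :
    (∑ d ∈ DkK c D, F (cf (N * fo b d))) * (Dk (fo b c % 9) D).card =
      (DkK c D).card * ∑ d ∈ Dk (fo b c % 9) D, F (cf (N * d)) := by
  obtain ⟨i, hi⟩ := Function.ne_iff.1 hb
  have hS : ∀ p ∈ D.primeFactors, p.Prime := fun p hp => Nat.prime_of_mem_primeFactors hp
  have hS1 : ∀ p ∈ D.primeFactors, p % 3 = 1 := fun p hp =>
    hD.2 p (hS p hp) (Nat.dvd_of_mem_primeFactors hp)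
  have hd0 : ∀ e : D.primeFactors → ZMod 3, dv e ≠ 0 := fun e h' =>
    pow_ne_zero 2 hD.1.ne_zero (zero_dvd_iff.1 (h' ▸ dv_dvd hD.1 e))
  have h1 := sum_lc hS1 hi c (fun e => F (cf (N * dv e)))
  have him : DkK c D = (Fintype.piFinset fun n => Ax (c n) D.primeFactors).image
      fun f n => dv (f n) := by
    ext d
    rw [mem_DkK, mem_image]
    constructor
    · intro h2
      choose f hf1 hf2 using fun n => mem_image.1 (by rw [← Dk_eq hD.1]; exact h2 n)
      exact ⟨f, Fintype.mem_piFinset.2 hf1, funext hf2⟩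
    · rintro ⟨f, hf, rfl⟩ n
      rw [Dk_eq hD.1]
      exact mem_image_of_mem _ (Fintype.mem_piFinset.1 hf n)
  have hinj : Set.InjOn (fun (f : ν → D.primeFactors → ZMod 3) (n : ν) => dv (f n))
      (Fintype.piFinset fun n => Ax (c n) D.primeFactors) := by
    intro f _ g _ h
    funext n
    exact dv_inj (congrFun h n)
  have hinj1 : Set.InjOn (dv (S := D.primeFactors)) (Ax (fo b c % 9) D.primeFactors) :=
    fun _ _ _ _ h' => dv_inj h'
  rw [him, sum_image hinj, card_image_of_injOn hinj, Dk_eq hD.1, sum_image hinj1,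
    card_image_of_injOn hinj1, ← h1]
  congr 1
  refine sum_congr rfl fun f _ => ?_
  congr 1
  refine cf_congr (mul_ne_zero hN (fo_ne fun n => hd0 _)) (mul_ne_zero hN (hd0 _)) fun p => ?_
  rw [fe_mul hN (hd0 _), fe_mul hN (fo_ne fun n => hd0 _), fe_dv hS, fe_fo fun n => hd0 _]
  congr 1
  simp_rw [fe_dv hS]
  by_cases hp : p ∈ D.primeFactors
  · rw [dif_pos hp]
    unfold lc
    exact sum_congr rfl fun n _ => by rw [dif_pos hp]
  · rw [dif_neg hp]
    exact sum_eq_zero fun n _ => by rw [dif_neg hp, mul_zero]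

/-- there are such divisors -/
theorem Dk_fo_ne {D : ℕ} (hD : Dc D) {b : ν → ZMod 3} (hb : b ≠ 0) {c : ν → ℕ}
    (h : (DkK c D).Nonempty) : (Dk (fo b c % 9) D).Nonempty := by
  obtain ⟨i, hi⟩ := Function.ne_iff.1 hb
  have hS : ∀ p ∈ D.primeFactors, p.Prime := fun p hp => Nat.prime_of_mem_primeFactors hp
  have hS1 : ∀ p ∈ D.primeFactors, p % 3 = 1 := fun p hp =>
    hD.2 p (hS p hp) (Nat.dvd_of_mem_primeFactors hp)
  obtain ⟨d, hd⟩ := h
  rw [mem_DkK] at hd
  choose f hf1 hf2 using fun n => mem_image.1 (by rw [← Dk_eq hD.1]; exact hd n)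
  have hf : f ∈ Fintype.piFinset fun n => Ax (c n) D.primeFactors := Fintype.mem_piFinset.2 hf1
  have h1 := Fintype.mem_piFinset.1 ((chg_mem hS1 hi ⟨f, hf⟩ f).1 hf) i
  rw [Function.update_self] at h1
  rw [Dk_eq hD.1]
  exact ⟨_, mem_image_of_mem _ h1⟩

end dd

end Q283.NK
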